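import Pool.Agent.PBC.Targets

/-!
# PBC: proof of `T_COR`
-/

open MeasureTheory Module Set Filter Topology
open scoped Pointwise

namespace Pool.Agent.PBC
open Pool.Agent.ProjBody Pool.Agent.PBX

namespace COR_

variable {m : ℕ}

theorem e0_zero : (e0 m) 0 = 1 := by simp [e0]

theorem e0_succ (i : Fin m) : (e0 m) i.succ = 0 := by simp [e0]

theorem norm_e0 : ‖e0 m‖ = 1 := by simp [e0]

theorem inner_e0 (u : E (m + 1)) : inner ℝ (e0 m) u = u 0 := by
  simp [e0, EuclideanSpace.inner_single_left]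

/-- the diagonal map -/
noncomputable def dg (a b : ℝ) (v : E (m + 1)) : E (m + 1) := b • v + ((a - b) * v 0) • e0 m

theorem dg_add (a b : ℝ) (u v : E (m + 1)) : dg a b (u + v) = dg a b u + dg a b v := by
  unfold dg
  simp only [PiLp.add_apply, mul_add, add_smul, smul_add]
  abel

theorem dg_smul (a b r : ℝ) (v : E (m + 1)) : dg a b (r • v) = r • dg a b v := by
  unfold dg
  simp only [PiLp.smul_apply, smul_eq_mul, smul_add, smul_smul]
  congr 2 <;> ring

theorem dg_zero (a b : ℝ) (v : E (m + 1)) : (dg a b v) 0 = a * v 0 := by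
  unfold dg
  simp only [PiLp.add_apply, PiLp.smul_apply, smul_eq_mul, e0_zero]
  ring

theorem dg_succ (a b : ℝ) (v : E (m + 1)) (i : Fin m) : (dg a b v) i.succ = b * v i.succ := by
  unfold dg
  simp only [PiLp.add_apply, PiLp.smul_apply, smul_eq_mul, e0_succ]
  ring

theorem dg_dg (a b a' b' : ℝ) (v : E (m + 1)) (ha : a * a' = 1) (hb : b * b' = 1) :
    dg a b (dg a' b' v) = v := by
  ext i
  refine Fin.cases ?_ (fun j => ?_) i
  · rw [dg_zero, dg_zero, ← mul_assoc, ha, one_mul]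
  · rw [dg_succ, dg_succ, ← mul_assoc, hb, one_mul]

theorem norm_sq (u : E (m + 1)) : ‖u‖ ^ 2 = (u 0) ^ 2 + ‖tl u‖ ^ 2 := by
  rw [EuclideanSpace.real_norm_sq_eq, EuclideanSpace.real_norm_sq_eq, Fin.sum_univ_succ]
  rfl

theorem norm_dg (a b : ℝ) (u : E (m + 1)) :
    ‖dg a b u‖ ^ 2 = a ^ 2 * (u 0) ^ 2 + b ^ 2 * ‖tl u‖ ^ 2 := by
  rw [norm_sq, dg_zero]
  have h : tl (dg a b u) = b • tl u := by
    ext i
    simp only [tl, PiLp.smul_apply, smul_eq_mul]
    exact dg_succ a b u i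
  rw [h, norm_smul, mul_pow, mul_pow, Real.norm_eq_abs, sq_abs]

/-- the diagonal equivalence -/
noncomputable def dgE (a b : ℝ) (ha : a ≠ 0) (hb : b ≠ 0) : E (m + 1) ≃L[ℝ] E (m + 1) :=
  LinearEquiv.toContinuousLinearEquiv
    { toFun := dg a b
      map_add' := dg_add a b
      map_smul' := fun r v => dg_smul a b r v
      invFun := dg a⁻¹ b⁻¹
      left_inv := fun v => dg_dg _ _ _ _ v (inv_mul_cancel₀ ha) (inv_mul_cancel₀ hb)
      right_inv := fun v => dg_dg _ _ _ _ v (mul_inv_cancel₀ ha) (mul_inv_cancel₀ hb) }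

theorem dgE_apply (a b : ℝ) (ha : a ≠ 0) (hb : b ≠ 0) (v : E (m + 1)) :
    dgE a b ha hb v = dg a b v := rfl

theorem dgE_symm_apply (a b : ℝ) (ha : a ≠ 0) (hb : b ≠ 0) (v : E (m + 1)) :
    (dgE a b ha hb).symm v = dg a⁻¹ b⁻¹ v := rfl

theorem dg_comm (a b : ℝ) (f : E (m + 1) ≃ₗᵢ[ℝ] E (m + 1)) (hf : f (e0 m) = e0 m)
    (v : E (m + 1)) : dg a b (f v) = f (dg a b v) := by
  have h : (f v) 0 = v 0 := by
    rw [← inner_e0, ← inner_e0]
    conv_lhs => rw [← hf]
    exact f.inner_map_map _ _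
  unfold dg
  rw [map_add, map_smul, map_smul, hf, h]

end COR_

open COR_ in
theorem p_COR : T_COR := by
  intro hINC hINR hINQ hINB hINI hGEO hIRR m h g T hm hh hR hg hC hT
  obtain ⟨α, β, hα, hβ, hαβ⟩ := hINR hINB hINI m h (by omega) hh hR
  obtain ⟨γ, hγ, hγg⟩ := hINQ hINB hINI (m + 1) g hg hC
  obtain ⟨c, hc, hcT⟩ := hINC (m + 1) h T hh
  have hfun : (fun v => h (T v)) = g := funext hT
  rw [hfun] at hcT
  set a : ℝ := Real.sqrt (c * α / γ) with ha_def
  set b : ℝ := Real.sqrt (c * β / γ) with hb_def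
  have ha : 0 < a := Real.sqrt_pos.2 (by positivity)
  have hb : 0 < b := Real.sqrt_pos.2 (by positivity)
  have ha2 : a ^ 2 = c * α / γ := Real.sq_sqrt (by positivity)
  have hb2 : b ^ 2 = c * β / γ := Real.sq_sqrt (by positivity)
  set D := dgE (m := m) a b ha.ne' hb.ne' with hD
  have hnorm : ∀ u, ‖D (T u)‖ = ‖u‖ := by
    intro u
    have h1 : ‖D (T u)‖ ^ 2 = ‖u‖ ^ 2 := by
      rw [hD, dgE_apply, norm_dg, ha2, hb2]
      have h2 := hcT u
      rw [hγg, hαβ] at h2
      field_simp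
      linarith
    exact (sq_eq_sq₀ (norm_nonneg _) (norm_nonneg _)).1 h1
  let S : E (m + 1) ≃ₗᵢ[ℝ] E (m + 1) :=
    { (T.trans D).toLinearEquiv with
      norm_map' := hnorm }
  have hS : ∀ u, S u = D (T u) := fun u => rfl
  set h' : E (m + 1) → ℝ := fun u => h (D.symm u) with hh'
  have hN' : IsN h' := hh.comp D.symm
  have hg' : ∀ u, h' (S u) = g u := by
    intro u
    rw [hh', hS]
    simp only [ContinuousLinearEquiv.symm_apply_apply]
    exact hT u
  have hR' : RInv (e0 m) h' := by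
    intro f hf u
    show h (D.symm (f u)) = h (D.symm u)
    rw [hD, dgE_symm_apply, dgE_symm_apply, dg_comm _ _ f hf]
    exact hR f hf _
  have hSa : S.symm (e0 m) ≠ 0 := by
    intro h0
    have h1 : ‖S.symm (e0 m)‖ = 1 := by rw [LinearIsometryEquiv.norm_map, norm_e0]
    rw [h0, norm_zero] at h1
    norm_num at h1
  obtain ⟨q, hq, hq1, hq2⟩ := hIRR (m + 1) (S.symm (e0 m)) (by omega) hSa
  set k : E (m + 1) ≃ₗᵢ[ℝ] E (m + 1) := (S.symm.trans q).trans S with hk
  have hk1 : ∀ u, k u = S (q (S.symm u)) := fun u => rfl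
  have hkinv : ∀ u, h' (k u) = h' u := by
    intro u
    rw [hk1, hg', hC q hq, ← hg', LinearIsometryEquiv.apply_symm_apply]
  set w := k (e0 m) with hw
  have hw1 : ‖w‖ = 1 := by rw [hw, LinearIsometryEquiv.norm_map, norm_e0]
  have hwe : w ≠ e0 m := by
    intro h0
    apply hq1
    rw [hw, hk1] at h0
    rw [← S.symm_apply_apply (q (S.symm (e0 m))), h0]
  have hwe' : w ≠ -e0 m := by
    intro h0
    apply hq2
    rw [hw, hk1] at h0
    rw [← S.symm_apply_apply (q (S.symm (e0 m))), h0, map_neg]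
  have hRw : RInv w h' := by
    intro f hf u
    have h1 : ((k.trans f).trans k.symm) (e0 m) = e0 m := by
      show k.symm (f (k (e0 m))) = e0 m
      rw [← hw, hf, hw, LinearIsometryEquiv.symm_apply_apply]
    have h2 := hR' _ h1 (k.symm u)
    have h3 : ((k.trans f).trans k.symm) (k.symm u) = k.symm (f u) := by
      show k.symm (f (k (k.symm u))) = _
      rw [LinearIsometryEquiv.apply_symm_apply]
    rw [h3] at h2
    have h4 := hkinv (k.symm (f u))
    rw [LinearIsometryEquiv.apply_symm_apply] at h4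
    have h5 := hkinv (k.symm u)
    rw [LinearIsometryEquiv.apply_symm_apply] at h5
    rw [h4, h2, h5]
  obtain ⟨c', hc'⟩ := hGEO (m + 1) h' (e0 m) w (by omega) hN' norm_e0 hw1 hwe hwe' hR' hRw
  have hc'pos : 0 < c' := by
    obtain ⟨x, y, hx, hxy⟩ := hN'
    have h1 := hxy.lo (e0 m)
    rw [hc', norm_e0] at h1
    linarith
  have h1 : DF h' = 1 := by
    have h2 : h' = fun u => c' * ‖u‖ := funext hc'
    rw [h2]
    exact DF_norm hc'pos
  rw [← h1, hh']
  exact (DF_comp D.symm h).symm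

end Pool.Agent.PBC
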