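import Pool.Agent.PBC.Targets
import Pool.Agent.ProjBody.Chain

/-!
# PBC: continuity on the square
-/

open MeasureTheory Module Set Filter Topology
open scoped Pointwise

namespace Pool.Agent.PBC
open Pool.Agent.ProjBody Pool.Agent.PBX

namespace CTS_

/-- distance of two parameters, scaled -/
noncomputable def dl (m : ℕ) (p q : ℝ × ℝ) : ℝ :=
  Real.sqrt ((m + 1 : ℕ) : ℝ) * (|q.1 - p.1| + |q.2 - p.2|)

lemma dl_nn (m : ℕ) (p q : ℝ × ℝ) : 0 ≤ dl m p q := by
  unfold dl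
  positivity

lemma dl_comm (m : ℕ) (p q : ℝ × ℝ) : dl m p q = dl m q p := by
  unfold dl
  rw [abs_sub_comm q.1 p.1, abs_sub_comm q.2 p.2]

lemma isN (hFAM : T_FAM) (m : ℕ) {p : ℝ × ℝ} (hp : p ∈ sq) :
    IsN (fam p.1 p.2 : E (m + 1) → ℝ) :=
  ⟨1, _, one_pos, hFAM m p.1 p.2 hp.1 hp.2⟩

lemma step (hFAM : T_FAM) (hFCL : T_FCL) (m : ℕ) (D : (E (m + 1) → ℝ) → ℝ) (hD : Fnl D) (k : ℕ)
    {p q : ℝ × ℝ} (hp : p ∈ sq) (hq : q ∈ sq) (h : dl m p q < 1) :
    D (P^[k] (fam q.1 q.2 : E (m + 1) → ℝ)) ≤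
      (1 + dl m p q) ^ ((m + 1 - 1) ^ k) / (1 - dl m p q) ^ ((m + 1 - 1) ^ k) *
        D (P^[k] (fam p.1 p.2 : E (m + 1) → ℝ)) := by
  have hc := hFCL m p.1 p.2 q.1 q.2 hp.1 hp.2 hq.1 hq.2
  have h0 := dl_nn m p q
  have h1 : ∀ u : E (m + 1), (1 - dl m p q) * fam p.1 p.2 u ≤ fam q.1 q.2 u := by
    intro u
    have := (abs_le.1 (hc u)).1
    unfold dl
    linarith
  have h2 : ∀ u : E (m + 1), fam q.1 q.2 u ≤ (1 + dl m p q) * fam p.1 p.2 u := by
    intro u
    have := (abs_le.1 (hc u)).2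
    unfold dl
    linarith
  obtain ⟨e1, e2⟩ := Pit_bounds k (isN hFAM m hp) (isN hFAM m hq)
    (by linarith : 0 < 1 - dl m p q) (by linarith : 0 < 1 + dl m p q) h1 h2
  exact hD.2.2 _ _ _ _ ((isN hFAM m hp).Pit k) (pow_pos (by linarith) _) e1 e2

end CTS_

open CTS_ in
theorem p_CTS : T_CTS := by
  intro hFAM hFCL m D hD k p hp
  set N := (m + 1 - 1) ^ k
  set f := fun p : ℝ × ℝ => D (P^[k] (fam p.1 p.2 : E (m + 1) → ℝ)) with hf
  have hδ : Filter.Tendsto (fun q : ℝ × ℝ => dl m p q) (nhdsWithin p sq) (nhds 0) := by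
    have hc : Continuous (fun q : ℝ × ℝ => dl m p q) := by
      unfold dl
      fun_prop
    have h1 := hc.tendsto p
    have h2 : dl m p p = 0 := by
      unfold dl
      simp
    rw [h2] at h1
    exact h1.mono_left nhdsWithin_le_nhds
  have hev : ∀ᶠ q in nhdsWithin p sq, dl m p q < 1 := hδ.eventually_lt_const one_pos
  have hup : Filter.Tendsto (fun q : ℝ × ℝ => (1 + dl m p q) ^ N / (1 - dl m p q) ^ N * f p)
      (nhdsWithin p sq) (nhds (f p)) := by
    have := (((hδ.const_add 1).pow N).div ((hδ.const_sub 1).pow N) (by simp)).mul_const (f p)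
    simpa using this
  have hlo : Filter.Tendsto (fun q : ℝ × ℝ => (1 - dl m p q) ^ N / (1 + dl m p q) ^ N * f p)
      (nhdsWithin p sq) (nhds (f p)) := by
    have := (((hδ.const_sub 1).pow N).div ((hδ.const_add 1).pow N) (by simp)).mul_const (f p)
    simpa using this
  apply tendsto_of_tendsto_of_tendsto_of_le_of_le' hlo hup
  · filter_upwards [hev, self_mem_nhdsWithin] with q hq1 hq2
    have e := step hFAM hFCL m D hD k hq2 hp (by rw [dl_comm]; exact hq1)
    rw [dl_comm m q p] at e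
    have h0 := dl_nn m p q
    have p1 : 0 < (1 + dl m p q) ^ N := by positivity
    have p2 : 0 < (1 - dl m p q) ^ N := pow_pos (by linarith) _
    rw [div_mul_eq_mul_div, div_le_iff₀ p1]
    rw [div_mul_eq_mul_div, le_div_iff₀ p2] at e
    calc (1 - dl m p q) ^ N * f p = f p * (1 - dl m p q) ^ N := mul_comm _ _
      _ ≤ (1 + dl m p q) ^ N * f q := e
      _ = _ := mul_comm _ _
  · filter_upwards [hev, self_mem_nhdsWithin] with q hq1 hq2
    exact step hFAM hFCL m D hD k hp hq2 hq1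

end Pool.Agent.PBC
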