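import Pool.Agent.PBC.Targets

/-! # PBC, target ETA: compactness lemma -/

set_option autoImplicit false

open MeasureTheory Module Set Filter Topology
open scoped Pointwise

namespace Pool.Agent.PBC
open Pool.Agent.ProjBody Pool.Agent.PBX

namespace ETA_

theorem ex_lim {X : Type*} [TopologicalSpace X] {K : Set X} (hK : IsCompact K) (f : ℕ → X)
    (hf : ∀ k, f k ∈ K) : ∃ x ∈ K, Tendsto f (hyperfilter ℕ : Filter ℕ) (𝓝 x) := by
  have h := hK.ultrafilter_le_nhds ((hyperfilter ℕ).map f) (by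
    rw [le_principal_iff]
    show f ⁻¹' K ∈ (hyperfilter ℕ : Filter ℕ)
    exact Filter.univ_mem' hf)
  obtain ⟨x, hx, hle⟩ := h
  exact ⟨x, hx, hle⟩

theorem nm_of {n : ℕ} {h : E n → ℝ} (hh : IsN h) {a b : ℝ} (lo : ∀ u, a * ‖u‖ ≤ h u)
    (hi : ∀ u, h u ≤ b * ‖u‖) : Nm a b h := by
  obtain ⟨a', b', _, hN⟩ := hh
  exact ⟨hN.add, hN.smul, lo, hi⟩

theorem step (hNRM : T_NRM) (hNCB : T_NCB) (hFDC : T_FDC) {m : ℕ} {r s : ℝ} (hm : 2 ≤ m)
    {h : E (m + 1) → ℝ} (hN : IsN h) (hR : RInv (e0 m) h) (hD : DF h = r) (hC : DC h < s) :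
    ∃ (h' g : E (m + 1) → ℝ) (T : E (m + 1) ≃L[ℝ] E (m + 1)), Nm 1 2 h' ∧ RInv (e0 m) h' ∧
      DF h' = r ∧ Nm 1 ((m + 1 : ℕ) : ℝ) g ∧ CInv g ∧ ∀ u, g u ≤ h' (T u) ∧ h' (T u) ≤ s * g u := by
  obtain ⟨S, hS1, hS2⟩ := hNRM m h (by omega) hN hR
  have hN' : IsN (fun u => h (S u)) := hN.comp S
  have hNm : Nm 1 2 (fun u => h (S u)) :=
    nm_of hN' (fun u => by rw [one_mul]; exact (hS2 u).1) (fun u => (hS2 u).2)
  have hC' : DC (fun u => h (S u)) < s := by
    rw [(hFDC (m + 1)).1.2.1 h S]; exact hC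
  obtain ⟨T, g, hgN, hgC, hT⟩ := (hFDC (m + 1)).2.2 _ s hN' hC'
  obtain ⟨c, hc, hcg⟩ := hNCB (m + 1) g hgN hgC
  obtain ⟨a, b, _, hgn⟩ := hgN
  refine ⟨fun u => h (S u), fun u => c * g u, (scl c hc.ne').trans T, hNm, ?_, ?_, ?_, ?_, ?_⟩
  · intro f hf u
    show h (S (f u)) = h (S u)
    rw [hS1 f hf u, hR f hf]
  · rw [DF_comp]; exact hD
  · refine ⟨(hgn.scale hc).add, (hgn.scale hc).smul, ?_, ?_⟩
    · intro u; rw [one_mul]; exact (hcg u).1
    · intro u; exact (hcg u).2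
  · intro f hf u
    show c * g (f u) = c * g u
    rw [hgC f hf u]
  · intro u
    have e : (fun u => h (S u)) (((scl c hc.ne').trans T) u) = c * h (S (T u)) := by
      have e1 : ((scl c hc.ne').trans T) u = c • T u := by
        show T (c • u) = _
        rw [map_smul]
      rw [e1]
      have e2 := hNm.smul c (T u)
      rw [abs_of_pos hc] at e2
      exact e2
    rw [e]
    constructor
    · exact mul_le_mul_of_nonneg_left (hT u).1 hc.le
    · calc c * h (S (T u)) ≤ c * (s * g u) := mul_le_mul_of_nonneg_left (hT u).2 hc.le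
        _ = s * (c * g u) := by ring

end ETA_

open ETA_ in
theorem p_ETA : T_ETA := by
  intro hNRM hNCB hFDC hFDF hLMD hCOR m r hm hr
  by_contra hcon
  push Not at hcon
  have hk : ∀ k : ℕ, ∃ (h' g : E (m + 1) → ℝ) (T : E (m + 1) ≃L[ℝ] E (m + 1)), Nm 1 2 h' ∧
      RInv (e0 m) h' ∧ DF h' = r ∧ Nm 1 ((m + 1 : ℕ) : ℝ) g ∧ CInv g ∧
      ∀ u, g u ≤ h' (T u) ∧ h' (T u) ≤ (1 + 1 / ((k : ℝ) + 1)) * g u := by
    intro k
    obtain ⟨h, hN, hR, hD, hC⟩ := hcon (1 / ((k : ℝ) + 1)) (by positivity)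
    exact step hNRM hNCB hFDC hm hN hR hD hC
  choose h g T h1 h2 h3 h4 h5 h6 using hk
  have hs : ∀ k : ℕ, 1 + 1 / ((k : ℝ) + 1) ≤ 2 := by
    intro k
    have : 1 / ((k : ℝ) + 1) ≤ 1 := by
      rw [div_le_one (by positivity)]
      have : (0 : ℝ) ≤ k := Nat.cast_nonneg k
      linarith
    linarith
  have hg0 : ∀ k u, 0 ≤ g k u := fun k u => by
    have := (h4 k).lo u
    have h0 := norm_nonneg u
    linarith
  have hTup : ∀ k u, ‖T k u‖ ≤ 2 * (((m + 1 : ℕ) : ℝ) * ‖u‖) := by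
    intro k u
    calc ‖T k u‖ = 1 * ‖T k u‖ := (one_mul _).symm
      _ ≤ h k (T k u) := (h1 k).lo _
      _ ≤ (1 + 1 / ((k : ℝ) + 1)) * g k u := (h6 k u).2
      _ ≤ 2 * g k u := mul_le_mul_of_nonneg_right (hs k) (hg0 k u)
      _ ≤ _ := mul_le_mul_of_nonneg_left ((h4 k).hi u) (by norm_num)
  have hTlo : ∀ k u, ‖u‖ ≤ 2 * ‖T k u‖ := by
    intro k u
    calc ‖u‖ = 1 * ‖u‖ := (one_mul _).symm
      _ ≤ g k u := (h4 k).lo u
      _ ≤ h k (T k u) := (h6 k u).1
      _ ≤ _ := (h1 k).hi _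
  -- limits
  have hh : ∀ u, ∃ x, Tendsto (fun k => h k u) (hyperfilter ℕ : Filter ℕ) (𝓝 x) := by
    intro u
    obtain ⟨x, _, hx⟩ := ex_lim (isCompact_Icc (a := 1 * ‖u‖) (b := 2 * ‖u‖)) (fun k => h k u)
      (fun k => ⟨(h1 k).lo u, (h1 k).hi u⟩)
    exact ⟨x, hx⟩
  have hgl : ∀ u, ∃ x, Tendsto (fun k => g k u) (hyperfilter ℕ : Filter ℕ) (𝓝 x) := by
    intro u
    obtain ⟨x, _, hx⟩ := ex_lim (isCompact_Icc (a := 1 * ‖u‖) (b := ((m + 1 : ℕ) : ℝ) * ‖u‖))
      (fun k => g k u) (fun k => ⟨(h4 k).lo u, (h4 k).hi u⟩)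
    exact ⟨x, hx⟩
  have hTl : ∀ u, ∃ x, Tendsto (fun k => T k u) (hyperfilter ℕ : Filter ℕ) (𝓝 x) := by
    intro u
    obtain ⟨x, _, hx⟩ := ex_lim
      (isCompact_closedBall (0 : E (m + 1)) (2 * (((m + 1 : ℕ) : ℝ) * ‖u‖)))
      (fun k => T k u) (fun k => by rw [mem_closedBall_zero_iff]; exact hTup k u)
    exact ⟨x, hx⟩
  choose H hH using hh
  choose G hG using hgl
  choose L hL using hTl
  have hNH : Nm 1 2 H := Nm.lim (Eventually.of_forall h1) hH
  have hNG : Nm 1 ((m + 1 : ℕ) : ℝ) G := Nm.lim (Eventually.of_forall h4) hG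
  have hRH : RInv (e0 m) H := by
    intro f hf u
    apply tendsto_nhds_unique (hH (f u))
    refine (hH u).congr fun k => ?_
    exact (h2 k f hf u).symm
  have hCG : CInv G := by
    intro f hf u
    apply tendsto_nhds_unique (hG (f u))
    refine (hG u).congr fun k => ?_
    exact (h5 k f hf u).symm
  let Ll : E (m + 1) →ₗ[ℝ] E (m + 1) :=
    { toFun := L
      map_add' := fun u v => by
        apply tendsto_nhds_unique (hL (u + v))
        refine ((hL u).add (hL v)).congr fun k => ?_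
        exact (map_add (T k) u v).symm
      map_smul' := fun c u => by
        apply tendsto_nhds_unique (hL (c • u))
        refine ((hL u).const_smul c).congr fun k => ?_
        exact (map_smul (T k) c u).symm }
  have hLlo : ∀ u, ‖u‖ ≤ 2 * ‖L u‖ := fun u =>
    ge_of_tendsto ((hL u).norm.const_mul 2) (Eventually.of_forall fun k => hTlo k u)
  have hinj : Function.Injective Ll := by
    intro u v huv
    have e1 : Ll (u - v) = 0 := by rw [map_sub, huv, sub_self]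
    have e2 : L (u - v) = 0 := e1
    have e3 := hLlo (u - v)
    rw [e2, norm_zero, mul_zero] at e3
    exact sub_eq_zero.1 (norm_le_zero_iff.1 e3)
  let TT : E (m + 1) ≃L[ℝ] E (m + 1) := (LinearEquiv.ofInjectiveEndo Ll hinj).toContinuousLinearEquiv
  have hTT : ∀ u, TT u = L u := fun u => rfl
  have hlim1 : ∀ u, Tendsto (fun k => h k (T k u)) (hyperfilter ℕ : Filter ℕ) (𝓝 (H (L u))) := by
    intro u
    have t1 : Tendsto (fun k => ‖T k u - L u‖) (hyperfilter ℕ : Filter ℕ) (𝓝 0) := by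
      have := ((hL u).sub_const (L u)).norm
      rwa [sub_self, norm_zero] at this
    have t2 : Tendsto (fun k => h k (T k u) - h k (L u)) (hyperfilter ℕ : Filter ℕ) (𝓝 0) := by
      refine squeeze_zero_norm (fun k => ?_) (by simpa using t1.const_mul 2)
      rw [Real.norm_eq_abs]
      exact (h1 k).lip _ _
    have t3 := t2.add (hH (L u))
    rw [zero_add] at t3
    refine t3.congr fun k => ?_
    ring
  have hat : (hyperfilter ℕ : Filter ℕ) ≤ atTop := by
    rw [← Nat.cofinite_eq_atTop]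
    exact hyperfilter_le_cofinite
  have t0 : Tendsto (fun k : ℕ => 1 / ((k : ℝ) + 1)) (hyperfilter ℕ : Filter ℕ) (𝓝 0) :=
    tendsto_one_div_add_atTop_nhds_zero_nat.mono_left hat
  have hlim2 : ∀ u, Tendsto (fun k => h k (T k u)) (hyperfilter ℕ : Filter ℕ) (𝓝 (G u)) := by
    intro u
    have t4 : Tendsto (fun k : ℕ => (1 + 1 / ((k : ℝ) + 1)) * g k u) (hyperfilter ℕ : Filter ℕ)
        (𝓝 (G u)) := by
      have := (t0.const_add 1).mul (hG u)
      rwa [add_zero, one_mul] at this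
    exact tendsto_of_tendsto_of_tendsto_of_le_of_le (hG u) t4 (fun k => (h6 k u).1)
      (fun k => (h6 k u).2)
  have hHG : ∀ u, H (TT u) = G u := fun u => by
    rw [hTT]
    exact tendsto_nhds_unique (hlim1 u) (hlim2 u)
  have hDF : DF H = r := by
    have := hLMD (m + 1) DF (hFDF (m + 1)) (hyperfilter ℕ : Filter ℕ) h H 1 2 one_pos
      (Eventually.of_forall h1) hH
    refine tendsto_nhds_unique this ?_
    refine tendsto_const_nhds.congr fun k => ?_
    exact (h3 k).symm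
  have h7 := hCOR m H G TT hm ⟨_, _, one_pos, hNH⟩ hRH ⟨_, _, one_pos, hNG⟩ hCG hHG
  linarith

end Pool.Agent.PBC
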