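import Pool.Agent.PBC.Targets

/-!
# PBC, target `T_FAM`: the two parameter family of norms
-/

open MeasureTheory Module Set Filter Topology
open scoped Pointwise

namespace Pool.Agent.PBC
open Pool.Agent.ProjBody Pool.Agent.PBX

namespace FAM_

variable {m : ℕ}

theorem tl_apply (u : E (m + 1)) (i : Fin m) : tl u i = u i.succ := rfl

theorem tl_add (u v : E (m + 1)) : tl (u + v) = tl u + tl v := by
  ext i
  rw [PiLp.add_apply, tl_apply, tl_apply, tl_apply, PiLp.add_apply]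

theorem tl_smul (c : ℝ) (u : E (m + 1)) : tl (c • u) = c • tl u := by
  ext i
  rw [PiLp.smul_apply, tl_apply, tl_apply, PiLp.smul_apply]

theorem l1_eq (u : E (m + 1)) : |u 0| + l1 (tl u) = l1 u := by
  unfold l1
  rw [Fin.sum_univ_succ]
  rfl

theorem norm_sq_eq (u : E (m + 1)) : ‖u‖ ^ 2 = |u 0| ^ 2 + ‖tl u‖ ^ 2 := by
  rw [EuclideanSpace.norm_sq_eq, EuclideanSpace.norm_sq_eq, Fin.sum_univ_succ]
  rfl

theorem norm_le_add (u : E (m + 1)) : ‖u‖ ≤ |u 0| + ‖tl u‖ := by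
  have h := norm_sq_eq u
  have h1 : 0 ≤ |u 0| := abs_nonneg _
  have h2 : 0 ≤ ‖tl u‖ := norm_nonneg _
  apply le_of_sq_le_sq _ (by positivity)
  nlinarith [mul_nonneg h1 h2]

end FAM_

open FAM_ in
theorem p_FAM : T_FAM := by
  intro m s t hs ht
  obtain ⟨hs0, hs1⟩ := hs
  obtain ⟨ht0, ht1⟩ := ht
  have hA : ∀ u : E (m + 1), ‖u‖ ≤ |u 0| + ((1 - t) * ‖tl u‖ + t * l1 (tl u)) := by
    intro u
    have h1 := norm_le_add u
    have h2 := norm_le_l1 (tl u)
    nlinarith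
  have hB : ∀ u : E (m + 1), |u 0| + ((1 - t) * ‖tl u‖ + t * l1 (tl u)) ≤
      Real.sqrt ((m + 1 : ℕ) : ℝ) * ‖u‖ := by
    intro u
    have h1 := l1_le u
    have h2 := norm_le_l1 (tl u)
    have h3 := l1_eq u
    nlinarith
  refine ⟨?_, ?_, ?_, ?_⟩
  · intro u v
    unfold fam
    have e1 := norm_add_le u v
    have e2 : |(u + v) 0| ≤ |u 0| + |v 0| := by
      rw [PiLp.add_apply]; exact abs_add_le _ _
    have e3 := norm_add_le (tl u) (tl v)
    have e4 := nm_l1.add (tl u) (tl v)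
    rw [tl_add]
    have f1 : (1 - s) * ‖u + v‖ ≤ (1 - s) * (‖u‖ + ‖v‖) :=
      mul_le_mul_of_nonneg_left e1 (by linarith)
    have f3 : (1 - t) * ‖tl u + tl v‖ ≤ (1 - t) * (‖tl u‖ + ‖tl v‖) :=
      mul_le_mul_of_nonneg_left e3 (by linarith)
    have f4 : t * l1 (tl u + tl v) ≤ t * (l1 (tl u) + l1 (tl v)) :=
      mul_le_mul_of_nonneg_left e4 ht0
    have f5 : s * (|(u + v) 0| + ((1 - t) * ‖tl u + tl v‖ + t * l1 (tl u + tl v))) ≤
        s * ((|u 0| + |v 0|) + ((1 - t) * (‖tl u‖ + ‖tl v‖) + t * (l1 (tl u) + l1 (tl v)))) :=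
      mul_le_mul_of_nonneg_left (by linarith) hs0
    calc _ ≤ (1 - s) * (‖u‖ + ‖v‖) +
        s * ((|u 0| + |v 0|) + ((1 - t) * (‖tl u‖ + ‖tl v‖) + t * (l1 (tl u) + l1 (tl v)))) :=
          add_le_add f1 f5
      _ = _ := by ring
  · intro c u
    unfold fam
    rw [tl_smul, norm_smul, norm_smul, nm_l1.smul, PiLp.smul_apply, smul_eq_mul, abs_mul,
      Real.norm_eq_abs]
    ring
  · intro u
    unfold fam
    have := hA u
    nlinarith
  · intro u
    unfold fam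
    have h1 := hA u
    have h2 := hB u
    nlinarith

end Pool.Agent.PBC
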