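import Pool.Agent.PBC.Targets

/-!
# PBC, target `T_FCL`: closeness estimate for the two parameter family
-/

open MeasureTheory Module Set Filter Topology
open scoped Pointwise

namespace Pool.Agent.PBC
open Pool.Agent.ProjBody Pool.Agent.PBX

namespace FCL_

variable {m : ℕ}

theorem l1_eq (u : E (m + 1)) : |u 0| + l1 (tl u) = l1 u := by
  unfold l1
  rw [Fin.sum_univ_succ]
  rfl

theorem norm_sq_eq (u : E (m + 1)) : ‖u‖ ^ 2 = |u 0| ^ 2 + ‖tl u‖ ^ 2 := by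
  rw [EuclideanSpace.norm_sq_eq, EuclideanSpace.norm_sq_eq, Fin.sum_univ_succ]
  rfl

theorem norm_le_add (u : E (m + 1)) : ‖u‖ ≤ |u 0| + ‖tl u‖ := by
  have h := norm_sq_eq u
  have h1 : 0 ≤ |u 0| := abs_nonneg _
  have h2 : 0 ≤ ‖tl u‖ := norm_nonneg _
  apply le_of_sq_le_sq _ (by positivity)
  nlinarith [mul_nonneg h1 h2]

/-- bounds for the second summand of the family -/
theorem bounds (t : ℝ) (ht : t ∈ Icc (0 : ℝ) 1) (u : E (m + 1)) :
    ‖u‖ ≤ |u 0| + ((1 - t) * ‖tl u‖ + t * l1 (tl u)) ∧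
    |u 0| + ((1 - t) * ‖tl u‖ + t * l1 (tl u)) ≤ Real.sqrt ((m + 1 : ℕ) : ℝ) * ‖u‖ := by
  obtain ⟨ht0, ht1⟩ := ht
  have h1 := norm_le_add u
  have h2 := norm_le_l1 (tl u)
  have h3 := l1_le u
  have h4 := l1_eq u
  constructor
  · nlinarith
  · nlinarith

end FCL_

open FCL_ in
theorem p_FCL : T_FCL := by
  intro m s t s' t' hs ht hs' ht' u
  obtain ⟨hA, hB⟩ := bounds (m := m) t ht u
  obtain ⟨hA', hB'⟩ := bounds (m := m) t' ht' u
  obtain ⟨hs0, hs1⟩ := hs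
  set R := Real.sqrt ((m + 1 : ℕ) : ℝ) with hR
  set N := ‖u‖ with hN
  have hN0 : 0 ≤ N := norm_nonneg _
  have hR0 : 0 ≤ R := Real.sqrt_nonneg _
  have hD1 : 0 ≤ l1 (tl u) - ‖tl u‖ := by
    have := norm_le_l1 (tl u)
    linarith
  have hD2 : l1 (tl u) - ‖tl u‖ ≤ R * N := by
    have h3 := l1_le u
    have h4 := l1_eq u
    have h5 : 0 ≤ |u 0| := abs_nonneg _
    have h6 : 0 ≤ ‖tl u‖ := norm_nonneg _
    linarith
  have hC1 : 0 ≤ |u 0| + ((1 - t') * ‖tl u‖ + t' * l1 (tl u)) - N := by linarith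
  have hC2 : |u 0| + ((1 - t') * ‖tl u‖ + t' * l1 (tl u)) - N ≤ R * N := by linarith
  have hfam : N ≤ fam s t u := by
    unfold fam
    nlinarith
  have heq : fam s' t' u - fam s t u =
      (s' - s) * (|u 0| + ((1 - t') * ‖tl u‖ + t' * l1 (tl u)) - N) +
      s * ((t' - t) * (l1 (tl u) - ‖tl u‖)) := by
    unfold fam
    ring
  have hRN : 0 ≤ R * N := mul_nonneg hR0 hN0
  have e1 : |(s' - s) * (|u 0| + ((1 - t') * ‖tl u‖ + t' * l1 (tl u)) - N)| ≤
      |s' - s| * (R * N) := by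
    rw [abs_mul, abs_of_nonneg hC1]
    exact mul_le_mul_of_nonneg_left hC2 (abs_nonneg _)
  have e2 : |s * ((t' - t) * (l1 (tl u) - ‖tl u‖))| ≤ |t' - t| * (R * N) := by
    rw [abs_mul, abs_mul, abs_of_nonneg hs0, abs_of_nonneg hD1]
    calc s * (|t' - t| * (l1 (tl u) - ‖tl u‖)) ≤ 1 * (|t' - t| * (R * N)) := by
          apply mul_le_mul hs1 _ _ zero_le_one
          · exact mul_le_mul_of_nonneg_left hD2 (abs_nonneg _)
          · exact mul_nonneg (abs_nonneg _) hD1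
      _ = _ := one_mul _
  rw [heq]
  calc _ ≤ |s' - s| * (R * N) + |t' - t| * (R * N) :=
        (abs_add_le _ _).trans (add_le_add e1 e2)
    _ = R * (|s' - s| + |t' - t|) * N := by ring
    _ ≤ R * (|s' - s| + |t' - t|) * fam s t u :=
        mul_le_mul_of_nonneg_left hfam (by positivity)

end Pool.Agent.PBC
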