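import Pool.Agent.PBC.Targets

/-!
# PBC: `DC`, the distance to the norms with the symmetries of the cube
-/

set_option autoImplicit false

open MeasureTheory Module Set
open scoped Pointwise
open Pool.Agent.ProjBody Pool.Agent.PBX

namespace Pool.Agent.PBC

namespace FDC_

variable {n : ℕ} {h h' : E n → ℝ}

theorem mono {s t : ℝ} (hs : NearC h s) (hst : s ≤ t) : NearC h t := by
  obtain ⟨T, g, hg, hc, hT⟩ := hs
  refine ⟨T, g, hg, hc, fun u => ⟨(hT u).1, (hT u).2.trans ?_⟩⟩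
  obtain ⟨a, b, ha, hN⟩ := hg
  have h0 : 0 ≤ g u := (mul_nonneg ha.le (norm_nonneg u)).trans (hN.lo u)
  exact mul_le_mul_of_nonneg_right hst h0

theorem pos_single [NeZero n] {g : E n → ℝ} (hg : IsN g) :
    0 < g (EuclideanSpace.single 0 1) := by
  obtain ⟨a, b, ha, hN⟩ := hg
  have h1 := hN.lo (EuclideanSpace.single 0 1)
  have he : ‖(EuclideanSpace.single 0 1 : E n)‖ = 1 := by simp
  rw [he, mul_one] at h1
  exact ha.trans_le h1

theorem one_le [NeZero n] {s : ℝ} (hs : NearC h s) : 1 ≤ s := by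
  obtain ⟨T, g, hg, hc, hT⟩ := hs
  have h0 := pos_single hg
  have h1 := (hT (EuclideanSpace.single 0 1)).1.trans (hT _).2
  by_contra hcon
  push Not at hcon
  have h2 := mul_lt_mul_of_pos_right hcon h0
  linarith

theorem bdd [NeZero n] (h : E n → ℝ) : BddBelow {s | NearC h s} :=
  ⟨1, fun _ hs => one_le hs⟩

theorem near [NeZero n] (hh : IsN h) : ∃ s, NearC h s := by
  obtain ⟨s, T, hT⟩ := hh.near
  exact ⟨s, T, fun u => ‖u‖, ⟨1, 1, one_pos, nm_norm⟩, fun g _ u => g.norm_map u, hT⟩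

theorem comp {s : ℝ} (S : E n ≃L[ℝ] E n) (hs : NearC h s) : NearC (fun u => h (S u)) s := by
  obtain ⟨T, g, hg, hc, hT⟩ := hs
  refine ⟨T.trans S.symm, g, hg, hc, fun u => ?_⟩
  have : S ((T.trans S.symm) u) = T u := by simp
  show g u ≤ h (S ((T.trans S.symm) u)) ∧ h (S ((T.trans S.symm) u)) ≤ s * g u
  rw [this]
  exact hT u

theorem DC_comp (S : E n ≃L[ℝ] E n) (h : E n → ℝ) : DC (fun u => h (S u)) = DC h := by
  unfold DC
  congr 1
  ext s
  constructor
  · intro hs
    have := comp S.symm (h := fun u => h (S u)) hs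
    simpa using this
  · exact comp S

theorem DC_le_mul [NeZero n] (hh : IsN h) {c C : ℝ} (hc : 0 < c)
    (h1 : ∀ u, c * h u ≤ h' u) (h2 : ∀ u, h' u ≤ C * h u) : DC h' ≤ C / c * DC h := by
  have hcC : 0 < C := by
    have h5 := pos_single hh
    have h4 := (h1 (EuclideanSpace.single 0 1)).trans (h2 _)
    have h6 : c ≤ C := le_of_mul_le_mul_right h4 h5
    linarith
  have key : ∀ s, NearC h s → DC h' ≤ C / c * s := by
    rintro s ⟨T, g, hg, hcg, hT⟩
    apply csInf_le (bdd h')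
    refine ⟨(scl c⁻¹ (inv_ne_zero hc.ne')).trans T, g, hg, hcg, fun u => ?_⟩
    obtain ⟨a, b, ha, hN⟩ := hh
    have h3 : ((scl c⁻¹ (inv_ne_zero hc.ne')).trans T) u = c⁻¹ • T u := by
      show T (c⁻¹ • u) = _
      rw [map_smul]
    rw [h3]
    constructor
    · calc g u ≤ h (T u) := (hT u).1
        _ = c * h (c⁻¹ • T u) := by
          rw [hN.smul, abs_of_pos (inv_pos.2 hc)]; field_simp
        _ ≤ h' (c⁻¹ • T u) := h1 _
    · calc h' (c⁻¹ • T u) ≤ C * h (c⁻¹ • T u) := h2 _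
        _ = C / c * h (T u) := by rw [hN.smul, abs_of_pos (inv_pos.2 hc)]; field_simp
        _ ≤ C / c * (s * g u) := by gcongr; exact (hT u).2
        _ = C / c * s * g u := by ring
  have h7 : DC h' / (C / c) ≤ DC h := by
    apply le_csInf (near hh)
    intro s hs
    rw [div_le_iff₀ (by positivity)]
    have := key s hs
    linarith
  rw [div_le_iff₀ (by positivity)] at h7
  linarith

theorem DC_eq_one [NeZero n] (hh : IsN h) (hc : CInv h) : DC h = 1 := by
  apply le_antisymm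
  · apply csInf_le (bdd h)
    refine ⟨ContinuousLinearEquiv.refl ℝ (E n), h, hh, hc, fun u => ?_⟩
    simp
  · exact le_csInf (near hh) fun _ hs => one_le hs

end FDC_

theorem p_FDC : T_FDC := by
  intro n _
  refine ⟨⟨fun _ hh => le_csInf (FDC_.near hh) fun _ hs => FDC_.one_le hs,
    fun h S => FDC_.DC_comp S h, fun _ _ _ _ hh hc h1 h2 => FDC_.DC_le_mul hh hc h1 h2⟩,
    fun _ hh hc => FDC_.DC_eq_one hh hc, fun h s hh hs => ?_⟩
  obtain ⟨t, ht, hts⟩ := exists_lt_of_csInf_lt (FDC_.near hh) hs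
  exact FDC_.mono ht hts.le

end Pool.Agent.PBC
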