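import Pool.Agent.PBC.Targets

/-!
# PBC: `DF` has the two properties of `Fnl`
-/

set_option autoImplicit false

open Pool.Agent.ProjBody Pool.Agent.PBX

namespace Pool.Agent.PBC

theorem p_FDF : T_FDF := by
  intro n _
  exact ⟨fun _ hh => one_le_DF hh, fun h S => DF_comp S h,
    fun _ _ _ _ hh hc h1 h2 => DF_le_mul hh hc h1 h2⟩

end Pool.Agent.PBC
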