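import Pool.Agent.PBC.P_FAM

/-!
# PBC, target `T_FSD`: the sides of the square
-/

open MeasureTheory Module Set Filter Topology
open scoped Pointwise

namespace Pool.Agent.PBC
open Pool.Agent.ProjBody Pool.Agent.PBX

namespace FSD_

theorem inner_single {n : ℕ} (i : Fin n) (u : E n) :
    (inner ℝ (EuclideanSpace.single i (1 : ℝ)) u : ℝ) = u i := by
  simp [EuclideanSpace.inner_single_left]

theorem coord_zero {m : ℕ} (g : E (m + 1) ≃ₗᵢ[ℝ] E (m + 1)) (hg : g (e0 m) = e0 m)
    (u : E (m + 1)) : (g u) 0 = u 0 := by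
  have h1 : (inner ℝ (e0 m) (g u) : ℝ) = inner ℝ (e0 m) u := by
    conv_lhs => rw [← hg]
    exact g.inner_map_map _ _
  have h2 := inner_single (0 : Fin (m + 1)) (g u)
  have h3 := inner_single (0 : Fin (m + 1)) u
  unfold e0 at h1
  rw [h2, h3] at h1
  exact h1

theorem norm_tl {m : ℕ} (g : E (m + 1) ≃ₗᵢ[ℝ] E (m + 1)) (hg : g (e0 m) = e0 m)
    (u : E (m + 1)) : ‖tl (g u)‖ = ‖tl u‖ := by
  have h1 := FAM_.norm_sq_eq (g u)
  have h2 := FAM_.norm_sq_eq u
  rw [coord_zero g hg, g.norm_map] at h1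
  have h3 : ‖tl (g u)‖ ^ 2 = ‖tl u‖ ^ 2 := by linarith
  exact (sq_eq_sq₀ (norm_nonneg _) (norm_nonneg _)).mp h3

theorem l1_inv {n : ℕ} (g : E n ≃ₗᵢ[ℝ] E n) (hg : CubeSym g) (u : E n) : l1 (g u) = l1 u := by
  choose σ hσ using hg
  have hab : ∀ i, |(g u) (σ i)| = |u i| := by
    intro i
    have h1 : (inner ℝ (g (EuclideanSpace.single i (1 : ℝ))) (g u) : ℝ) = u i := by
      rw [g.inner_map_map, inner_single]
    rcases hσ i with h | h
    · rw [h, inner_single] at h1
      rw [h1]
    · rw [h, inner_neg_left, inner_single] at h1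
      rw [← h1, abs_neg]
  have hinj : Function.Injective σ := by
    intro i j hij
    by_contra hne
    have h1 : (inner ℝ (g (EuclideanSpace.single i (1 : ℝ)))
        (g (EuclideanSpace.single j (1 : ℝ))) : ℝ) = 0 := by
      rw [g.inner_map_map, inner_single]
      simp [hne]
    have h2 : (inner ℝ (EuclideanSpace.single (σ j) (1 : ℝ) : E n)
        (EuclideanSpace.single (σ j) (1 : ℝ)) : ℝ) = 1 := by
      rw [inner_single]
      simp
    rcases hσ i with h | h <;> rcases hσ j with h' | h' <;> rw [h, h', hij] at h1 <;>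
      (try simp only [inner_neg_left, inner_neg_right, neg_neg] at h1) <;> rw [h2] at h1 <;>
      norm_num at h1
  have hbij : Function.Bijective σ := Finite.injective_iff_bijective.mp hinj
  unfold l1
  rw [← Function.Bijective.sum_comp hbij (fun k => |(g u) k|)]
  exact Finset.sum_congr rfl fun i _ => hab i

end FSD_

open FSD_ in
theorem p_FSD : T_FSD := by
  intro m
  refine ⟨?_, ?_, ?_, ?_⟩
  · intro t u
    unfold fam
    ring
  · intro s g hg u
    unfold fam
    rw [coord_zero g hg, norm_tl g hg, g.norm_map]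
    ring
  · intro s g hg u
    have h1 := FAM_.l1_eq (g u)
    have h2 := FAM_.l1_eq u
    rw [l1_inv g hg] at h1
    unfold fam
    rw [g.norm_map]
    have h3 : |(g u) 0| + ((1 - 1) * ‖tl (g u)‖ + 1 * l1 (tl (g u))) =
        |u 0| + ((1 - 1) * ‖tl u‖ + 1 * l1 (tl u)) := by linarith
    rw [h3]
  · intro t u hu u' hu'
    obtain ⟨c, rfl⟩ := Submodule.mem_span_singleton.mp hu
    have h0 : u' 0 = 0 := by
      have h1 := Submodule.mem_orthogonal_singleton_iff_inner_right.mp hu'
      unfold e0 at h1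
      rwa [inner_single] at h1
    have h1 : tl (c • e0 m) = 0 := by
      ext i
      rw [FAM_.tl_apply]
      simp [e0, Fin.succ_ne_zero]
    have h2 : (c • e0 m) 0 = c := by
      simp [e0]
    have h3 : l1 (0 : E m) = 0 := by
      simp [l1]
    unfold fam
    rw [FAM_.tl_add, h1, zero_add, PiLp.add_apply, h2, h0, h3, norm_zero, abs_zero, add_zero]
    ring

end Pool.Agent.PBC
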