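import Pool.Agent.PBC.Targets
import Pool.Agent.PBX.P_BBB
import Pool.Agent.PBX.P_TNT
import Pool.Agent.PBX.P_TSW
import Pool.Agent.PBX.P_LAY
import Pool.Agent.PBX.P_SDF
import Pool.Agent.PBX.P_SDL
import Pool.Agent.PBX.P_RAD

/-!
# PBC, target GEN: a generating measure of the cylinder-cube norms
-/

set_option autoImplicit false

open MeasureTheory Module Set Filter Topology
open scoped Pointwise

namespace Pool.Agent.PBC
open Pool.Agent.ProjBody Pool.Agent.PBX

namespace GEN_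

variable {n : ℕ}

theorem bbb : T_BBB := p_BBB p_TNT (p_TSW p_LAY p_SDF (p_SDL p_SDF) p_RAD p_TNT)

theorem gen_zero : Gen (0 : Measure (E n)) (fun _ => 0) :=
  ⟨inferInstance, ⟨0, by simp⟩, fun u => by simp⟩

theorem gen_dirac (w : E n) : Gen (Measure.dirac w) (fun u => |(inner ℝ u w : ℝ)|) := by
  refine ⟨inferInstance, ⟨‖w‖, ?_⟩, fun u => ?_⟩
  · rw [Measure.dirac_apply' _ measurableSet_closedBall.compl]
    simp
  · rw [integral_dirac]

theorem int_abs {ρ : Measure (E n)} {h : E n → ℝ} (hG : Gen ρ h) (u : E n) :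
    Integrable (fun w => |(inner ℝ u w : ℝ)|) ρ := by
  have hfin := hG.fin
  obtain ⟨R, hR⟩ := hG.cpt
  have hb : ∀ᵐ w ∂ρ, ‖(|(inner ℝ u w : ℝ)|)‖ ≤ ‖u‖ * R := by
    have h1 : ∀ᵐ w ∂ρ, w ∈ Metric.closedBall (0 : E n) R := by
      rw [ae_iff]
      exact hR
    filter_upwards [h1] with w hw
    rw [Real.norm_eq_abs, abs_abs]
    rw [mem_closedBall_zero_iff] at hw
    exact (abs_real_inner_le_norm u w).trans
      (mul_le_mul_of_nonneg_left hw (norm_nonneg u))
  refine Integrable.of_bound ?_ _ hb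
  apply Continuous.aestronglyMeasurable
  fun_prop

theorem gen_add {ρ ρ' : Measure (E n)} {h h' : E n → ℝ} (hG : Gen ρ h) (hG' : Gen ρ' h') :
    Gen (ρ + ρ') (fun u => h u + h' u) := by
  have i1 := hG.fin
  have i2 := hG'.fin
  obtain ⟨R, hR⟩ := hG.cpt
  obtain ⟨R', hR'⟩ := hG'.cpt
  refine ⟨inferInstance, ⟨max R R', ?_⟩, fun u => ?_⟩
  · have h1 : (Metric.closedBall (0 : E n) (max R R'))ᶜ ⊆ (Metric.closedBall 0 R)ᶜ :=
      Set.compl_subset_compl.2 (Metric.closedBall_subset_closedBall (le_max_left _ _))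
    have h2 : (Metric.closedBall (0 : E n) (max R R'))ᶜ ⊆ (Metric.closedBall 0 R')ᶜ :=
      Set.compl_subset_compl.2 (Metric.closedBall_subset_closedBall (le_max_right _ _))
    rw [Measure.add_apply, measure_mono_null h1 hR, measure_mono_null h2 hR', add_zero]
  · show h u + h' u = _
    rw [hG.eq, hG'.eq, integral_add_measure (int_abs hG u) (int_abs hG' u)]

theorem gen_smul {ρ : Measure (E n)} {h : E n → ℝ} (hG : Gen ρ h) {c : ℝ} (hc : 0 ≤ c) :
    Gen (ENNReal.ofReal c • ρ) (fun u => c * h u) := by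
  obtain ⟨hfin, ⟨R, hR⟩, heq⟩ := hG
  refine ⟨Measure.smul_finite ρ ENNReal.ofReal_ne_top, ⟨R, ?_⟩, ?_⟩
  · rw [Measure.smul_apply, hR, smul_zero]
  · intro u
    rw [integral_smul_measure, ENNReal.toReal_ofReal hc, smul_eq_mul, ← heq u]

theorem gen_sum {ι : Type} [DecidableEq ι] (s : Finset ι) (f : ι → E n → ℝ)
    (hf : ∀ i, ∃ ρ, Gen ρ (f i)) : ∃ ρ, Gen ρ (fun u => ∑ i ∈ s, f i u) := by
  induction s using Finset.induction_on with
  | empty => exact ⟨0, by simpa using gen_zero⟩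
  | insert i s hi ih =>
    obtain ⟨ρ, hρ⟩ := ih
    obtain ⟨ρ', hρ'⟩ := hf i
    refine ⟨ρ' + ρ, ?_⟩
    have h1 := gen_add hρ' hρ
    have h2 : (fun u => ∑ j ∈ insert i s, f j u) = fun u => f i u + ∑ j ∈ s, f j u := by
      funext u
      rw [Finset.sum_insert hi]
    rw [h2]
    exact h1

/-- the embedding on the last coordinates -/
noncomputable def emb {m : ℕ} (w : E m) : E (m + 1) :=
  WithLp.toLp 2 (Fin.cons 0 fun i => w i)

theorem inner_emb {m : ℕ} (u : E (m + 1)) (w : E m) :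
    (inner ℝ u (emb w) : ℝ) = inner ℝ (tl u) w := by
  rw [PiLp.inner_apply, PiLp.inner_apply, Fin.sum_univ_succ]
  simp [emb, tl]

theorem norm_emb {m : ℕ} (w : E m) : ‖emb w‖ = ‖w‖ := by
  rw [EuclideanSpace.norm_eq, EuclideanSpace.norm_eq, Fin.sum_univ_succ]
  simp [emb]

theorem continuous_emb {m : ℕ} : Continuous (emb : E m → E (m + 1)) := by
  unfold emb
  apply (PiLp.continuous_toLp 2 _).comp
  refine continuous_pi fun i => ?_
  refine Fin.cases ?_ (fun j => ?_) i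
  · simp only [Fin.cons_zero]
    exact continuous_const
  · simp only [Fin.cons_succ]
    fun_prop

theorem gen_emb {m : ℕ} {ρ : Measure (E m)} {h : E m → ℝ} (hG : Gen ρ h) :
    Gen (ρ.map emb) (fun u : E (m + 1) => h (tl u)) := by
  have i1 := hG.fin
  refine ⟨Measure.isFiniteMeasure_map ρ emb, ?_, fun u => ?_⟩
  · obtain ⟨R, hR⟩ := hG.cpt
    refine ⟨R, ?_⟩
    rw [Measure.map_apply continuous_emb.measurable measurableSet_closedBall.compl]
    refine measure_mono_null (fun w hw => ?_) hR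
    intro hw'
    apply hw
    rw [mem_closedBall_zero_iff] at hw' ⊢
    rw [norm_emb]
    exact hw'
  · show h (tl u) = _
    rw [hG.eq, integral_map continuous_emb.measurable.aemeasurable
      (by
        apply Continuous.aestronglyMeasurable
        fun_prop)]
    simp_rw [inner_emb]

theorem gen_norm (m : ℕ) [NeZero m] : ∃ ρ, Gen ρ (fun u : E m => ‖u‖) := by
  obtain ⟨ρ, hρ⟩ := bbb m (fun u : E m => ‖u‖) ⟨1, 1, one_pos, nm_norm⟩
  have hk := kap_pos m
  refine ⟨ENNReal.ofReal (kap m)⁻¹ • ρ, ?_⟩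
  have h1 := gen_smul hρ (inv_nonneg.2 hk.le)
  have h2 : (fun u : E m => (kap m)⁻¹ * P (fun u : E m => ‖u‖) u) = fun u => ‖u‖ := by
    funext u
    rw [P_norm, ← mul_assoc, inv_mul_cancel₀ hk.ne', one_mul]
  rw [h2] at h1
  exact h1

theorem gen_coord (i : Fin n) : ∃ ρ, Gen ρ (fun u : E n => |u i|) := by
  refine ⟨Measure.dirac (EuclideanSpace.single i 1), ?_⟩
  have h1 := gen_dirac (EuclideanSpace.single i (1 : ℝ))
  have h2 : (fun u : E n => |(inner ℝ u (EuclideanSpace.single i (1 : ℝ)) : ℝ)|) =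
      fun u => |u i| := by
    funext u
    rw [EuclideanSpace.inner_single_right]
    simp
  rw [h2] at h1
  exact h1

end GEN_

open GEN_ in
theorem p_GEN : T_GEN := by
  intro m t hm ht
  have : NeZero m := ⟨by omega⟩
  obtain ⟨ρ0, h0⟩ := gen_coord (0 : Fin (m + 1))
  obtain ⟨ρ1, h1⟩ := gen_norm m
  obtain ⟨ρ2, h2⟩ := gen_sum (Finset.univ : Finset (Fin m))
    (fun i (u : E (m + 1)) => |u i.succ|) (fun i => gen_coord i.succ)
  have h3 := gen_add h0 (gen_add (gen_smul (gen_emb h1) (sub_nonneg.2 ht.2)) (gen_smul h2 ht.1))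
  refine ⟨ρ0 + (ENNReal.ofReal (1 - t) • ρ1.map emb + ENNReal.ofReal t • ρ2), ?_⟩
  have h4 : (fam 1 t : E (m + 1) → ℝ) = fun u : E (m + 1) =>
      |u 0| + ((1 - t) * ‖tl u‖ + t * ∑ i : Fin m, |u i.succ|) := by
    funext u
    unfold fam l1
    rw [sub_self, zero_mul, zero_add, one_mul]
    rfl
  rw [h4]
  exact h3

end Pool.Agent.PBC
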