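import Pool.Agent.PBC.Targets

/-!
# PBC, GEO: a norm with two different axes of rotation is Euclidean
-/

open MeasureTheory Module Set Filter Topology
open scoped Pointwise RealInnerProductSpace

namespace Pool.Agent.PBC
open Pool.Agent.ProjBody Pool.Agent.PBX

namespace GEO_

variable {n : ℕ}

/-- Unit vectors with the same height over `v`. -/
lemma eq_of_height {h : E n → ℝ} {v : E n} (hv : RInv v h) {u u' : E n} (hu : ‖u‖ = 1)
    (hu' : ‖u'‖ = 1) (he : ⟪u, v⟫ = ⟪u', v⟫) : h u = h u' := by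
  have h1 : (ℝ ∙ (u - u'))ᗮ.reflection u = u' := Submodule.reflection_sub (hu.trans hu'.symm)
  have h2 : (ℝ ∙ (u - u'))ᗮ.reflection v = v := by
    apply Submodule.reflection_mem_subspace_eq_self
    rw [Submodule.mem_orthogonal_singleton_iff_inner_right, inner_sub_left, he, sub_self]
  have h3 := hv _ h2 u
  rw [h1] at h3
  exact h3.symm

/-- A unit vector orthogonal to two vectors. -/
lemma ex_orth (hn : 3 ≤ n) (v w : E n) : ∃ z : E n, ‖z‖ = 1 ∧ ⟪z, v⟫ = 0 ∧ ⟪z, w⟫ = 0 := by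
  have h1 : Module.finrank ℝ (Submodule.span ℝ {v, w} : Submodule ℝ (E n)) ≤ 2 := by
    have := finrank_span_le_card (R := ℝ) ({v, w} : Set (E n))
    refine this.trans ?_
    rw [Set.toFinset_insert, Set.toFinset_singleton]
    exact Finset.card_le_two
  have h2 := Submodule.finrank_add_finrank_orthogonal (Submodule.span ℝ {v, w} : Submodule ℝ (E n))
  rw [finrank_euclideanSpace_fin] at h2
  have h3 : (Submodule.span ℝ {v, w} : Submodule ℝ (E n))ᗮ ≠ ⊥ := by
    intro h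
    rw [h, finrank_bot] at h2
    omega
  obtain ⟨z, hz, hz0⟩ := Submodule.exists_mem_ne_zero_of_ne_bot h3
  have hzn : ‖z‖ ≠ 0 := norm_ne_zero_iff.2 hz0
  rw [Submodule.mem_orthogonal] at hz
  refine ⟨‖z‖⁻¹ • z, ?_, ?_, ?_⟩
  · rw [norm_smul, norm_inv, norm_norm, inv_mul_cancel₀ hzn]
  · rw [real_inner_smul_left, real_inner_comm,
      hz v (Submodule.subset_span (Set.mem_insert _ _)), mul_zero]
  · rw [real_inner_smul_left, real_inner_comm,
      hz w (Submodule.subset_span (Set.mem_insert_of_mem _ rfl)), mul_zero]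

lemma norm_one_of_inner {u : E n} (h : ⟪u, u⟫ = 1) : ‖u‖ = 1 := by
  rw [real_inner_self_eq_norm_sq] at h
  have := norm_nonneg u
  nlinarith

/-- The profile. -/
noncomputable def φ (h : E n → ℝ) (v z : E n) (t : ℝ) : ℝ := h (t • v + √(1 - t ^ 2) • z)

lemma h_eq {h : E n → ℝ} {v z : E n} (hv : RInv v h) (hv1 : ‖v‖ = 1) (hz1 : ‖z‖ = 1)
    (hzv : ⟪z, v⟫ = 0) {u : E n} (hu : ‖u‖ = 1) : h u = φ h v z ⟪u, v⟫ := by
  have vv : ⟪v, v⟫ = 1 := by rw [real_inner_self_eq_norm_sq, hv1, one_pow]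
  have zz : ⟪z, z⟫ = 1 := by rw [real_inner_self_eq_norm_sq, hz1, one_pow]
  have hvz : ⟪v, z⟫ = 0 := by rw [real_inner_comm, hzv]
  have hle : ⟪u, v⟫ ^ 2 ≤ 1 := by
    have := abs_real_inner_le_norm u v
    rw [hu, hv1, mul_one] at this
    rw [← sq_abs]
    nlinarith [abs_nonneg ⟪u, v⟫]
  have hs : √(1 - ⟪u, v⟫ ^ 2) ^ 2 = 1 - ⟪u, v⟫ ^ 2 := Real.sq_sqrt (by linarith)
  refine eq_of_height hv hu ?_ ?_
  · apply norm_one_of_inner
    simp only [inner_add_left, inner_add_right, real_inner_smul_left, real_inner_smul_right,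
      vv, zz, hvz, hzv]
    linear_combination hs
  · simp only [inner_add_left, real_inner_smul_left, vv, hzv]
    ring

/-- The step. -/
lemma step {h : E n → ℝ} {v w z : E n} (hv : RInv v h) (hw : RInv w h) (hv1 : ‖v‖ = 1)
    (hw1 : ‖w‖ = 1) (hz1 : ‖z‖ = 1) (hzv : ⟪z, v⟫ = 0) (hzw : ⟪z, w⟫ = 0) {t ρ κ : ℝ}
    (ht : t ^ 2 + ρ ^ 2 * (1 - ⟪v, w⟫ ^ 2) = 1) (hκ : κ ^ 2 ≤ 1) :
    φ h v z ((t * ⟪v, w⟫ + ρ * (1 - ⟪v, w⟫ ^ 2)) * ⟪v, w⟫ +
      κ * (t - (t * ⟪v, w⟫ + ρ * (1 - ⟪v, w⟫ ^ 2)) * ⟪v, w⟫)) = φ h v z t := by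
  have vv : ⟪v, v⟫ = 1 := by rw [real_inner_self_eq_norm_sq, hv1, one_pow]
  have ww : ⟪w, w⟫ = 1 := by rw [real_inner_self_eq_norm_sq, hw1, one_pow]
  have zz : ⟪z, z⟫ = 1 := by rw [real_inner_self_eq_norm_sq, hz1, one_pow]
  have hvz : ⟪v, z⟫ = 0 := by rw [real_inner_comm, hzv]
  have hwz : ⟪w, z⟫ = 0 := by rw [real_inner_comm, hzw]
  have hwv : ⟪w, v⟫ = ⟪v, w⟫ := real_inner_comm _ _
  set c : ℝ := ⟪v, w⟫ with hc
  set s : ℝ := t * c + ρ * (1 - c ^ 2) with hs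
  set u : E n := t • v + ρ • (w - c • v) with hu
  have uu : ⟪u, u⟫ = 1 := by
    simp only [hu, inner_add_left, inner_add_right, real_inner_smul_left, real_inner_smul_right,
      inner_sub_left, inner_sub_right, vv, ww, hwv, ← hc]
    linear_combination ht
  have uv : ⟪u, v⟫ = t := by
    simp only [hu, inner_add_left, real_inner_smul_left, inner_sub_left, vv, hwv]
    ring
  have uw : ⟪u, w⟫ = s := by
    simp only [hu, hs, inner_add_left, real_inner_smul_left, inner_sub_left, ww, ← hc]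
    ring
  have uz : ⟪u, z⟫ = 0 := by
    simp only [hu, inner_add_left, real_inner_smul_left, inner_sub_left, hwz, hvz]
    ring
  have hu1 := norm_one_of_inner uu
  have hs1 : s ^ 2 ≤ 1 := by
    have := abs_real_inner_le_norm u w
    rw [hu1, hw1, mul_one, uw] at this
    rw [← sq_abs]
    nlinarith [abs_nonneg s]
  have hq : √((1 - κ ^ 2) * (1 - s ^ 2)) ^ 2 = (1 - κ ^ 2) * (1 - s ^ 2) :=
    Real.sq_sqrt (mul_nonneg (by linarith) (by linarith))
  set q : ℝ := √((1 - κ ^ 2) * (1 - s ^ 2))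
  set x : E n := s • w + κ • (u - s • w) + q • z with hx
  have wu : ⟪w, u⟫ = s := by rw [real_inner_comm, uw]
  have zu : ⟪z, u⟫ = 0 := by rw [real_inner_comm, uz]
  have xx : ⟪x, x⟫ = 1 := by
    simp only [hx, inner_add_left, inner_add_right, real_inner_smul_left, real_inner_smul_right,
      inner_sub_left, inner_sub_right, ww, zz, hwz, hzw, wu, uw, uu, zu, uz]
    linear_combination hq
  have xw : ⟪x, w⟫ = s := by
    simp only [hx, inner_add_left, real_inner_smul_left, inner_sub_left, ww, uw, hzw]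
    ring
  have xv : ⟪x, v⟫ = s * c + κ * (t - s * c) := by
    simp only [hx, inner_add_left, real_inner_smul_left, inner_sub_left, hwv, uv, hzv]
    ring
  have hx1 := norm_one_of_inner xx
  rw [← xv, ← h_eq hv hv1 hz1 hzv hx1]
  conv_rhs => rw [← uv, ← h_eq hv hv1 hz1 hzv hu1]
  exact eq_of_height hw hx1 hu1 (by rw [xw, uw])

end GEO_

open GEO_ in
/-- GEO. -/
theorem p_GEO : T_GEO := by
  intro n h v w hn hN hv1 hw1 hwv hwv' hv hw
  obtain ⟨z, hz1, hzv, hzw⟩ := ex_orth hn v w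
  obtain ⟨a, b, ha, hh⟩ := hN
  have hc1 : ⟪v, w⟫ ^ 2 < 1 := by
    have h1 := abs_real_inner_le_norm v w
    rw [hv1, hw1, mul_one] at h1
    have h2 : ⟪v, w⟫ ≠ 1 := fun h => hwv ((inner_eq_one_iff_of_norm_eq_one hv1 hw1).1 h).symm
    have h3 : ⟪v, w⟫ ≠ -1 := fun h => by
      have h4 : ⟪-v, w⟫ = 1 := by rw [inner_neg_left, h, neg_neg]
      exact hwv' ((inner_eq_one_iff_of_norm_eq_one (by rw [norm_neg, hv1]) hw1).1 h4).symm
    rw [abs_le] at h1
    have h4 : ⟪v, w⟫ < 1 := lt_of_le_of_ne h1.2 h2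
    have h5 : -1 < ⟪v, w⟫ := lt_of_le_of_ne h1.1 (Ne.symm h3)
    nlinarith
  have hst := fun (t ρ κ : ℝ) => step hv hw hv1 hw1 hz1 hzv hzw (t := t) (ρ := ρ) (κ := κ)
  set c : ℝ := ⟪v, w⟫ with hc
  have hρ : ∀ r : ℝ, 0 ≤ r → ∃ ρ : ℝ, ρ ^ 2 * (1 - c ^ 2) = r ∧ ρ * c ≤ 0 := by
    intro r hr
    have hd2 : √(r / (1 - c ^ 2)) ^ 2 = r / (1 - c ^ 2) :=
      Real.sq_sqrt (div_nonneg hr (by linarith))
    have h1 : (1 - c ^ 2) ≠ 0 := by linarith
    rcases le_total 0 c with h | h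
    · refine ⟨-√(r / (1 - c ^ 2)), ?_, ?_⟩
      · rw [neg_sq, hd2, div_mul_cancel₀ _ h1]
      · nlinarith [Real.sqrt_nonneg (r / (1 - c ^ 2))]
    · refine ⟨√(r / (1 - c ^ 2)), ?_, ?_⟩
      · rw [hd2, div_mul_cancel₀ _ h1]
      · nlinarith [Real.sqrt_nonneg (r / (1 - c ^ 2))]
  have hbig : ∀ t y : ℝ, 0 ≤ t → t ≤ 1 → (2 * c ^ 2 - 1) * t ≤ y → y ≤ t →
      φ h v z y = φ h v z t := by
    intro t y ht0 ht1 hy1 hy2
    obtain ⟨ρ, hρ1, hρ2⟩ := hρ (1 - t ^ 2) (by nlinarith)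
    obtain ⟨s, hs⟩ : ∃ s : ℝ, s = (t * c + ρ * (1 - c ^ 2)) * c := ⟨_, rfl⟩
    have hρ3 : ρ * c * (1 - c ^ 2) ≤ 0 := mul_nonpos_of_nonpos_of_nonneg hρ2 (by linarith)
    have hs1 : s = t * c ^ 2 + ρ * c * (1 - c ^ 2) := by rw [hs]; ring
    have hD : 0 ≤ t - s := by nlinarith
    rcases hD.eq_or_lt with hD | hD
    · have h1 : t * (1 - c ^ 2) = 0 := by
        have : 0 ≤ t * (1 - c ^ 2) := mul_nonneg ht0 (by linarith)
        nlinarith
      have h2 : t = 0 := by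
        rcases mul_eq_zero.1 h1 with h | h
        · exact h
        · linarith
      have h3 : y = 0 := by
        rw [h2] at hy1 hy2
        linarith
      rw [h2, h3]
    · have h1 := hst t ρ ((y - s) / (t - s)) (by linarith) (by
        have h2 : (y - s) / (t - s) ≤ 1 := by
          rw [div_le_one hD]
          linarith
        have h3 : -1 ≤ (y - s) / (t - s) := by
          rw [le_div_iff₀ hD]
          nlinarith
        nlinarith)
      rw [← hs, div_mul_cancel₀ _ hD.ne', add_sub_cancel] at h1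
      exact h1
  have hpow : ∀ j : ℕ, ∀ y : ℝ, (max (2 * c ^ 2 - 1) (1 / 2)) ^ j ≤ y → y ≤ 1 →
      φ h v z y = φ h v z 1 := by
    have m0 : 0 < max (2 * c ^ 2 - 1) (1 / 2) := lt_max_of_lt_right (by norm_num)
    have m1 : max (2 * c ^ 2 - 1) (1 / 2) ≤ 1 := max_le (by linarith) (by norm_num)
    intro j
    induction j with
    | zero =>
      intro y hy1 hy2
      rw [pow_zero] at hy1
      rw [le_antisymm hy2 hy1]
    | succ j ih =>
      intro y hy1 hy2
      rcases le_total ((max (2 * c ^ 2 - 1) (1 / 2)) ^ j) y with hy | hy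
      · exact ih y hy hy2
      · have h1 : (max (2 * c ^ 2 - 1) (1 / 2)) ^ j ≤ 1 := pow_le_one₀ m0.le m1
        rw [hbig _ y (pow_pos m0 j).le h1 ?_ hy]
        · exact ih _ le_rfl h1
        · refine le_trans ?_ hy1
          exact (mul_le_mul_of_nonneg_right (le_max_left _ _) (pow_pos m0 j).le).trans_eq
            (pow_succ' _ _).symm
  have hpos : ∀ y : ℝ, 0 < y → y ≤ 1 → φ h v z y = φ h v z 1 := by
    intro y hy0 hy1
    obtain ⟨j, hj⟩ := exists_pow_lt_of_lt_one hy0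
      (max_lt (by linarith) (by norm_num) : max (2 * c ^ 2 - 1) (1 / 2) < 1)
    exact hpow j y hj.le hy1
  have hzero : φ h v z 0 = φ h v z 1 := by
    by_cases hc0 : c = 0
    · have h1 := hst 1 0 0 (by norm_num) (by norm_num)
      rw [hc0] at h1
      norm_num at h1
      exact h1
    · obtain ⟨ρ, hρ1, hρ2⟩ := hρ 1 zero_le_one
      have h1 := hst 0 (-ρ) 0 (by nlinarith) (by norm_num)
      have hρ0 : ρ ≠ 0 := by
        rintro rfl
        norm_num at hρ1
      have h2 : ρ * c < 0 := lt_of_le_of_ne hρ2 (mul_ne_zero hρ0 hc0)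
      have h3 : (0 * c + -ρ * (1 - c ^ 2)) * c + 0 * (0 - (0 * c + -ρ * (1 - c ^ 2)) * c) =
          -(ρ * c) * (1 - c ^ 2) := by ring
      rw [h3] at h1
      rw [← h1]
      apply hpos
      · exact mul_pos (by linarith) (by linarith)
      · have h4 : (-(ρ * c) * (1 - c ^ 2)) ^ 2 ≤ 1 := by
          have h5 : (-(ρ * c) * (1 - c ^ 2)) ^ 2 = c ^ 2 * (1 - c ^ 2) := by
            calc (-(ρ * c) * (1 - c ^ 2)) ^ 2 = c ^ 2 * (1 - c ^ 2) * (ρ ^ 2 * (1 - c ^ 2)) := by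
                  ring
              _ = c ^ 2 * (1 - c ^ 2) := by rw [hρ1, mul_one]
          rw [h5]
          nlinarith [sq_nonneg c]
        nlinarith
  have hall : ∀ u : E n, ‖u‖ = 1 → h u = φ h v z 1 := by
    have key : ∀ u : E n, ‖u‖ = 1 → 0 ≤ ⟪u, v⟫ → h u = φ h v z 1 := by
      intro u hu hu0
      rw [h_eq hv hv1 hz1 hzv hu]
      have h1 := real_inner_le_norm u v
      rw [hu, hv1, mul_one] at h1
      rcases hu0.eq_or_lt with h2 | h2
      · rw [← h2, hzero]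
      · exact hpos _ h2 h1
    intro u hu
    rcases le_total 0 ⟪u, v⟫ with h1 | h1
    · exact key u hu h1
    · have h2 := key (-u) (by rw [norm_neg, hu]) (by rw [inner_neg_left]; linarith)
      have h3 := hh.smul (-1) u
      rw [neg_one_smul, abs_neg, abs_one, one_mul] at h3
      rw [← h3, h2]
  refine ⟨φ h v z 1, fun u => ?_⟩
  by_cases hu : u = 0
  · rw [hu, hh.zero, norm_zero, mul_zero]
  · have hun : ‖u‖ ≠ 0 := norm_ne_zero_iff.2 hu
    have h1 := hall (‖u‖⁻¹ • u) (by rw [norm_smul, norm_inv, norm_norm, inv_mul_cancel₀ hun])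
    rw [hh.smul, abs_of_nonneg (by positivity)] at h1
    rw [← h1]
    field_simp

end Pool.Agent.PBC
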