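import Pool.Agent.PBC.Targets

/-!
# PBC: the inertia form is a positive definite quadratic form
-/

set_option autoImplicit false

open MeasureTheory Module Set Filter Topology

namespace Pool.Agent.PBC
open Pool.Agent.ProjBody Pool.Agent.PBX

namespace INB_

theorem integ {n : ℕ} {K : Set (E n)} (hK : IsCompact K) (u v : E n) :
    IntegrableOn (fun x : E n => (inner ℝ x u : ℝ) * inner ℝ x v) K :=
  (by fun_prop : Continuous fun x : E n => (inner ℝ x u : ℝ) * inner ℝ x v).continuousOn
    |>.integrableOn_compact hK

end INB_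

open INB_ in
theorem p_INB : T_INB := by
  intro n _ h hh
  obtain ⟨a, b, ha, hn⟩ := hh
  have hK : IsCompact (Bd h) := Bd_compact ha hn
  refine ⟨LinearMap.mk₂ ℝ (fun u v => ∫ x in Bd h, (inner ℝ x u : ℝ) * inner ℝ x v)
    ?_ ?_ ?_ ?_, ?_, ?_, ?_⟩
  · intro u u' v
    rw [← integral_add (integ hK u v) (integ hK u' v)]
    congr 1
    funext x
    rw [inner_add_right]
    ring
  · intro c u v
    rw [smul_eq_mul, ← integral_const_mul]
    congr 1
    funext x
    rw [inner_smul_right]
    ring
  · intro u v v'
    rw [← integral_add (integ hK u v) (integ hK u v')]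
    congr 1
    funext x
    rw [inner_add_right]
    ring
  · intro c u v
    rw [smul_eq_mul, ← integral_const_mul]
    congr 1
    funext x
    rw [inner_smul_right]
    ring
  · intro u v
    rw [LinearMap.mk₂_apply, LinearMap.mk₂_apply]
    congr 1
    funext x
    ring
  · intro u
    rw [LinearMap.mk₂_apply]
    unfold inr
    congr 1
    funext x
    ring
  · intro u hu
    rw [LinearMap.mk₂_apply]
    rw [setIntegral_pos_iff_support_of_nonneg_ae
      (Eventually.of_forall fun x => mul_self_nonneg _) (integ hK u u)]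
    have hO : IsOpen ({x : E n | (inner ℝ x u : ℝ) ≠ 0} ∩ Metric.ball 0 a) :=
      (isOpen_ne_fun (by fun_prop) continuous_const).inter Metric.isOpen_ball
    have hne : ({x : E n | (inner ℝ x u : ℝ) ≠ 0} ∩ Metric.ball 0 a).Nonempty := by
      have hu0 : 0 < ‖u‖ := norm_pos_iff.2 hu
      refine ⟨(a / 2 / ‖u‖) • u, ?_, ?_⟩
      · rw [mem_ofPred_eq, real_inner_smul_left, real_inner_self_eq_norm_sq]
        positivity
      · rw [mem_ball_zero_iff, norm_smul, Real.norm_eq_abs, abs_of_pos (by positivity),
          div_mul_cancel₀ _ hu0.ne']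
        linarith
    refine (hO.measure_pos volume hne).trans_le (measure_mono ?_)
    rintro x ⟨hx1, hx2⟩
    refine ⟨?_, ball_subset_Bd hn.lo (Metric.ball_subset_closedBall hx2)⟩
    rw [Function.mem_support]
    exact mul_ne_zero hx1 hx1

end Pool.Agent.PBC
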