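import Pool.Agent.PBC.Targets

/-!
# PBC: the inertia form under linear maps (change of variables)
-/

set_option autoImplicit false

open MeasureTheory Module Set Filter Topology
open scoped Pointwise

namespace Pool.Agent.PBC
open Pool.Agent.ProjBody Pool.Agent.PBX

namespace INC_

/-- change of variables for a linear equivalence -/
lemma image_int {n : ℕ} (A : E n ≃L[ℝ] E n) {K : Set (E n)} (hK : MeasurableSet K)
    (f : E n → ℝ) :
    ∫ x in A '' K, f x = |(A : E n →L[ℝ] E n).det| * ∫ x in K, f (A x) := by
  have h1 := integral_image_eq_integral_abs_det_fderiv_smul (volume : Measure (E n)) hK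
    (f := fun x => A x) (f' := fun _ => (A : E n →L[ℝ] E n))
    (fun x _ => (A : E n →L[ℝ] E n).hasFDerivWithinAt) A.injective.injOn f
  rw [h1, ← integral_const_mul]
  rfl

end INC_

theorem p_INC : T_INC := by
  intro n _ h T hh
  obtain ⟨a, b, ha, hn⟩ := hh
  have hK : IsCompact (Bd h) := Bd_compact ha hn
  refine ⟨|((adj T : E n ≃L[ℝ] E n) : E n →L[ℝ] E n).det|, ?_, fun u => ?_⟩
  · exact dt_pos (adj T)
  · unfold inr
    rw [Bd_comp, INC_.image_int (adj T) hK.measurableSet]
    congr 1
    refine integral_congr_ae (Filter.Eventually.of_forall fun x => ?_)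
    simp only [adj_inner]

end Pool.Agent.PBC
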