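import Pool.Agent.PBC.Targets

/-!
# INI: the inertia form under isometries
-/

set_option autoImplicit false

open MeasureTheory Module Set Filter Topology
open scoped Pointwise

namespace Pool.Agent.PBC
open Pool.Agent.ProjBody Pool.Agent.PBX

namespace INI_

/-- The body of an invariant support function is invariant. -/
lemma preimage_Bd {n : ℕ} (h : E n → ℝ) (g : E n ≃ₗᵢ[ℝ] E n) (hg : ∀ u, h (g u) = h u) :
    (g : E n → E n) ⁻¹' (Bd h) = Bd h := by
  ext x
  simp only [mem_preimage]
  constructor
  · intro hx u
    have := hx (g u)
    rw [hg, g.inner_map_map] at this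
    exact this
  · intro hx u
    have := hx (g.symm u)
    have h1 : h (g.symm u) = h u := by
      have := hg (g.symm u)
      rw [g.apply_symm_apply] at this
      exact this.symm
    rw [h1] at this
    have h2 : (inner ℝ (g x) u : ℝ) = inner ℝ x (g.symm u) := by
      rw [← g.inner_map_map x (g.symm u), g.apply_symm_apply]
    rw [h2]
    exact this

end INI_

theorem p_INI : T_INI := by
  intro n h g hg u
  unfold inr
  have hmp : MeasurePreserving (g : E n → E n) volume volume := g.measurePreserving
  have hemb : MeasurableEmbedding (g : E n → E n) := g.toHomeomorph.measurableEmbedding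
  have h1 := hmp.setIntegral_preimage_emb hemb (fun x => (inner ℝ x (g u) : ℝ) ^ 2) (Bd h)
  rw [INI_.preimage_Bd h g hg] at h1
  rw [← h1]
  refine integral_congr_ae (Filter.Eventually.of_forall fun x => ?_)
  simp only [g.inner_map_map]

end Pool.Agent.PBC
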