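import Pool.Agent.PBC.Targets

/-!
# PBC: inertia form of a norm with the symmetries of the cube
-/

set_option autoImplicit false

open MeasureTheory Module Set Filter Topology
open Pool.Agent.ProjBody Pool.Agent.PBX

namespace Pool.Agent.PBC

namespace INQ_

/-- change the sign of the coordinate `i` -/
noncomputable def flip {n : ℕ} (i : Fin n) : E n ≃ₗᵢ[ℝ] E n :=
  LinearIsometryEquiv.piLpCongrRight 2
    (fun j : Fin n => if j = i then LinearIsometryEquiv.neg ℝ else LinearIsometryEquiv.refl ℝ ℝ)

theorem flip_apply {n : ℕ} (i : Fin n) (u : E n) (j : Fin n) :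
    flip i u j = if j = i then -(u j) else u j := by
  unfold flip
  by_cases h : j = i
  · subst h
    simp [LinearIsometryEquiv.piLpCongrRight]
  · simp [LinearIsometryEquiv.piLpCongrRight, h]

theorem flip_single_self {n : ℕ} (i : Fin n) :
    flip i (EuclideanSpace.single i (1 : ℝ)) = -EuclideanSpace.single i (1 : ℝ) := by
  ext j
  rw [flip_apply]
  by_cases h : j = i
  · subst h; simp
  · simp [h]

theorem flip_single_ne {n : ℕ} {i j : Fin n} (hij : j ≠ i) :
    flip i (EuclideanSpace.single j (1 : ℝ)) = EuclideanSpace.single j (1 : ℝ) := by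
  ext k
  rw [flip_apply]
  by_cases h : k = i
  · subst h
    have : k ≠ j := fun h => hij h.symm
    simp [this]
  · simp [h]

theorem flip_cube {n : ℕ} (i : Fin n) : CubeSym (flip i) := by
  intro j
  refine ⟨j, ?_⟩
  by_cases h : j = i
  · subst h
    exact Or.inr (flip_single_self j)
  · exact Or.inl (flip_single_ne h)

/-- exchange two coordinates -/
noncomputable def swp {n : ℕ} (i j : Fin n) : E n ≃ₗᵢ[ℝ] E n :=
  LinearIsometryEquiv.piLpCongrLeft 2 ℝ ℝ (Equiv.swap i j)

theorem swp_single {n : ℕ} (i j k : Fin n) :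
    swp i j (EuclideanSpace.single k (1 : ℝ)) =
      EuclideanSpace.single (Equiv.swap i j k) (1 : ℝ) := by
  unfold swp
  exact LinearIsometryEquiv.piLpCongrLeft_single _ _ _

theorem swp_cube {n : ℕ} (i j : Fin n) : CubeSym (swp i j) := by
  intro k
  exact ⟨Equiv.swap i j k, Or.inl (swp_single i j k)⟩

theorem expand {n : ℕ} (u : E n) :
    u = ∑ i, u i • (EuclideanSpace.single i (1 : ℝ) : E n) := by
  ext j
  simp [Finset.sum_apply, Pi.single_apply]

end INQ_

open INQ_

theorem p_INQ : T_INQ := by
  intro hB hI n _ h hh hc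
  obtain ⟨B, hsym, hQ, hpos⟩ := hB n h hh
  have inv : ∀ g : E n ≃ₗᵢ[ℝ] E n, CubeSym g → ∀ u, B (g u) (g u) = B u u := by
    intro g hg u
    rw [← hQ, ← hQ]
    exact hI n h g (hc g hg) u
  have off : ∀ i j : Fin n, i ≠ j →
      B (EuclideanSpace.single i (1 : ℝ)) (EuclideanSpace.single j (1 : ℝ)) = 0 := by
    intro i j hij
    have h1 := inv (flip i) (flip_cube i)
      (EuclideanSpace.single i (1 : ℝ) + EuclideanSpace.single j (1 : ℝ))
    rw [map_add, flip_single_self, flip_single_ne (fun h => hij h.symm)] at h1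
    have h2 := hsym (EuclideanSpace.single i (1 : ℝ)) (EuclideanSpace.single j (1 : ℝ))
    simp only [map_add, map_neg, LinearMap.add_apply, LinearMap.neg_apply] at h1
    linarith
  have diag : ∀ i j : Fin n,
      B (EuclideanSpace.single i (1 : ℝ)) (EuclideanSpace.single i (1 : ℝ)) =
        B (EuclideanSpace.single j (1 : ℝ)) (EuclideanSpace.single j (1 : ℝ)) := by
    intro i j
    have h1 := inv (swp i j) (swp_cube i j) (EuclideanSpace.single j (1 : ℝ))
    rw [swp_single, Equiv.swap_apply_right] at h1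
    exact h1
  refine ⟨B (EuclideanSpace.single (0 : Fin n) (1 : ℝ)) (EuclideanSpace.single (0 : Fin n) (1 : ℝ)),
    hpos _ (by simp), ?_⟩
  intro u
  rw [hQ]
  have hexp : B u u = ∑ i, ∑ j, u i * (u j *
      B (EuclideanSpace.single i (1 : ℝ)) (EuclideanSpace.single j (1 : ℝ))) := by
    conv_lhs => rw [expand u]
    simp only [map_sum, map_smul, LinearMap.sum_apply, LinearMap.smul_apply, smul_eq_mul,
      Finset.mul_sum]
    rw [Finset.sum_comm]
    refine Finset.sum_congr rfl fun i _ => Finset.sum_congr rfl fun j _ => ?_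
    ring
  rw [hexp]
  have hrow : ∀ i : Fin n, ∑ j, u i * (u j *
      B (EuclideanSpace.single i (1 : ℝ)) (EuclideanSpace.single j (1 : ℝ))) =
      B (EuclideanSpace.single (0 : Fin n) (1 : ℝ)) (EuclideanSpace.single (0 : Fin n) (1 : ℝ)) *
        u i ^ 2 := by
    intro i
    rw [Finset.sum_eq_single i]
    · rw [diag i 0]; ring
    · intro j _ hj
      rw [off i j (fun h => hj h.symm)]; ring
    · intro hi; exact absurd (Finset.mem_univ i) hi
  rw [Finset.sum_congr rfl fun i _ => hrow i, ← Finset.mul_sum, EuclideanSpace.real_norm_sq_eq]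

end Pool.Agent.PBC
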