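import Pool.Agent.PBC.Targets

/-!
# PBC: the inertia form of a norm invariant under the isometries fixing the first axis
-/

open MeasureTheory Module Set Filter Topology
open scoped Pointwise

namespace Pool.Agent.PBC
open Pool.Agent.ProjBody Pool.Agent.PBX

namespace INR_

variable {m : ℕ}

lemma inner_e0 (u : E (m + 1)) : (inner ℝ (e0 m) u : ℝ) = u 0 := by
  simp [e0, EuclideanSpace.inner_single_left]

/-- the part orthogonal to the first axis -/
noncomputable def pr (u : E (m + 1)) : E (m + 1) := u - u 0 • e0 m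

lemma pr_zero (u : E (m + 1)) : (pr u) 0 = 0 := by simp [pr, e0]

lemma pr_succ (u : E (m + 1)) (i : Fin m) : (pr u) i.succ = u i.succ := by
  simp [pr, e0]

lemma norm_pr (u : E (m + 1)) : ‖pr u‖ = ‖tl u‖ := by
  rw [EuclideanSpace.norm_eq, EuclideanSpace.norm_eq, Fin.sum_univ_succ]
  simp [pr_zero, pr_succ, tl]

lemma split_u (u : E (m + 1)) : u = u 0 • e0 m + pr u := by
  simp [pr]

lemma e0_ne : e0 m ≠ 0 := by
  intro h
  have : (e0 m) 0 = (0 : E (m + 1)) 0 := by rw [h]
  simp [e0] at this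

/-- a vector orthogonal to the first axis is orthogonal for an invariant form -/
lemma cross (B : E (m + 1) →ₗ[ℝ] E (m + 1) →ₗ[ℝ] ℝ) (hs : ∀ u v, B u v = B v u)
    (hB : ∀ g : E (m + 1) ≃ₗᵢ[ℝ] E (m + 1), g (e0 m) = e0 m → ∀ u, B (g u) (g u) = B u u)
    (v : E (m + 1)) (hv : v 0 = 0) : B (e0 m) v = 0 := by
  set R := (Submodule.span ℝ {e0 m}).reflection with hR
  have h1 : R (e0 m) = e0 m :=
    Submodule.reflection_mem_subspace_eq_self (Submodule.mem_span_singleton_self _)
  have h2 : R v = -v := by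
    apply Submodule.reflection_mem_subspace_orthogonalComplement_eq_neg
    rw [Submodule.mem_orthogonal_singleton_iff_inner_right, inner_e0, hv]
  have h3 := hB R h1 (e0 m + v)
  rw [map_add, h1, h2] at h3
  simp only [map_add, map_neg, LinearMap.add_apply, LinearMap.neg_apply] at h3
  have h4 := hs (e0 m) v
  linarith

/-- vectors of the same norm orthogonal to the first axis -/
lemma swap (B : E (m + 1) →ₗ[ℝ] E (m + 1) →ₗ[ℝ] ℝ)
    (hB : ∀ g : E (m + 1) ≃ₗᵢ[ℝ] E (m + 1), g (e0 m) = e0 m → ∀ u, B (g u) (g u) = B u u)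
    (v w : E (m + 1)) (hv : v 0 = 0) (hw : w 0 = 0) (h : ‖v‖ = ‖w‖) : B v v = B w w := by
  have h1 : (Submodule.span ℝ {v - w})ᗮ.reflection v = w := Submodule.reflection_sub h
  have h2 : (Submodule.span ℝ {v - w})ᗮ.reflection (e0 m) = e0 m := by
    apply Submodule.reflection_mem_subspace_eq_self
    rw [Submodule.mem_orthogonal_singleton_iff_inner_left, inner_e0]
    simp [hv, hw]
  have h3 := hB _ h2 v
  rw [h1] at h3
  exact h3.symm

end INR_

open INR_ in
theorem p_INR : T_INR := by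
  intro hINB hINI m h hm hN hR
  obtain ⟨B, hs, hi, hp⟩ := hINB (m + 1) h hN
  have hB : ∀ g : E (m + 1) ≃ₗᵢ[ℝ] E (m + 1), g (e0 m) = e0 m → ∀ u, B (g u) (g u) = B u u := by
    intro g hg u
    rw [← hi, ← hi]
    exact hINI (m + 1) h g (hR g hg) u
  set e1 : E (m + 1) := EuclideanSpace.single (⟨0, hm⟩ : Fin m).succ 1 with he1
  have h10 : e1 0 = 0 := by
    simp [he1, Fin.succ_ne_zero]
  have h1n : ‖e1‖ = 1 := by simp [he1]
  have h1ne : e1 ≠ 0 := by
    intro h0
    rw [h0, norm_zero] at h1n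
    exact zero_ne_one h1n
  refine ⟨B (e0 m) (e0 m), B e1 e1, hp _ e0_ne, hp _ h1ne, fun u => ?_⟩
  have hc := cross B hs hB (pr u) (pr_zero u)
  have hw : B (pr u) (pr u) = B (‖tl u‖ • e1) (‖tl u‖ • e1) := by
    apply swap B hB _ _ (pr_zero u)
    · simp [h10]
    · rw [norm_smul, h1n, norm_norm, mul_one, norm_pr]
  have hsp := split_u u
  have hc' : B (pr u) (e0 m) = 0 := by rw [hs, hc]
  rw [hi]
  calc B u u = B (u 0 • e0 m + pr u) (u 0 • e0 m + pr u) := by rw [← hsp]
    _ = u 0 * (u 0 * B (e0 m) (e0 m)) + B (pr u) (pr u) := by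
      simp only [map_add, map_smul, LinearMap.add_apply, LinearMap.smul_apply, smul_eq_mul,
        hc, hc']
      ring
    _ = _ := by
      rw [hw]
      simp only [map_smul, LinearMap.smul_apply, smul_eq_mul]
      ring

end Pool.Agent.PBC
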