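import Pool.Agent.PBC.Targets

open MeasureTheory Module Set Filter Topology

namespace Pool.Agent.PBC
open Pool.Agent.ProjBody Pool.Agent.PBX

namespace IRR_

/-- change of the sign of coordinate `i` -/
noncomputable def flip {n : ℕ} (i : Fin n) : E n ≃ₗᵢ[ℝ] E n :=
  LinearIsometryEquiv.piLpCongrRight 2 fun k : Fin n =>
    if k = i then LinearIsometryEquiv.neg ℝ else LinearIsometryEquiv.refl ℝ ℝ

lemma flip_apply {n : ℕ} (i k : Fin n) (u : E n) :
    flip i u k = if k = i then -u k else u k := by
  simp only [flip, LinearIsometryEquiv.piLpCongrRight_apply]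
  by_cases h : k = i
  · subst h; simp
  · simp [h]

lemma flip_sym {n : ℕ} (i : Fin n) : CubeSym (flip i) := by
  intro k
  refine ⟨k, ?_⟩
  by_cases h : k = i
  · right
    ext l
    rw [flip_apply]
    subst h
    by_cases hl : l = k
    · subst hl; simp
    · simp [hl]
  · left
    ext l
    rw [flip_apply]
    by_cases hl : l = i
    · subst hl
      have : l ≠ k := fun e => h e.symm
      simp [this]
    · simp [hl]

lemma swap_apply {n : ℕ} (e : Fin n ≃ Fin n) (k : Fin n) (u : E n) :
    LinearIsometryEquiv.piLpCongrLeft 2 ℝ ℝ e u k = u (e.symm k) := by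
  rw [LinearIsometryEquiv.piLpCongrLeft_apply]
  rfl

lemma swap_sym {n : ℕ} (e : Fin n ≃ Fin n) :
    CubeSym (LinearIsometryEquiv.piLpCongrLeft 2 ℝ ℝ e : E n ≃ₗᵢ[ℝ] E n) := by
  intro k
  refine ⟨e k, Or.inl ?_⟩
  ext l
  rw [swap_apply]
  by_cases hl : l = e k
  · subst hl; simp
  · have h2 : e.symm l ≠ k := fun h => hl (by rw [← h]; simp)
    simp [hl, h2]

end IRR_

open IRR_ in
theorem p_IRR : T_IRR := by
  intro n a hn ha
  obtain ⟨i, hi⟩ : ∃ i, a i ≠ 0 := by
    by_contra h
    push Not at h
    exact ha (by ext i; simpa using h i)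
  obtain ⟨j, hj⟩ : ∃ j : Fin n, j ≠ i := by
    have : Nontrivial (Fin n) := Fin.nontrivial_iff_two_le.mpr hn
    exact exists_ne i
  by_cases h0 : a j = 0
  · refine ⟨LinearIsometryEquiv.piLpCongrLeft 2 ℝ ℝ (Equiv.swap i j), swap_sym _, ?_, ?_⟩
    · intro h
      have h1 := congrArg (fun u : E n => u j) h
      simp only [swap_apply] at h1
      rw [Equiv.symm_swap, Equiv.swap_apply_right, h0] at h1
      exact hi h1
    · intro h
      have h1 := congrArg (fun u : E n => u j) h
      simp only [swap_apply] at h1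
      rw [Equiv.symm_swap, Equiv.swap_apply_right] at h1
      simp only [PiLp.neg_apply, h0, neg_zero] at h1
      exact hi h1
  · refine ⟨flip i, flip_sym i, ?_, ?_⟩
    · intro h
      have h1 := congrArg (fun u : E n => u i) h
      simp only [flip_apply, if_pos] at h1
      exact hi (by linarith)
    · intro h
      have h1 := congrArg (fun u : E n => u j) h
      simp only [flip_apply, if_neg hj, PiLp.neg_apply] at h1
      exact h0 (by linarith)

end Pool.Agent.PBC
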