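import Pool.Agent.PBC.Targets

/-!
# PBC: assembly for one level
-/

open MeasureTheory Module Set Filter Topology
open scoped Pointwise

namespace Pool.Agent.PBC
open Pool.Agent.ProjBody Pool.Agent.PBX

namespace LEV_

theorem span_ne (m : ℕ) : (Submodule.span ℝ {e0 m} : Submodule ℝ (E (m + 1))) ≠ ⊥ := by
  rw [Ne, Submodule.span_singleton_eq_bot]
  intro h
  have h1 : (e0 m) 0 = 0 := by rw [h]; rfl
  simp [e0] at h1

theorem orth_ne (m : ℕ) (hm : 2 ≤ m) :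
    (Submodule.span ℝ {e0 m} : Submodule ℝ (E (m + 1)))ᗮ ≠ ⊥ := by
  intro h
  have hne : (0 : Fin (m + 1)) ≠ ⟨1, by omega⟩ := by
    intro h0
    have := congrArg Fin.val h0
    simp at this
  have h1 : (EuclideanSpace.single (⟨1, by omega⟩ : Fin (m + 1)) (1 : ℝ) : E (m + 1)) ∈
      (Submodule.span ℝ {e0 m} : Submodule ℝ (E (m + 1)))ᗮ := by
    rw [Submodule.mem_orthogonal_singleton_iff_inner_right, e0,
      EuclideanSpace.inner_single_left]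
    simp [hne]
  rw [h, Submodule.mem_bot] at h1
  have h2 := congrArg (fun v : E (m + 1) => v ⟨1, by omega⟩) h1
  simp at h2

end LEV_

theorem p_LEV : T_LEV := by
  intro hFAM hFSD hGEN hPIS hSPI hSD2 hFDF hFDC hCTS hMIX m r η x hm hr1 hr2 hx0 hxη hETA k
  have hN : ∀ p ∈ sq, IsN (fam p.1 p.2 : E (m + 1) → ℝ) := fun p hp =>
    ⟨1, _, one_pos, hFAM m p.1 p.2 hp.1 hp.2⟩
  have hNk : ∀ p ∈ sq, IsN (P^[k] (fam p.1 p.2 : E (m + 1) → ℝ)) := fun p hp => (hN p hp).Pit k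
  have h0 : (0 : ℝ) ∈ Icc (0 : ℝ) 1 := ⟨le_rfl, zero_le_one⟩
  have h1 : (1 : ℝ) ∈ Icc (0 : ℝ) 1 := ⟨zero_le_one, le_rfl⟩
  obtain ⟨hs1, hs2, hs3, hs4⟩ := hFSD m
  refine hMIX (fun p => DF (P^[k] (fam p.1 p.2 : E (m + 1) → ℝ)))
    (fun p => DC (P^[k] (fam p.1 p.2 : E (m + 1) → ℝ))) r (1 + x)
    (hCTS m DF (hFDF (m + 1)) k) (hCTS m DC (hFDC (m + 1)).1 k) ?_ ?_ ?_
  · intro t ht
    constructor
    · obtain ⟨c, hc, hcc⟩ := Pit_norm (n := m + 1) k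
      have he : (fam 0 t : E (m + 1) → ℝ) = fun u => ‖u‖ := funext (hs1 t)
      show DF (P^[k] (fam 0 t : E (m + 1) → ℝ)) ≤ r
      rw [he, hcc, DF_norm hc]
      exact hr1.le
    · show r ≤ DF (P^[k] (fam 1 t : E (m + 1) → ℝ))
      obtain ⟨ρ, hρ⟩ := hGEN m t (by omega) ht
      have hI : IsN (fam 1 t : E (m + 1) → ℝ) := hN (1, t) ⟨h1, ht⟩
      exact hr2.le.trans (hSD2 (m + 1) _ (hI.Pit k)
        (hSPI (m + 1) ρ _ (Submodule.span ℝ {e0 m}) hρ hI (LEV_.span_ne m)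
          (LEV_.orth_ne m hm) (hs4 t) k))
  · intro s hs
    have hC : CInv (P^[k] (fam s 1 : E (m + 1) → ℝ)) := fun g hg u =>
      hPIS (m + 1) _ g (fun u => hs3 s g hg u) k u
    have he := (hFDC (m + 1)).2.1 _ (hNk (s, 1) ⟨hs, h1⟩) hC
    show DC (P^[k] (fam s 1 : E (m + 1) → ℝ)) ≤ 1 + x
    have he' : DC (P^[k] (fam s 1 : E (m + 1) → ℝ)) = 1 := he
    rw [he']
    linarith
  · intro s hs hρ
    have hR : RInv (e0 m) (P^[k] (fam s 0 : E (m + 1) → ℝ)) := fun g hg u =>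
      hPIS (m + 1) _ g (fun u => hs2 s g hg u) k u
    have he := hETA _ (hNk (s, 0) ⟨hs, h0⟩) hR hρ
    show 1 + x < DC (P^[k] (fam s 0 : E (m + 1) → ℝ))
    linarith

end Pool.Agent.PBC
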