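import Pool.Agent.PBC.Targets

/-!
# PBC: proof of `T_LIO` (limit orbit)
-/

open MeasureTheory Module Set Filter Topology
open scoped Pointwise

namespace Pool.Agent.PBC
open Pool.Agent.ProjBody Pool.Agent.PBX

theorem LIO_.lim {n : ℕ} [NeZero n] (hLMD : T_LMD) (D : (E n → ℝ) → ℝ) (hD : Fnl D)
    (g : ℕ → E n → ℝ) (T : ℕ → E n ≃L[ℝ] E n) (M : E n → ℝ) (a b y : ℝ) (ha : 0 < a)
    (hNm : ∀ k, Nm a b (fun u => g k (T k u)))
    (ht : ∀ u, Tendsto (fun k => g k (T k u)) (hyperfilter ℕ : Filter ℕ) (𝓝 (M u)))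
    (hy : ∀ k, D (g k) = y) : D M = y := by
  have h1 := hLMD n D hD (hyperfilter ℕ : Filter ℕ) (fun k u => g k (T k u)) M a b ha
    (Filter.Eventually.of_forall hNm) ht
  have h2 : (fun i => D (fun u => g i (T i u))) = fun _ => y := by
    funext i
    rw [hD.2.1 (g i) (T i)]
    exact hy i
  rw [h2] at h1
  exact (tendsto_nhds_unique h1 tendsto_const_nhds)

theorem p_LIO : T_LIO := by
  intro hFAM hFDF hFDC hLMD hORB m r x hm hk
  choose p hp hpF hpC using hk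
  have hN : ∀ k, IsN (fam (p k).1 (p k).2 : E (m + 1) → ℝ) := fun k =>
    ⟨_, _, one_pos, hFAM m _ _ (hp k).1 (hp k).2⟩
  have hnear : ∀ k, NearF (P^[k] (fam (p k).1 (p k).2 : E (m + 1) → ℝ)) (r + 1) := fun k =>
    near_of_DF_lt ((hN k).Pit k) (by rw [hpF]; linarith)
  choose T hT using hnear
  have hNm : ∀ k, Nm (1 : ℝ) (r + 1)
      (fun u => (P^[k] (fam (p k).1 (p k).2 : E (m + 1) → ℝ)) (T k u)) := by
    intro k
    obtain ⟨a, b, _, hh⟩ := ((hN k).Pit k).comp (T k)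
    refine ⟨hh.add, hh.smul, ?_, ?_⟩
    · intro u; rw [one_mul]; exact (hT k u).1
    · intro u; exact (hT k u).2
  obtain ⟨M, hMN, hMP, hMt⟩ := hORB (m + 1) (by omega)
    (fun k => (fam (p k).1 (p k).2 : E (m + 1) → ℝ)) T 1 (r + 1) hN one_pos hNm
  refine ⟨M, hMN, hMP, ?_, ?_⟩
  · exact LIO_.lim hLMD DF (hFDF (m + 1)) (fun k => P^[k] (fam (p k).1 (p k).2)) T (M 0) 1 (r + 1) r
      one_pos hNm hMt hpF
  · exact LIO_.lim hLMD DC (hFDC (m + 1)).1 (fun k => P^[k] (fam (p k).1 (p k).2)) T (M 0) 1 (r + 1)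
      (1 + x) one_pos hNm hMt hpC

end Pool.Agent.PBC
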