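import Pool.Agent.PBC.Targets

/-!
# PBC: the functionals along pointwise limits
-/

set_option autoImplicit false

open MeasureTheory Module Set Filter Topology
open scoped Pointwise

namespace Pool.Agent.PBC
open Pool.Agent.ProjBody Pool.Agent.PBX

namespace LMD_

theorem lim_ratio (x : ℝ) : Tendsto (fun δ : ℝ => (1 + δ) / (1 - δ) * x)
    (nhdsWithin 0 (Ioi 0)) (nhds x) := by
  have hid : Tendsto (fun δ : ℝ => δ) (nhdsWithin 0 (Ioi 0)) (nhds 0) :=
    tendsto_id.mono_left nhdsWithin_le_nhds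
  have := ((hid.const_add 1).div (hid.const_sub 1) (by simp)).mul_const x
  simpa using this

theorem small : ∀ᶠ δ : ℝ in nhdsWithin 0 (Ioi 0), 0 < δ ∧ δ < 1 := by
  have e3 : ∀ᶠ δ : ℝ in nhdsWithin 0 (Ioi 0), δ < 1 :=
    Filter.Eventually.filter_mono nhdsWithin_le_nhds (eventually_lt_nhds one_pos)
  filter_upwards [e3, self_mem_nhdsWithin] with δ h1 h0
  exact ⟨h0, h1⟩

end LMD_

theorem p_LMD : T_LMD := by
  intro n _ D hD l _ f M a b ha hf hlim
  obtain ⟨-, -, h3⟩ := hD
  have hM : Nm a b M := Nm.lim hf hlim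
  have hMN : IsN M := ⟨_, _, ha, hM⟩
  have key : ∀ δ : ℝ, 0 < δ → δ < 1 → ∀ᶠ i in l, D M ≤ (1 + δ) / (1 - δ) * D (f i) ∧
      D (f i) ≤ (1 + δ) / (1 - δ) * D M := by
    intro δ h0 h1
    have hd1 : 0 < 1 - δ := by linarith
    filter_upwards [unif_close ha hf hM hlim h0, hf] with i hi hfi
    constructor
    · have := h3 (f i) M (1 + δ)⁻¹ (1 - δ)⁻¹ ⟨_, _, ha, hfi⟩ (by positivity)
        (fun u => by rw [inv_mul_le_iff₀ (by positivity)]; exact (hi u).2)
        (fun u => by rw [le_inv_mul_iff₀ hd1]; exact (hi u).1)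
      have e : (1 - δ)⁻¹ / (1 + δ)⁻¹ = (1 + δ) / (1 - δ) := by field_simp
      rw [e] at this
      exact this
    · exact h3 M (f i) (1 - δ) (1 + δ) hMN hd1 (fun u => (hi u).1) (fun u => (hi u).2)
  rw [tendsto_order]
  constructor
  · intro x hx
    obtain ⟨δ, hδx, h0, h1⟩ :=
      (((LMD_.lim_ratio x).eventually (eventually_lt_nhds hx)).and LMD_.small).exists
    have hpos : 0 < (1 + δ) / (1 - δ) := div_pos (by linarith) (by linarith)
    filter_upwards [key δ h0 h1] with i hi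
    exact lt_of_mul_lt_mul_left (hδx.trans_le hi.1) hpos.le
  · intro x hx
    obtain ⟨δ, hδx, h0, h1⟩ :=
      (((LMD_.lim_ratio (D M)).eventually (eventually_lt_nhds hx)).and LMD_.small).exists
    filter_upwards [key δ h0 h1] with i hi
    exact hi.2.trans_lt hδx

end Pool.Agent.PBC
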