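import Pool.Agent.PBC.Targets
import Pool.Agent.Lib.Brouwer

/-!
# PBC: `T_MIR`, Poincare-Miranda on the square
-/

open MeasureTheory Module Set Filter Topology
open scoped Pointwise

namespace Pool.Agent.PBC

namespace MIR_

/-- clamp to the unit interval -/
noncomputable def cl (t : ℝ) : ℝ := max 0 (min 1 t)

lemma cl_cont : Continuous cl := continuous_const.max (continuous_const.min continuous_id)

lemma cl_nonneg (t : ℝ) : 0 ≤ cl t := le_max_left _ _

lemma cl_le (t : ℝ) : cl t ≤ 1 := max_le zero_le_one (min_le_left _ _)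

lemma cl_of_mem {t : ℝ} (h0 : 0 ≤ t) (h1 : t ≤ 1) : cl t = t := by
  unfold cl
  rw [min_eq_right h1, max_eq_right h0]

lemma cl_pos {z g : ℝ} (h : z = cl (z - g)) (hg : 0 < g) : z = 0 := by
  by_contra hne
  have h0 : 0 ≤ z := by rw [h]; exact cl_nonneg _
  have hz : 0 < z := lt_of_le_of_ne h0 (Ne.symm hne)
  have : cl (z - g) < z := by
    unfold cl
    exact max_lt hz ((min_le_right _ _).trans_lt (by linarith))
  linarith

lemma cl_neg {z g : ℝ} (h : z = cl (z - g)) (hg : g < 0) : z = 1 := by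
  by_contra hne
  have h1 : z ≤ 1 := by rw [h]; exact cl_le _
  have hz : z < 1 := lt_of_le_of_ne h1 hne
  have : z < cl (z - g) := by
    unfold cl
    exact (lt_min hz (by linarith)).trans_le (le_max_right _ _)
  linarith

end MIR_

open MIR_ in
theorem p_MIR : T_MIR := by
  intro F₁ F₂ h1 h2 hs1 hs2
  let p : EuclideanSpace ℝ (Fin 2) → ℝ × ℝ := fun x => (cl (2 * x 0), cl (2 * x 1))
  have hpc : Continuous p := by
    refine (cl_cont.comp ?_).prodMk (cl_cont.comp ?_)
    · fun_prop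
    · fun_prop
  have hpm : ∀ x, p x ∈ sq := fun x =>
    ⟨⟨cl_nonneg _, cl_le _⟩, ⟨cl_nonneg _, cl_le _⟩⟩
  have hF1 : Continuous fun x => F₁ (p x) := h1.comp_continuous hpc hpm
  have hF2 : Continuous fun x => F₂ (p x) := h2.comp_continuous hpc hpm
  let f : EuclideanSpace ℝ (Fin 2) → EuclideanSpace ℝ (Fin 2) := fun x =>
    WithLp.toLp 2 ![(1 / 2 : ℝ) * cl ((p x).1 - F₁ (p x)), (1 / 2 : ℝ) * cl ((p x).2 - -F₂ (p x))]
  have hfc : Continuous f := by
    refine (PiLp.continuous_toLp 2 _).comp (continuous_pi fun i => ?_)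
    fin_cases i
    · exact continuous_const.mul (cl_cont.comp ((continuous_fst.comp hpc).sub hF1))
    · exact continuous_const.mul (cl_cont.comp ((continuous_snd.comp hpc).sub hF2.neg))
  have hfm : MapsTo f (Metric.closedBall 0 1) (Metric.closedBall 0 1) := by
    intro x _
    rw [mem_closedBall_zero_iff, EuclideanSpace.norm_eq, Real.sqrt_le_one]
    rw [Fin.sum_univ_two]
    have e0 : (f x) 0 = (1 / 2 : ℝ) * cl ((p x).1 - F₁ (p x)) := rfl
    have e1 : (f x) 1 = (1 / 2 : ℝ) * cl ((p x).2 - -F₂ (p x)) := rfl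
    rw [e0, e1, Real.norm_eq_abs, Real.norm_eq_abs, sq_abs, sq_abs]
    have a0 := cl_nonneg ((p x).1 - F₁ (p x))
    have a1 := cl_le ((p x).1 - F₁ (p x))
    have b0 := cl_nonneg ((p x).2 - -F₂ (p x))
    have b1 := cl_le ((p x).2 - -F₂ (p x))
    nlinarith
  obtain ⟨x, _, hx⟩ := Pool.Agent.Brouwer.fixed_point hfc.continuousOn hfm
  have e0 : x 0 = (1 / 2 : ℝ) * cl ((p x).1 - F₁ (p x)) := by
    conv_lhs => rw [← hx]
    rfl
  have e1 : x 1 = (1 / 2 : ℝ) * cl ((p x).2 - -F₂ (p x)) := by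
    conv_lhs => rw [← hx]
    rfl
  have z0 : (p x).1 = cl ((p x).1 - F₁ (p x)) := by
    have h3 : 2 * x 0 = cl ((p x).1 - F₁ (p x)) := by linarith
    have h4 : cl (2 * x 0) = 2 * x 0 :=
      cl_of_mem (h3 ▸ cl_nonneg _) (h3 ▸ cl_le _)
    exact (show (p x).1 = cl (2 * x 0) from rfl).trans (h4.trans h3)
  have z1 : (p x).2 = cl ((p x).2 - -F₂ (p x)) := by
    have h3 : 2 * x 1 = cl ((p x).2 - -F₂ (p x)) := by linarith
    have h4 : cl (2 * x 1) = 2 * x 1 :=
      cl_of_mem (h3 ▸ cl_nonneg _) (h3 ▸ cl_le _)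
    exact (show (p x).2 = cl (2 * x 1) from rfl).trans (h4.trans h3)
  have hm := hpm x
  generalize hq : p x = q at z0 z1 hm
  obtain ⟨q1, q2⟩ := q
  refine ⟨(q1, q2), hm, ?_, ?_⟩
  · rcases lt_trichotomy (F₁ (q1, q2)) 0 with hn | hn | hn
    · have h3 : q1 = 1 := cl_neg z0 hn
      have h4 := (hs1 q2 hm.2).2
      subst h3
      exact absurd hn (not_lt.2 h4)
    · exact hn
    · have h3 : q1 = 0 := cl_pos z0 hn
      have h4 := (hs1 q2 hm.2).1
      subst h3
      exact absurd hn (not_lt.2 h4)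
  · rcases lt_trichotomy (F₂ (q1, q2)) 0 with hn | hn | hn
    · have h3 : q2 = 0 := cl_pos z1 (by linarith : 0 < -F₂ (q1, q2))
      have h4 := (hs2 q1 hm.1).1
      subst h3
      exact absurd hn (not_lt.2 h4)
    · exact hn
    · have h3 : q2 = 1 := cl_neg z1 (by linarith : -F₂ (q1, q2) < 0)
      have h4 := (hs2 q1 hm.1).2
      subst h3
      exact absurd hn (not_lt.2 h4)

end Pool.Agent.PBC
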