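import Pool.Agent.PBC.Targets

/-!
# PBC: normalisation of cube invariant norms
-/

open MeasureTheory Module Set Filter Topology
open scoped Pointwise

namespace Pool.Agent.PBC
open Pool.Agent.ProjBody Pool.Agent.PBX

namespace NCB_

/-- the exchange of two coordinates -/
noncomputable def sw' {n : ℕ} (i j : Fin n) : E n ≃ₗᵢ[ℝ] E n :=
  LinearIsometryEquiv.piLpCongrLeft 2 ℝ ℝ (Equiv.swap i j)

theorem sw'_single {n : ℕ} (i j k : Fin n) :
    sw' i j (EuclideanSpace.single k 1) = EuclideanSpace.single (Equiv.swap i j k) 1 := by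
  unfold sw'
  exact LinearIsometryEquiv.piLpCongrLeft_single _ _ _

theorem sw'_sym {n : ℕ} (i j : Fin n) : CubeSym (sw' i j) := fun k =>
  ⟨Equiv.swap i j k, Or.inl (sw'_single i j k)⟩

/-- all signs but the `i`-th are changed -/
noncomputable def sg' {n : ℕ} (i : Fin n) : E n ≃ₗᵢ[ℝ] E n :=
  LinearIsometryEquiv.piLpCongrRight 2 fun j =>
    if j = i then LinearIsometryEquiv.refl ℝ ℝ else LinearIsometryEquiv.neg ℝ

theorem sg'_apply {n : ℕ} (i : Fin n) (u : E n) (j : Fin n) :
    (sg' i u) j = if j = i then u j else -u j := by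
  unfold sg'
  simp only [LinearIsometryEquiv.piLpCongrRight_apply]
  split_ifs with h <;> simp

theorem sg'_sym {n : ℕ} (i : Fin n) : CubeSym (sg' i) := by
  intro k
  refine ⟨k, ?_⟩
  by_cases hk : k = i
  · left
    ext j
    rw [sg'_apply]
    by_cases hj : j = i
    · simp [hj]
    · have : j ≠ k := fun h => hj (h.trans hk)
      simp [hj, this]
  · right
    ext j
    rw [sg'_apply]
    by_cases hj : j = i
    · have : i ≠ k := fun h => hk h.symm
      simp [hj, this]
    · simp [hj]

theorem add_sg' {n : ℕ} (i : Fin n) (u : E n) :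
    u + sg' i u = (2 * u i) • (EuclideanSpace.single i 1 : E n) := by
  ext j
  have : (u + sg' i u) j = u j + (sg' i u) j := rfl
  rw [this, sg'_apply]
  by_cases hj : j = i
  · subst hj
    simp
    ring
  · simp [hj]

end NCB_

open NCB_

theorem p_NCB : T_NCB := by
  intro n _ g hg hC
  obtain ⟨a, b, ha, hN⟩ := hg
  set e : Fin n → E n := fun i => EuclideanSpace.single i 1 with he
  set x : ℝ := g (e 0) with hx
  have hxe : ∀ i, g (e i) = x := by
    intro i
    have := hC (sw' 0 i) (sw'_sym 0 i) (e 0)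
    rw [he] at this
    simp only [sw'_single, Equiv.swap_apply_left] at this
    exact this
  have hx0 : 0 < x := by
    have h1 := hN.lo (e 0)
    have h2 : ‖e 0‖ = 1 := by simp [he]
    rw [h2, mul_one] at h1
    exact lt_of_lt_of_le ha h1
  have hlow : ∀ (u : E n) (i : Fin n), x * |u i| ≤ g u := by
    intro u i
    have h1 := hN.add u (sg' i u)
    rw [hC _ (sg'_sym i) u, add_sg' i u, hN.smul] at h1
    have h2 : g (EuclideanSpace.single i 1) = x := hxe i
    rw [h2, abs_mul, abs_two] at h1
    nlinarith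
  have hup : ∀ u : E n, g u ≤ x * l1 u := by
    intro u
    have h1 : u = ∑ i, u i • e i := by
      ext j
      simp [he, Finset.sum_apply, Pi.single_apply]
    have h2 := Finset.le_sum_of_subadditive g hN.zero.le hN.add Finset.univ fun i => u i • e i
    rw [← h1] at h2
    refine h2.trans (le_of_eq ?_)
    unfold l1
    rw [Finset.mul_sum]
    refine Finset.sum_congr rfl fun i _ => ?_
    rw [hN.smul, hxe, mul_comm]
  have hn : 0 < Real.sqrt n := Real.sqrt_pos.2 (Nat.cast_pos.2 (Nat.pos_of_ne_zero (NeZero.ne n)))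
  refine ⟨Real.sqrt n / x, div_pos hn hx0, fun u => ⟨?_, ?_⟩⟩
  · have h0 : 0 ≤ g u := le_trans (mul_nonneg hx0.le (abs_nonneg _)) (hlow u 0)
    have h1 : ‖u‖ ≤ Real.sqrt (n * (g u / x) ^ 2) := by
      rw [EuclideanSpace.norm_eq]
      apply Real.sqrt_le_sqrt
      calc ∑ i, ‖u i‖ ^ 2 ≤ ∑ _i : Fin n, (g u / x) ^ 2 := by
            refine Finset.sum_le_sum fun i _ => ?_
            rw [Real.norm_eq_abs]
            refine pow_le_pow_left₀ (abs_nonneg _) ?_ 2
            rw [le_div_iff₀ hx0, mul_comm]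
            exact hlow u i
        _ = n * (g u / x) ^ 2 := by simp
    rw [Real.sqrt_mul (Nat.cast_nonneg n), Real.sqrt_sq (div_nonneg h0 hx0.le)] at h1
    calc ‖u‖ ≤ Real.sqrt n * (g u / x) := h1
      _ = Real.sqrt n / x * g u := by ring
  · calc Real.sqrt n / x * g u ≤ Real.sqrt n / x * (x * (Real.sqrt n * ‖u‖)) := by
          refine mul_le_mul_of_nonneg_left ?_ (div_pos hn hx0).le
          exact (hup u).trans (mul_le_mul_of_nonneg_left (l1_le u) hx0.le)
      _ = (Real.sqrt n * Real.sqrt n) * ‖u‖ := by field_simp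
      _ = n * ‖u‖ := by rw [Real.mul_self_sqrt (Nat.cast_nonneg n)]

end Pool.Agent.PBC
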