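import Pool.Agent.PBC.Targets

/-!
# PBC: normalisation of rotation invariant norms
-/

open MeasureTheory Module Set Filter Topology
open scoped Pointwise

namespace Pool.Agent.PBC
open Pool.Agent.ProjBody Pool.Agent.PBX

namespace NRM_

variable {n : ℕ}

/-- the diagonal linear map with eigenvalue `b` on the line of `e` and `a` on its orthogonal
complement (for a unit vector `e`) -/
noncomputable def dg (e : E n) (a b : ℝ) : E n →ₗ[ℝ] E n :=
  a • LinearMap.id + (b - a) • (innerₛₗ ℝ e).smulRight e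

theorem dg_apply (e : E n) (a b : ℝ) (u : E n) :
    dg e a b u = a • u + ((b - a) * inner ℝ e u) • e := by
  simp [dg, smul_smul]

theorem dg_dg {e : E n} (he : ‖e‖ = 1) {a b a' b' : ℝ} (ha : a * a' = 1) (hb : b * b' = 1)
    (u : E n) : dg e a b (dg e a' b' u) = u := by
  have hee : inner ℝ e e = (1 : ℝ) := by rw [real_inner_self_eq_norm_sq, he]; norm_num
  rw [dg_apply, dg_apply, inner_add_right, real_inner_smul_right, real_inner_smul_right, hee,
    smul_add, smul_smul, smul_smul, ha, one_smul, add_assoc, ← add_smul]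
  have : a * ((b' - a') * inner ℝ e u) + (b - a) * (a' * inner ℝ e u + (b' - a') * inner ℝ e u * 1)
      = 0 := by
    linear_combination (inner ℝ e u) * hb - (inner ℝ e u) * ha
  rw [this, zero_smul, add_zero]

/-- the equivalence `dg` for nonzero eigenvalues -/
noncomputable def dgE (e : E n) (he : ‖e‖ = 1) (a b : ℝ) (ha : a ≠ 0) (hb : b ≠ 0) :
    E n ≃L[ℝ] E n :=
  (LinearEquiv.ofLinearMap (dg e a b) (dg e a⁻¹ b⁻¹)
    (LinearMap.ext fun u => dg_dg he (mul_inv_cancel₀ ha) (mul_inv_cancel₀ hb) u)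
    (LinearMap.ext fun u => dg_dg he (inv_mul_cancel₀ ha) (inv_mul_cancel₀ hb) u)).toContinuousLinearEquiv

theorem dgE_apply (e : E n) (he : ‖e‖ = 1) (a b : ℝ) (ha : a ≠ 0) (hb : b ≠ 0) (u : E n) :
    dgE e he a b ha hb u = a • u + ((b - a) * inner ℝ e u) • e := dg_apply e a b u

theorem h_zero {a b : ℝ} {h : E n → ℝ} (hh : Nm a b h) : h 0 = 0 := by
  have := hh.smul 0 0
  simpa using this

theorem h_neg {a b : ℝ} {h : E n → ℝ} (hh : Nm a b h) (u : E n) : h (-u) = h u := by
  have := hh.smul (-1) u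
  simpa using this

/-- on the orthogonal complement of the axis the norm is a multiple of the Euclidean norm -/
theorem perp {a b : ℝ} {h : E n → ℝ} (hh : Nm a b h) {e f : E n} (hR : RInv e h)
    (hf : ‖f‖ = 1) (hef : inner ℝ e f = (0 : ℝ)) {u : E n} (hu : inner ℝ e u = (0 : ℝ)) :
    h u = h f * ‖u‖ := by
  have hw : ‖‖u‖ • f‖ = ‖u‖ := by rw [norm_smul, hf, mul_one, norm_norm]
  have hmem : e ∈ (Submodule.span ℝ {‖u‖ • f - u})ᗮ := by
    rw [Submodule.mem_orthogonal_singleton_iff_inner_left, inner_sub_right, real_inner_smul_right,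
      hef, hu]
    simp
  have h1 := Submodule.reflection_sub hw
  have h2 := hR ((Submodule.span ℝ {‖u‖ • f - u})ᗮ.reflection)
    (Submodule.reflection_mem_subspace_eq_self hmem) (‖u‖ • f)
  rw [h1] at h2
  rw [h2, hh.smul, abs_of_nonneg (norm_nonneg _), mul_comm]

/-- bounds of a rotation invariant norm by its values on the axis and orthogonal to it -/
theorem bounds {a b : ℝ} {h : E n → ℝ} (hh : Nm a b h) {e f : E n} (hR : RInv e h)
    (hf : ‖f‖ = 1) (hef : inner ℝ e f = (0 : ℝ)) {s : ℝ} {u : E n} (hu : inner ℝ e u = (0 : ℝ)) :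
    h (s • e + u) ≤ |s| * h e + h f * ‖u‖ ∧ |s| * h e ≤ h (s • e + u) ∧
      h f * ‖u‖ ≤ h (s • e + u) := by
  have hue : inner ℝ u e = (0 : ℝ) := by rw [real_inner_comm]; exact hu
  have hρe : (Submodule.span ℝ {e}).reflection e = e :=
    Submodule.reflection_mem_subspace_eq_self (Submodule.mem_span_singleton_self e)
  have hρu : (Submodule.span ℝ {e}).reflection u = -u := by
    apply Submodule.reflection_mem_subspace_orthogonalComplement_eq_neg
    rw [Submodule.mem_orthogonal_singleton_iff_inner_right]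
    exact hu
  have hρ : h (s • e - u) = h (s • e + u) := by
    have := hR ((Submodule.span ℝ {e}).reflection) hρe (s • e + u)
    rw [map_add, map_smul, hρe, hρu] at this
    rw [← this, sub_eq_add_neg]
  have hse : h (s • e) = |s| * h e := hh.smul s e
  have hpu := perp hh hR hf hef hu
  refine ⟨?_, ?_, ?_⟩
  · rw [← hse, ← hpu]; exact hh.add _ _
  · have h1 : h ((2 : ℝ) • (s • e)) ≤ h (s • e + u) + h (s • e - u) := by
      have : (2 : ℝ) • (s • e) = (s • e + u) + (s • e - u) := by rw [two_smul]; abel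
      rw [this]; exact hh.add _ _
    rw [hh.smul, hρ, hse, abs_of_pos (by norm_num : (0 : ℝ) < 2)] at h1
    linarith
  · have h1 : h ((2 : ℝ) • u) ≤ h (s • e + u) + h (-(s • e - u)) := by
      have : (2 : ℝ) • u = (s • e + u) + (-(s • e - u)) := by rw [two_smul]; abel
      rw [this]; exact hh.add _ _
    rw [hh.smul, h_neg hh, hρ, hpu, abs_of_pos (by norm_num : (0 : ℝ) < 2)] at h1
    linarith

end NRM_

open NRM_ in
theorem p_NRM : T_NRM := by
  intro m h hm hN hR
  obtain ⟨a, b, ha, hh⟩ := hN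
  obtain ⟨k, rfl⟩ : ∃ k, m = k + 1 := ⟨m - 1, by omega⟩
  have he : ‖e0 (k + 1)‖ = 1 := by simp [e0]
  set e := e0 (k + 1) with hedef
  set f : E (k + 1 + 1) := EuclideanSpace.single 1 1 with hfdef
  have hf : ‖f‖ = 1 := by simp [hfdef]
  have hef : inner ℝ e f = (0 : ℝ) := by
    rw [hedef, hfdef, e0, EuclideanSpace.inner_single_left]
    simp
  have hee : inner ℝ e e = (1 : ℝ) := by rw [real_inner_self_eq_norm_sq, he]; norm_num
  have hx : 0 < h e := lt_of_lt_of_le (by rw [he, mul_one]; exact ha) (hh.lo e)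
  have hy : 0 < h f := lt_of_lt_of_le (by rw [hf, mul_one]; exact ha) (hh.lo f)
  have h2 : (0 : ℝ) < Real.sqrt 2 := Real.sqrt_pos.mpr (by norm_num)
  have h22 : Real.sqrt 2 * Real.sqrt 2 = 2 := Real.mul_self_sqrt (by norm_num)
  refine ⟨dgE e he (Real.sqrt 2 / h f) (Real.sqrt 2 / h e) (by positivity) (by positivity), ?_, ?_⟩
  · intro g hg u
    have h1 : inner ℝ e (g u) = (inner ℝ e u : ℝ) := by
      conv_lhs => rw [← hg]
      exact g.inner_map_map e u
    rw [dgE_apply, dgE_apply, h1, map_add, map_smul, map_smul, hg]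
  · intro u
    set s : ℝ := inner ℝ e u with hs
    set v : E (k + 1 + 1) := u - s • e with hv
    have hev : inner ℝ e v = (0 : ℝ) := by
      rw [hv, inner_sub_right, real_inner_smul_right, hee]; simp [hs]
    have hdec : dgE e he (Real.sqrt 2 / h f) (Real.sqrt 2 / h e) (by positivity) (by positivity) u =
        (Real.sqrt 2 / h e * s) • e + (Real.sqrt 2 / h f) • v := by
      rw [dgE_apply, hv, smul_sub, smul_smul, ← hs, sub_mul, sub_smul]
      abel
    have hev' : inner ℝ e ((Real.sqrt 2 / h f) • v) = (0 : ℝ) := by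
      rw [real_inner_smul_right, hev, mul_zero]
    obtain ⟨b1, b2, b3⟩ := bounds hh hR hf hef (s := Real.sqrt 2 / h e * s) hev'
    rw [← hdec] at b1 b2 b3
    have hnv : h f * ‖(Real.sqrt 2 / h f) • v‖ = Real.sqrt 2 * ‖v‖ := by
      rw [norm_smul, Real.norm_eq_abs, abs_of_pos (by positivity)]
      field_simp
    have hns : |Real.sqrt 2 / h e * s| * h e = Real.sqrt 2 * |s| := by
      rw [abs_mul, abs_of_pos (by positivity : 0 < Real.sqrt 2 / h e)]
      field_simp
    rw [hnv, hns] at b1
    rw [hns] at b2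
    rw [hnv] at b3
    have hpy : ‖u‖ ^ 2 = |s| ^ 2 + ‖v‖ ^ 2 := by
      have hu : u = s • e + v := by rw [hv]; abel
      have := norm_add_sq_real (s • e) v
      rw [← hu, real_inner_smul_left, hev, norm_smul, he, Real.norm_eq_abs] at this
      rw [this]; ring
    have hn0 := norm_nonneg u
    have hs0 := abs_nonneg s
    have hv0 := norm_nonneg v
    constructor
    · rcases le_total |s| ‖v‖ with hle | hle
      · refine le_trans ?_ b3
        apply le_of_sq_le_sq _ (by positivity)
        rw [hpy, mul_pow, Real.sq_sqrt (by norm_num)]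
        nlinarith
      · refine le_trans ?_ b2
        apply le_of_sq_le_sq _ (by positivity)
        rw [hpy, mul_pow, Real.sq_sqrt (by norm_num)]
        nlinarith
    · refine le_trans b1 ?_
      rw [← mul_add]
      apply le_of_sq_le_sq _ (by positivity)
      rw [mul_pow, mul_pow, hpy, Real.sq_sqrt (by norm_num)]
      nlinarith [sq_nonneg (|s| - ‖v‖)]

end Pool.Agent.PBC
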