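import Pool.Agent.PBC.Targets

/-!
# PBC: limit orbits

`T_ORB`: adapted from `exists_orbit` (`Pool/Agent/ProjBody/Chain.lean`).
-/

open MeasureTheory Module Set Filter Topology
open scoped Pointwise

namespace Pool.Agent.PBC
open Pool.Agent.ProjBody Pool.Agent.PBX

theorem p_ORB : T_ORB := by
  intro n _ hn f T a₀ b₀ hf ha₀ hT
  choose S hS using fun m => exchange_iter hn m (T m)
  let g : ℕ → E n → ℝ := fun m v => f m (S m v)
  have hg : ∀ m, IsN (g m) := fun m => (hf m).comp (S m)
  let A : ℕ → ℕ → E n → ℝ := fun m j => P^[m - j] (g m)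
  have hAN : ∀ m j, IsN (A m j) := fun m j => (hg m).Pit _
  have hA0 : ∀ m, A m 0 = fun u => (P^[m] (f m)) (T m u) := by
    intro m
    exact (hS m _ (hf m)).symm
  have hAP : ∀ m j, j < m → P (A m (j + 1)) = A m j := by
    intro m j hj
    show P (P^[m - (j + 1)] (g m)) = P^[m - j] (g m)
    have e : m - j = (m - (j + 1)) + 1 := by omega
    rw [e, Function.iterate_succ_apply']
  have hA0N : ∀ m, Nm a₀ b₀ (A m 0) := by
    intro m
    rw [hA0]
    exact hT m
  have hbd : ∀ j, ∃ a b : ℝ, 0 < a ∧ ∀ m, j ≤ m → Nm a b (A m j) := by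
    intro j
    induction j with
    | zero => exact ⟨a₀, b₀, ha₀, fun m _ => hA0N m⟩
    | succ j ih =>
      obtain ⟨a, b, ha, hab⟩ := ih
      have hb : 0 < b := (hab j le_rfl).b_nonneg ha
      obtain ⟨a', b', ha', hpre⟩ := preimage_bounds (n := n) hn ha hb
      refine ⟨a', b', ha', fun m hm => hpre _ (hAN _ _) ?_⟩
      rw [hAP m j hm]
      exact hab m (by omega)
  choose a b ha hab using hbd
  let l : Ultrafilter ℕ := Filter.hyperfilter ℕ
  have hev : ∀ j, ∀ᶠ m in (l : Filter ℕ), j ≤ m := fun j =>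
    (Filter.eventually_ge_atTop j).filter_mono Nat.hyperfilter_le_atTop
  have hlim : ∀ j u, ∃ x, Filter.Tendsto (fun m => A m j u) l (nhds x) := by
    intro j u
    have hmem : Icc (a j * ‖u‖) (b j * ‖u‖) ∈ l.map (fun m => A m j u) := by
      show _ ∈ (l : Filter ℕ).map (fun m => A m j u)
      rw [Filter.mem_map]
      filter_upwards [hev j] with m hm
      exact ⟨(hab j m hm).lo u, (hab j m hm).hi u⟩
    obtain ⟨x, _, hx⟩ := (isCompact_Icc (a := a j * ‖u‖) (b := b j * ‖u‖)).ultrafilter_le_nhds'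
      _ hmem
    exact ⟨x, hx⟩
  choose M hM using hlim
  have hNmM : ∀ j, Nm (a j) (b j) (M j) := fun j =>
    Nm.lim (by filter_upwards [hev j] with m hm using hab j m hm) (hM j)
  refine ⟨M, fun j => ⟨_, _, ha j, hNmM j⟩, ?_, ?_⟩
  · intro j
    funext u
    have e1 := P_lim (ha (j + 1)) (by filter_upwards [hev (j + 1)] with m hm using hab (j + 1) m hm)
      (hM (j + 1)) u
    have e2 : Filter.Tendsto (fun m => P (A m (j + 1)) u) l (nhds (M j u)) := by
      apply (hM j u).congr'
      filter_upwards [hev (j + 1)] with m hm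
      rw [hAP m j hm]
    exact tendsto_nhds_unique e1 e2
  · intro u
    have e := hM 0 u
    simp only [hA0] at e
    exact e

end Pool.Agent.PBC
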