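import Pool.Agent.PBC.Targets

/-!
# PBC: the projection body operator commutes with linear isometries
-/

set_option autoImplicit false

open MeasureTheory Module Set Filter Topology
open scoped Pointwise

namespace Pool.Agent.PBC
open Pool.Agent.ProjBody Pool.Agent.PBX

namespace PIS_

theorem bd_image {n : ℕ} (h : E n → ℝ) (g : E n ≃ₗᵢ[ℝ] E n) (hg : ∀ u, h (g u) = h u) :
    g '' Bd h = Bd h := by
  ext x
  constructor
  · rintro ⟨y, hy, rfl⟩ u
    have h1 : inner ℝ (g y) u = inner ℝ y (g.symm u) := by
      rw [← g.inner_map_map y (g.symm u), g.apply_symm_apply]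
    rw [h1]
    have h2 := hy (g.symm u)
    have h3 := hg (g.symm u)
    rw [g.apply_symm_apply] at h3
    rw [h3]
    exact h2
  · intro hx
    refine ⟨g.symm x, ?_, g.apply_symm_apply x⟩
    intro u
    have h1 : inner ℝ (g.symm x) u = inner ℝ x (g u) := by
      rw [← g.inner_map_map (g.symm x) u, g.apply_symm_apply]
    rw [h1, ← hg u]
    exact hx (g u)

theorem p_isom {n : ℕ} (h : E n → ℝ) (g : E n ≃ₗᵢ[ℝ] E n) (hg : ∀ u, h (g u) = h u) (u : E n) :
    P h (g u) = P h u := by
  have h1 := sw_isom g (Bd h) u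
  rw [bd_image h g hg] at h1
  exact h1

end PIS_

theorem p_PIS : T_PIS := by
  intro n _ h g hg k
  induction k with
  | zero => exact hg
  | succ k ih =>
    intro u
    rw [Function.iterate_succ_apply']
    exact PIS_.p_isom _ g ih u

end Pool.Agent.PBC
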