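import Pool.Agent.PBC.Targets

/-!
# SD2: a split norm has distance at least the square root of two from the Euclidean norm
-/

open MeasureTheory Module Set Filter Topology
open scoped Pointwise

namespace Pool.Agent.PBC
open Pool.Agent.ProjBody Pool.Agent.PBX

namespace SD2_

variable {n : ℕ}

theorem unit_in (T : E n ≃L[ℝ] E n) (U : Submodule ℝ (E n)) (hU : U ≠ ⊥) :
    ∃ a : E n, ‖a‖ = 1 ∧ T a ∈ U := by
  obtain ⟨x, hx, hx0⟩ := (Submodule.ne_bot_iff U).1 hU
  have h0 : T.symm x ≠ 0 := by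
    intro h
    apply hx0
    have := congrArg T h
    simpa using this
  have hn : ‖T.symm x‖ ≠ 0 := norm_ne_zero_iff.2 h0
  refine ⟨‖T.symm x‖⁻¹ • T.symm x, ?_, ?_⟩
  · rw [norm_smul, norm_inv, norm_norm, inv_mul_cancel₀ hn]
  · rw [map_smul, ContinuousLinearEquiv.apply_symm_apply]
    exact U.smul_mem _ hx

theorem near {h : E n → ℝ} {s : ℝ} (hs : NearF h s) (hS : Split h) : Real.sqrt 2 ≤ s := by
  obtain ⟨T, hT⟩ := hs
  obtain ⟨U, U', -, hU, hU', hadd⟩ := hS
  obtain ⟨a, ha, haU⟩ := unit_in T U hU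
  obtain ⟨b, hb, hbU⟩ := unit_in T U' hU'
  have h1 : 2 ≤ s * ‖a + b‖ := by
    have e : h (T (a + b)) = h (T a) + h (T b) := by
      rw [map_add]
      exact hadd _ haU _ hbU
    have := (hT (a + b)).2
    rw [e] at this
    have h2 := (hT a).1
    have h3 := (hT b).1
    rw [ha] at h2
    rw [hb] at h3
    linarith
  have h2 : 2 ≤ s * ‖a - b‖ := by
    have e : h (T (a - b)) = h (T a) + h (T (-b)) := by
      rw [sub_eq_add_neg, map_add]
      refine hadd _ haU _ ?_
      rw [map_neg]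
      exact U'.neg_mem hbU
    have := (hT (a - b)).2
    rw [e] at this
    have h2 := (hT a).1
    have h3 := (hT (-b)).1
    rw [ha] at h2
    rw [norm_neg, hb] at h3
    linarith
  have h3 : ‖a + b‖ ^ 2 + ‖a - b‖ ^ 2 = 4 := by
    have := parallelogram_law_with_norm ℝ a b
    rw [ha, hb] at this
    nlinarith
  have hs0 : 0 ≤ s := by
    by_contra hneg
    push Not at hneg
    have := norm_nonneg (a + b)
    nlinarith
  refine Real.sqrt_le_iff.2 ⟨hs0, ?_⟩
  have h4 : 4 ≤ (s * ‖a + b‖) ^ 2 := by nlinarith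
  have h5 : 4 ≤ (s * ‖a - b‖) ^ 2 := by nlinarith
  have h6 : (s * ‖a + b‖) ^ 2 + (s * ‖a - b‖) ^ 2 = s ^ 2 * 4 := by
    rw [← h3]; ring
  linarith

end SD2_

/-- A split norm has distance at least the square root of two. -/
theorem p_SD2 : T_SD2 := by
  intro n _ h hh hS
  exact le_csInf hh.near fun _ hs => SD2_.near hs hS

end Pool.Agent.PBC
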