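import Pool.Agent.PBC.Targets
import Pool.Agent.PBX.Targets

/-!
# PBC: target SPI (helper10)

Iterates of a norm which splits along `U`, `Uᗮ` split along `U`, `Uᗮ`.
-/

set_option autoImplicit false

open MeasureTheory Module Set Filter Topology
open scoped Pointwise

namespace Pool.Agent.PBC
open Pool.Agent.ProjBody Pool.Agent.PBX

theorem SPI_.main (h_AFW : Pool.Agent.PBX.T_AFW) (h_ZZ : Pool.Agent.PBX.T_ZZ) (m : ℕ)
    (ρ : Measure (E (m + 1))) (h : E (m + 1) → ℝ) (U : Submodule ℝ (E (m + 1)))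
    (hG : Gen ρ h) (hN : IsN h) (hA : Add2 U Uᗮ h) (k : ℕ) :
    (∃ ρ' : Measure (E (m + 1)), Gen ρ' (Pool.Agent.ProjBody.P^[k] h)) ∧
      (Add2 U Uᗮ (Pool.Agent.ProjBody.P^[k] h) ∨
        Add2 Uᗮ U (Pool.Agent.ProjBody.P^[k] h)) := by
  induction k with
  | zero => exact ⟨⟨ρ, hG⟩, Or.inl hA⟩
  | succ k ih =>
    obtain ⟨⟨ρ', hG'⟩, hA'⟩ := ih
    have hN' := hN.Pit k
    have hc : IsCompl U Uᗮ := Submodule.isCompl_orthogonal U
    rw [Function.iterate_succ_apply']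
    refine ⟨⟨nxt ρ', h_ZZ m ρ' _ hG' hN'⟩, ?_⟩
    rcases hA' with hA' | hA'
    · right
      have h1 := h_AFW (m + 1) ρ' _ U Uᗮ hG' hN' hc hA'
      rwa [Submodule.orthogonal_orthogonal] at h1
    · left
      have h1 := h_AFW (m + 1) ρ' _ Uᗮ U hG' hN' hc.symm hA'
      rwa [Submodule.orthogonal_orthogonal] at h1

theorem p_SPI (h_AFW : Pool.Agent.PBX.T_AFW) (h_ZZ : Pool.Agent.PBX.T_ZZ) : T_SPI := by
  intro n _ ρ h U hG hN hU hU' hA k
  obtain ⟨m, rfl⟩ : ∃ m, n = m + 1 := Nat.exists_eq_succ_of_ne_zero (NeZero.ne n)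
  have hc : IsCompl U Uᗮ := Submodule.isCompl_orthogonal U
  rcases (SPI_.main h_AFW h_ZZ m ρ h U hG hN hA k).2 with h1 | h1
  · exact ⟨U, Uᗮ, hc, hU, hU', h1⟩
  · exact ⟨Uᗮ, U, hc.symm, hU', hU, h1⟩

end Pool.Agent.PBC
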