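import Pool.Agent.PBC.Wire
import Pool.Agent.PBX.All
import Pool.Agent.PBC.P_FAM
import Pool.Agent.PBC.P_FCL
import Pool.Agent.PBC.P_FSD
import Pool.Agent.PBC.P_GEN
import Pool.Agent.PBC.P_PIS
import Pool.Agent.PBC.P_SPI
import Pool.Agent.PBC.P_SD2
import Pool.Agent.PBC.P_FDF
import Pool.Agent.PBC.P_FDC
import Pool.Agent.PBC.P_CTS
import Pool.Agent.PBC.P_LMD
import Pool.Agent.PBC.P_ORB
import Pool.Agent.PBC.P_MIR
import Pool.Agent.PBC.P_MIX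
import Pool.Agent.PBC.P_INC
import Pool.Agent.PBC.P_INB
import Pool.Agent.PBC.P_INI
import Pool.Agent.PBC.P_INR
import Pool.Agent.PBC.P_INQ
import Pool.Agent.PBC.P_GEO
import Pool.Agent.PBC.P_IRR
import Pool.Agent.PBC.P_COR
import Pool.Agent.PBC.P_NRM
import Pool.Agent.PBC.P_NCB
import Pool.Agent.PBC.P_ETA
import Pool.Agent.PBC.P_LEV
import Pool.Agent.PBC.P_LIO
import Pool.Agent.PBC.P_BOD

/-!
# PBC: assembly
-/

namespace Pool.Agent.PBC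
open Pool.Agent.ProjBody Pool.Agent.PBX

theorem main (n : ℕ) (hn : 3 ≤ n) (r : ℝ) (h1 : 1 < r) (h2 : r < Real.sqrt 2) :
    ∃ K : ℝ → Set (E n), (∀ c, OfEveryOrder (K c) ∧ IsSmooth (K c) ∧
      (∃ s, BallSandwich (K c) s) ∧ distToBall (K c) = r) ∧
      ∀ c d, c ≠ d → ¬ ∃ T : E n ≃L[ℝ] E n, K c = T '' K d :=
  wire p_FAM p_FCL p_FSD p_GEN p_PIS (p_SPI t_AFW t_ZZ) p_SD2 p_FDF p_FDC p_CTS p_LMD p_ORB p_MIR p_MIX p_INC
    p_INB p_INI p_INR p_INQ p_GEO p_IRR p_COR p_NRM p_NCB p_ETA p_LEV p_LIO p_BOD n hn r h1 h2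

end Pool.Agent.PBC
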