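import Pool.Agent.PBC.Targets2
import Pool.Agent.PBC.P_FSD
import Pool.Agent.PBC.P_LIO

/-!
# PBC: proof of `T_CVO` (limit orbit with the symmetries of the cube)
-/

open MeasureTheory Module Set Filter Topology
open scoped Pointwise

namespace Pool.Agent.PBC
open Pool.Agent.ProjBody Pool.Agent.PBX

namespace CVO_

/-- the norms on the path from the Euclidean norm to `l1` are invariant -/
theorem hp_CInv {n : ℕ} (t : ℝ) : CInv (hp t : E n → ℝ) := by
  intro g hg u
  unfold hp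
  rw [g.norm_map, FSD_.l1_inv g hg]

end CVO_

theorem p_CVO : T_CVO := by
  intro hPIS hNCB hORB hLMD hFDF n _ r hn h1 h2
  choose t ht htr using fun m => exists_path_point (n := n) m h1 h2
  have hN : ∀ k, IsN (hp (t k) : E n → ℝ) := fun k => isN_hp (ht k)
  have hC : ∀ k, CInv (P^[k] (hp (t k) : E n → ℝ)) := fun k g hg u =>
    hPIS n (hp (t k)) g (fun v => CVO_.hp_CInv (t k) g hg v) k u
  choose c hc hcb using fun k => hNCB n (P^[k] (hp (t k) : E n → ℝ)) ((hN k).Pit k) (hC k)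
  have hsm : ∀ k (u : E n), (P^[k] (hp (t k) : E n → ℝ)) (c k • u) =
      c k * (P^[k] (hp (t k) : E n → ℝ)) u := by
    intro k u
    obtain ⟨a, b, _, hh⟩ := (hN k).Pit k
    rw [hh.smul, abs_of_pos (hc k)]
  let T : ℕ → E n ≃L[ℝ] E n := fun k => scl (c k) (hc k).ne'
  have hT : ∀ k (u : E n), T k u = c k • u := fun k u => scl_apply (c k) (hc k).ne' u
  have hNm : ∀ k, Nm (1 : ℝ) (n : ℝ)
      (fun u => (P^[k] (hp (t k) : E n → ℝ)) (T k u)) := by
    intro k
    obtain ⟨a, b, _, hh⟩ := ((hN k).Pit k).comp (T k)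
    refine ⟨hh.add, hh.smul, ?_, ?_⟩
    · intro u
      show 1 * ‖u‖ ≤ (P^[k] (hp (t k) : E n → ℝ)) (T k u)
      rw [one_mul, hT, hsm]
      exact (hcb k u).1
    · intro u
      show (P^[k] (hp (t k) : E n → ℝ)) (T k u) ≤ n * ‖u‖
      rw [hT, hsm]
      exact (hcb k u).2
  obtain ⟨M, hMN, hMP, hMt⟩ := hORB n hn
    (fun k => (hp (t k) : E n → ℝ)) T 1 n hN one_pos hNm
  refine ⟨M, hMN, hMP, ?_, ?_⟩
  · exact LIO_.lim hLMD DF (hFDF n) (fun k => P^[k] (hp (t k))) T (M 0) 1 n r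
      one_pos hNm hMt htr
  · intro g hg u
    have e : (fun k => (P^[k] (hp (t k) : E n → ℝ)) (T k (g u))) =
        fun k => (P^[k] (hp (t k) : E n → ℝ)) (T k u) := by
      funext k
      rw [hT, hT, ← map_smul]
      exact hC k g hg (c k • u)
    have h3 := hMt (g u)
    have h4 := hMt u
    rw [e] at h3
    exact tendsto_nhds_unique h3 h4

end Pool.Agent.PBC
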