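import Pool.Agent.PBC.Targets2
import Pool.Agent.PBX.Targets2

/-!
# PBC, target SMC: smooth members with the symmetries of the cube at every distance
-/

set_option autoImplicit false

open MeasureTheory Module Set Filter Topology
open scoped Pointwise

namespace Pool.Agent.PBC
open Pool.Agent.ProjBody Pool.Agent.PBX

namespace SMC_

variable {n : ℕ}

theorem isProjectionBody_of_norm [NeZero n] {h : E n → ℝ} (hh : IsN h) :
    IsProjectionBody (Bd h) (Bd (P h)) := by
  have hP := hh.P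
  obtain ⟨a, b, ha, hN⟩ := hh
  obtain ⟨a', b', ha', hN'⟩ := hP
  refine ⟨Bd_isConvexBody ha hN, Bd_isConvexBody ha' hN', ?_⟩
  intro u hu
  rw [supportFn_Bd ha' hN']
  show sw (Bd h) u = _
  rw [sw_eq (Bd_compact ha hN) (Bd_convex h), hu, one_mul, brightness_eq_br _ hu]

theorem iterated_of_orbit [NeZero n] {M : ℕ → E n → ℝ} (hN : ∀ j, IsN (M j))
    (hM : ∀ j, P (M (j + 1)) = M j) (m : ℕ) :
    ∀ j, IsIteratedProjectionBody m (Bd (M (m + j))) (Bd (M j)) := by
  induction m with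
  | zero => intro j; simp [IsIteratedProjectionBody]
  | succ m ih =>
    intro j
    refine ⟨Bd (M (j + 1)), ?_, ?_⟩
    · have := ih (j + 1)
      have e : m + (j + 1) = m + 1 + j := by ring
      rwa [e] at this
    · have := isProjectionBody_of_norm (hN (j + 1))
      rwa [hM] at this

theorem ofEveryOrder_of_orbit [NeZero n] {M : ℕ → E n → ℝ} (hN : ∀ j, IsN (M j))
    (hM : ∀ j, P (M (j + 1)) = M j) : OfEveryOrder (Bd (M 0)) := by
  intro m _
  refine ⟨Bd (M m), ?_, ?_⟩
  · obtain ⟨a, b, ha, h⟩ := hN m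
    exact Bd_isConvexBody ha h
  · simpa using iterated_of_orbit hN hM m 0

theorem ballSandwich_iff [NeZero n] {h : E n → ℝ} (hh : IsN h) (s : ℝ) :
    BallSandwich (Bd h) s ↔ NearF h s := by
  have key : ∀ T : E n ≃L[ℝ] E n,
      (Metric.closedBall 0 1 ⊆ adj T '' Bd h ∧ adj T '' Bd h ⊆ Metric.closedBall 0 s) ↔
      ∀ u, ‖u‖ ≤ h (T u) ∧ h (T u) ≤ s * ‖u‖ := by
    intro T
    rw [← Bd_comp]
    obtain ⟨a, b, ha, hg⟩ := hh.comp T
    set g : E n → ℝ := fun u => h (T u) with hgdef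
    constructor
    · rintro ⟨h1, h2⟩ u
      constructor
      · rcases eq_or_ne u 0 with rfl | hu
        · rw [norm_zero]
          exact le_of_eq hg.zero.symm
        · have hu' : 0 < ‖u‖ := norm_pos_iff.2 hu
          have hx : ‖u‖⁻¹ • u ∈ Metric.closedBall (0 : E n) 1 := by
            rw [Metric.mem_closedBall, dist_zero_right, norm_smul, norm_inv, norm_norm,
              inv_mul_cancel₀ hu'.ne']
          have := h1 hx u
          rw [real_inner_smul_left, real_inner_self_eq_norm_sq, pow_two, ← mul_assoc,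
            inv_mul_cancel₀ hu'.ne', one_mul] at this
          exact this
      · obtain ⟨x, hx, hxu⟩ := exists_support ha hg u
        have hx2 := h2 hx
        rw [Metric.mem_closedBall, dist_zero_right] at hx2
        calc g u = inner ℝ x u := hxu.symm
          _ ≤ ‖x‖ * ‖u‖ := real_inner_le_norm _ _
          _ ≤ s * ‖u‖ := by gcongr
    · intro h1
      constructor
      · exact ball_subset_Bd fun u => by rw [one_mul]; exact (h1 u).1
      · have hs : 0 ≤ s := by
          have : 1 ≤ s := NearF.one_le (h := h) ⟨T, h1⟩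
          linarith
        exact Bd_subset_ball hs fun u => (h1 u).2
  constructor
  · rintro ⟨T, hT⟩
    refine ⟨adj T, (key (adj T)).1 ?_⟩
    rw [adj_adj]
    exact hT
  · rintro ⟨T, hT⟩
    exact ⟨adj T, (key T).2 hT⟩

theorem distToBall_Bd [NeZero n] {h : E n → ℝ} (hh : IsN h) : distToBall (Bd h) = DF h := by
  unfold distToBall DF
  congr 1
  ext s
  exact ballSandwich_iff hh s


theorem iter {M : ℕ → E n → ℝ} (hM : ∀ j, P (M (j + 1)) = M j) (m : ℕ) :
    ∀ j, P^[m] (M (m + j)) = M j := by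
  induction m with
  | zero => intro j; simp
  | succ m ih =>
    intro j
    rw [Function.iterate_succ_apply', show m + 1 + j = m + (j + 1) by ring, ih (j + 1), hM]

theorem cls [NeZero n] {M : ℕ → E n → ℝ} (hN : ∀ j, IsN (M j))
    (hM : ∀ j, P (M (j + 1)) = M j) : Cls (M 0) :=
  ⟨hN 0, fun m => ⟨M m, hN m, 1, one_pos, fun u => by
    rw [one_mul]
    have := iter hM m 0
    rw [add_zero] at this
    rw [this]⟩⟩

theorem image_Bd {h : E n → ℝ} (hC : CInv h) {g : E n ≃ₗᵢ[ℝ] E n} (hg : CubeSym g) :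
    g '' Bd h = Bd h := by
  ext y
  constructor
  · rintro ⟨x, hx, rfl⟩ u
    have h1 : inner ℝ (g x) u = inner ℝ x (g.symm u) := by
      rw [← g.inner_map_map x (g.symm u), g.apply_symm_apply]
    rw [h1]
    have h2 := hC g hg (g.symm u)
    rw [g.apply_symm_apply] at h2
    rw [h2]
    exact hx _
  · intro hy
    refine ⟨g.symm y, fun u => ?_, g.apply_symm_apply y⟩
    have h1 : inner ℝ (g.symm y) u = inner ℝ y (g u) := by
      rw [← g.inner_map_map (g.symm y) u, g.apply_symm_apply]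
    rw [h1, ← hC g hg u]
    exact hy _

theorem not_directSum [NeZero n] {h : E n → ℝ} (hN : IsN h) (hS : Strict h) :
    ¬ IsDirectSum (Bd h) := by
  rintro ⟨V, W, hVW, hV, hW, A, B, hA, hB, hK⟩
  obtain ⟨a0, b0, ha0, hNm⟩ := hN
  have hWt : W ≠ ⊤ := by
    rintro rfl
    apply hV
    have := hVW.disjoint
    rwa [disjoint_top] at this
  have hVt : V ≠ ⊤ := by
    rintro rfl
    apply hW
    have := hVW.disjoint
    rwa [top_disjoint] at this
  have hWo : Wᗮ ≠ ⊥ := fun h => hWt ((Submodule.orthogonal_eq_bot_iff).1 h)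
  have hVo : Vᗮ ≠ ⊥ := fun h => hVt ((Submodule.orthogonal_eq_bot_iff).1 h)
  obtain ⟨u, hu, hu0⟩ := Submodule.exists_mem_ne_zero_of_ne_bot hWo
  obtain ⟨u', hu', hu0'⟩ := Submodule.exists_mem_ne_zero_of_ne_bot hVo
  obtain ⟨x, hx, hxu⟩ := exists_support ha0 hNm u
  obtain ⟨x', hx', hxu'⟩ := exists_support ha0 hNm u'
  rw [hK] at hx hx'
  obtain ⟨a, ha, b, hb, rfl⟩ := hx
  obtain ⟨a', ha', b', hb', rfl⟩ := hx'
  have e1 : inner ℝ b u = 0 := (Submodule.mem_orthogonal W u).1 hu b (hB hb)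
  have e2 : inner ℝ b' u = 0 := (Submodule.mem_orthogonal W u).1 hu b' (hB hb')
  have e3 : inner ℝ a u' = 0 := (Submodule.mem_orthogonal V u').1 hu' a (hA ha)
  have e4 : inner ℝ a' u' = 0 := (Submodule.mem_orthogonal V u').1 hu' a' (hA ha')
  have hy : a + b' ∈ Bd h := by
    rw [hK]
    exact ⟨a, ha, b', hb', rfl⟩
  have h1 := hy (u + u')
  rw [inner_add_left, inner_add_right, inner_add_right, e2, e3] at h1
  rw [inner_add_left, e1] at hxu
  rw [inner_add_left, e4] at hxu'
  have h2 := hNm.add u u'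
  have h3 : h (u + u') = h u + h u' := le_antisymm h2 (by linarith)
  obtain ⟨c, hc, hcu⟩ := hS u u' hu0 hu0' h3
  apply hu0'
  have h4 : u' ∈ Wᗮ := by
    rw [hcu]
    exact Submodule.smul_mem _ c hu
  have h5 : u' ∈ (V ⊔ W)ᗮ := by
    rw [← Submodule.inf_orthogonal]
    exact ⟨hu', h4⟩
  rw [hVW.sup_eq_top, Submodule.top_orthogonal_eq_bot] at h5
  exact (Submodule.mem_bot ℝ).1 h5

end SMC_

/-- Target SMC. -/
theorem p_SMC (hMNA : T_MNA) (hBBB : T_BBB) (hSMO : T_SMO) : T_SMC := by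
  intro hSPC hSPL hCVO n r hn h1 h2
  have : NeZero n := ⟨by omega⟩
  obtain ⟨M, hN, hM, hr, hC⟩ := hCVO n r (by omega) h1 h2
  have hd : distToBall (Bd (M 0)) = r := by rw [SMC_.distToBall_Bd (hN 0), hr]
  have hne : ∃ s, BallSandwich (Bd (M 0)) s := by
    obtain ⟨s, hs⟩ := (hN 0).near
    exact ⟨s, (SMC_.ballSandwich_iff (hN 0) s).2 hs⟩
  refine ⟨Bd (M 0), SMC_.ofEveryOrder_of_orbit hN hM, hne, hd,
    fun g hg => SMC_.image_Bd hC hg, ?_, ?_⟩
  · rintro hr1 ⟨T, hT⟩
    have hbs : BallSandwich (Bd (M 0)) 1 := by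
      refine ⟨T.symm, ?_, ?_⟩
      · rw [hT, ← image_comp]; simp
      · rw [hT, ← image_comp]; simp
    have := DF_le ((SMC_.ballSandwich_iff (hN 0) 1).1 hbs)
    rw [hr] at this
    linarith
  · intro hr2
    have hst : Strict (M 0) := by
      rcases hMNA n (M 0) hn (SMC_.cls hN hM) with h | h
      · exfalso
        obtain ⟨ρ, hρ⟩ := hBBB n (M 1) (hN 1)
        rw [hM 0] at hρ
        obtain ⟨c, hc, hcl⟩ := hSPC hSPL n ρ (M 0) hn hρ (hN 0) hC h
        rw [hcl, DF_l1 hc] at hr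
        linarith
      · exact h
    exact ⟨(hSMO n (M 0) (hN 0)).2 hst, SMC_.not_directSum (hN 0) hst⟩

end Pool.Agent.PBC
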