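import Pool.Agent.PBC.Targets2
import Pool.Agent.PBX.P_SUP
import Pool.Agent.PBX.P_NEG
import Pool.Agent.PBX.P_ADS

/-!
# PBC: a norm with the symmetries of the cube which splits is a multiple of the `l1` norm
-/

open MeasureTheory Module Set Filter Topology
open scoped Pointwise

namespace Pool.Agent.PBC
open Pool.Agent.ProjBody Pool.Agent.PBX

namespace SPC_

/-- the exchange of two coordinates -/
noncomputable def sw {n : ℕ} (i j : Fin n) : E n ≃ₗᵢ[ℝ] E n :=
  LinearIsometryEquiv.piLpCongrLeft 2 ℝ ℝ (Equiv.swap i j)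

theorem sw_single {n : ℕ} (i j k : Fin n) :
    sw i j (EuclideanSpace.single k 1) = EuclideanSpace.single (Equiv.swap i j k) 1 := by
  unfold sw
  exact LinearIsometryEquiv.piLpCongrLeft_single _ _ _

theorem sw_sym {n : ℕ} (i j : Fin n) : CubeSym (sw i j) := fun k =>
  ⟨Equiv.swap i j k, Or.inl (sw_single i j k)⟩

theorem map_symm {n : ℕ} {ρ : Measure (E n)} {h : E n → ℝ} (hG : Gen ρ h) (hC : CInv h)
    {U U' : Submodule ℝ (E n)} (hadd : Add2 U U' h) {w : E n} (hw : w ∈ ρ.support)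
    (g : E n ≃ₗᵢ[ℝ] E n) (hg : CubeSym g) : g w ∈ Uᗮ ∨ g w ∈ U'ᗮ := by
  have hinv : ∀ u, h (g.symm u) = h u := fun u => by
    have h1 := hC g hg (g.symm u)
    rw [LinearIsometryEquiv.apply_symm_apply] at h1
    exact h1.symm
  have h2 : Add2 (U.map (g.symm.toLinearEquiv : E n →ₗ[ℝ] E n))
      (U'.map (g.symm.toLinearEquiv : E n →ₗ[ℝ] E n)) h := by
    rintro _ ⟨a, ha, rfl⟩ _ ⟨b, hb, rfl⟩
    rw [← map_add]
    change h (g.symm (a + b)) = h (g.symm a) + h (g.symm b)
    rw [hinv, hinv, hinv]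
    exact hadd a ha b hb
  have hflip : ∀ (X : Submodule ℝ (E n)),
      w ∈ (X.map (g.symm.toLinearEquiv : E n →ₗ[ℝ] E n))ᗮ → g w ∈ Xᗮ := by
    intro X hX
    rw [Submodule.mem_orthogonal] at hX ⊢
    intro a ha
    have h3 : (inner ℝ (g.symm a) w : ℝ) = 0 := hX _ ⟨a, ha, rfl⟩
    rw [← LinearIsometryEquiv.inner_map_map g, LinearIsometryEquiv.apply_symm_apply] at h3
    exact h3
  rcases ((p_ADS p_NEG) n ρ h _ _ hG).1 h2 w hw with h4 | h4
  · exact Or.inl (hflip U h4)
  · exact Or.inr (hflip U' h4)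

theorem ie {n : ℕ} (i : Fin n) (w : E n) :
    (inner ℝ (EuclideanSpace.single i (1 : ℝ)) w : ℝ) = w i := by
  rw [EuclideanSpace.inner_single_left]
  simp

end SPC_

open SPC_

theorem p_SPC : T_SPC := by
  intro hSPL n _ ρ h hn hG hN hC hS
  obtain ⟨U, U', hc, hU, hU', hadd⟩ := hS
  have := hG.fin
  have hbot : Uᗮ ⊓ U'ᗮ = ⊥ := by
    rw [Submodule.inf_orthogonal, hc.sup_eq_top, Submodule.top_orthogonal_eq_bot]
  have hUt : Uᗮ ≠ ⊤ := fun h0 => hU ((Submodule.orthogonal_eq_top_iff _).1 h0)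
  have hUt' : U'ᗮ ≠ ⊤ := fun h0 => hU' ((Submodule.orthogonal_eq_top_iff _).1 h0)
  have hax : ∀ w ∈ ρ.support, ∃ (i : Fin n) (c : ℝ), w = c • EuclideanSpace.single i 1 :=
    fun w hw => hSPL n Uᗮ U'ᗮ w hn hbot hUt hUt' fun g hg => map_symm hG hC hadd hw g hg
  have hae : ∀ᵐ w ∂ρ, w ∈ ρ.support := (p_SUP n ρ).1
  have hint : ∀ i : Fin n, Integrable (fun w : E n => |w i|) ρ := by
    intro i
    have h1 := PBX.ADS_.int_abs hG (EuclideanSpace.single i (1 : ℝ))
    refine h1.congr (Filter.Eventually.of_forall fun w => ?_)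
    change |(inner ℝ (EuclideanSpace.single i (1 : ℝ)) w : ℝ)| = |w i|
    rw [ie]
  have hei : ∀ i : Fin n, h (EuclideanSpace.single i 1) = ∫ w : E n, |w i| ∂ρ := by
    intro i
    rw [hG.eq]
    refine integral_congr_ae (Filter.Eventually.of_forall fun w => ?_)
    change |(inner ℝ (EuclideanSpace.single i (1 : ℝ)) w : ℝ)| = |w i|
    rw [ie]
  have heq : ∀ i : Fin n, h (EuclideanSpace.single i 1) = h (EuclideanSpace.single 0 1) := by
    intro i
    have h1 := hC (sw 0 i) (sw_sym 0 i) (EuclideanSpace.single 0 1)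
    rw [sw_single, Equiv.swap_apply_left] at h1
    exact h1
  have hpos : 0 < h (EuclideanSpace.single 0 1) := by
    obtain ⟨a, b, ha, hab⟩ := hN
    have h1 := hab.lo (EuclideanSpace.single (0 : Fin n) (1 : ℝ))
    have h2 : ‖(EuclideanSpace.single (0 : Fin n) (1 : ℝ) : E n)‖ = 1 := by simp
    rw [h2] at h1
    linarith
  refine ⟨h (EuclideanSpace.single 0 1), hpos, ?_⟩
  funext u
  have h1 : h u = ∫ w : E n, ∑ i, |u i| * |w i| ∂ρ := by
    rw [hG.eq]
    refine integral_congr_ae ?_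
    filter_upwards [hae] with w hw
    obtain ⟨i, c, rfl⟩ := hax w hw
    rw [inner_smul_right, EuclideanSpace.inner_single_right, abs_mul]
    rw [Finset.sum_eq_single i]
    · simp
      ring
    · intro j _ hj
      simp [hj]
    · intro hi
      exact absurd (Finset.mem_univ i) hi
  rw [h1, integral_finset_sum _ fun i _ => (hint i).const_mul _]
  unfold l1
  rw [Finset.mul_sum]
  refine Finset.sum_congr rfl fun i _ => ?_
  rw [integral_const_mul, ← hei i, heq i]
  ring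

end Pool.Agent.PBC
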