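import Pool.Agent.PBC.P_SPL
import Pool.Agent.PBC.P_SPC
import Pool.Agent.PBC.P_CVO
import Pool.Agent.PBC.P_SMC
import Pool.Agent.PBC.P_PIS
import Pool.Agent.PBC.P_NCB
import Pool.Agent.PBC.P_ORB
import Pool.Agent.PBC.P_LMD
import Pool.Agent.PBC.P_FDF
import Pool.Agent.PBX.All

/-!
# PBC: assembly of the second group, smooth members with the symmetries of the cube
-/

namespace Pool.Agent.PBC
open Pool.Agent.ProjBody Pool.Agent.PBX

theorem main2 (n : ℕ) (r : ℝ) (hn : 3 ≤ n) (h1 : 1 ≤ r) (h2 : r ≤ Real.sqrt n) :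
    ∃ K : Set (E n), OfEveryOrder K ∧ (∃ s, BallSandwich K s) ∧
    distToBall K = r ∧ (∀ g : E n ≃ₗᵢ[ℝ] E n, CubeSym g → g '' K = K) ∧ (1 < r → ¬ IsEllipsoid K) ∧
    (r < Real.sqrt n → IsSmooth K ∧ ¬ IsDirectSum K) :=
  p_SMC t_MNA t_BBB t_SMO p_SPC p_SPL (p_CVO p_PIS p_NCB p_ORB p_LMD p_FDF) n r hn h1 h2

end Pool.Agent.PBC
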