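import Pool.Agent.PBC.Targets2

/-!
# PBC: high iterates are close to the class, uniformly

`T_AT2`: for every `ε > 0` there is `m₀` such that every `m`-th iterate, `m ≥ m₀`, is after a linear
change of variables between `h` and `(1 + ε) h` for some `h` in the class.
-/

open MeasureTheory Module Set Filter Topology
open scoped Pointwise

namespace Pool.Agent.PBC
open Pool.Agent.ProjBody Pool.Agent.PBX

namespace AT2_

theorem iter_eq {n : ℕ} {M : ℕ → E n → ℝ} (hM : ∀ j, P (M (j + 1)) = M j) (m : ℕ) :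
    P^[m] (M m) = M 0 := by
  induction m with
  | zero => rfl
  | succ m ih => rw [Function.iterate_succ_apply, hM m, ih]

end AT2_

theorem p_AT2 : T_AT2 := by
  intro hORB n _ ε hn hε
  by_contra hcon
  push Not at hcon
  choose m hm g hg hno using hcon
  let f : ℕ → E n → ℝ := fun k => P^[m k - k] (g k)
  have hf : ∀ k, IsN (f k) := fun k => (hg k).Pit _
  have hfk : ∀ k, P^[k] (f k) = P^[m k] (g k) := by
    intro k
    show P^[k] (P^[m k - k] (g k)) = _
    rw [← Function.iterate_add_apply, Nat.add_sub_cancel' (hm k)]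
  have hT : ∀ k, ∃ T : E n ≃L[ℝ] E n, ∀ u, ‖u‖ ≤ (P^[k] (f k)) (T u) ∧
      (P^[k] (f k)) (T u) ≤ (n : ℝ) * ‖u‖ := fun k => near_auerbach ((hf k).Pit k)
  choose T hT using hT
  have hNm : ∀ k, Nm 1 (n : ℝ) (fun u => (P^[k] (f k)) (T k u)) := by
    intro k
    obtain ⟨a', b', _, hab'⟩ := (((hf k).Pit k).comp (T k))
    exact ⟨hab'.add, hab'.smul, fun u => by rw [one_mul]; exact (hT k u).1, fun u => (hT k u).2⟩
  obtain ⟨M, hM, hPM, hlim⟩ := hORB n hn f T 1 n hf one_pos hNm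
  have hM0 : Nm 1 (n : ℝ) (M 0) := Nm.lim (Filter.Eventually.of_forall hNm) hlim
  set δ : ℝ := ε / (2 + ε) with hδ
  have h2 : (0 : ℝ) < 2 + ε := by linarith
  have hδ0 : 0 < δ := div_pos hε h2
  have hδ1 : 0 < 1 - δ := by
    rw [hδ, sub_pos, div_lt_one h2]
    linarith
  have heq : 1 + δ = (1 + ε) * (1 - δ) := by
    rw [hδ]
    field_simp
    ring
  obtain ⟨k, hk⟩ :=
    (unif_close one_pos (Filter.Eventually.of_forall hNm) hM0 hlim hδ0).exists
  refine hno k (fun u => (1 - δ) * M 0 u) ?_ ⟨T k, fun u => ?_⟩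
  · refine ⟨⟨_, _, by positivity, hM0.scale hδ1⟩, fun j => ⟨M j, hM j, 1 - δ, hδ1, fun u => ?_⟩⟩
    rw [AT2_.iter_eq hPM j]
  · rw [← hfk]
    refine ⟨(hk u).1, (hk u).2.trans (le_of_eq ?_)⟩
    rw [heq, mul_assoc]

end Pool.Agent.PBC
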