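import Pool.Agent.PBC.Targets2
import Pool.Agent.PBX.P_CSC
import Pool.Agent.PBX.P_SFN
import Pool.Agent.PBX.P_PBC
import Pool.Agent.PBX.P_PBP
import Pool.Agent.PBX.P_OEO

/-!
# PBC: ATR, the class is the uniform attractor (assembly)
-/

open MeasureTheory Module Set Filter Topology
open scoped Pointwise

namespace Pool.Agent.PBC
open Pool.Agent.ProjBody Pool.Agent.PBX

namespace ATR_

theorem oeo : PBX.T_OEO := p_OEO p_SFN p_PBC (p_PBP p_SFN p_PBC) p_CSC

variable {n : ℕ} {K : Set (E n)}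

/-- a centred convex body is contained in its dilates -/
theorem subset_dil (hK : IsConvexBody K) (hs : ∀ x ∈ K, -x ∈ K) {ε : ℝ} (hε : 0 < ε) :
    K ⊆ (1 + ε) • K := by
  intro x hx
  have h1 : (0 : ℝ) < 1 + ε := by positivity
  refine ⟨(1 + ε)⁻¹ • x, ?_, ?_⟩
  · refine hK.2.1.smul_mem_of_zero_mem
      (interior_subset (SFN_.zero_mem_interior hK hs)) hx ⟨by positivity, ?_⟩
    exact inv_le_one_of_one_le₀ (by linarith)
  · show (1 + ε) • ((1 + ε)⁻¹ • x) = x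
    rw [smul_smul, mul_inv_cancel₀ h1.ne', one_smul]

/-- a closed set which is nearly centred is centred -/
theorem centred (hK : IsConvexBody K)
    (h : ∀ ε : ℝ, 0 < ε → ∃ L' : Set (E n), (∀ x ∈ L', -x ∈ L') ∧
      ∃ T : E n ≃L[ℝ] E n, K ⊆ T '' L' ∧ T '' L' ⊆ (1 + ε) • K) : ∀ x ∈ K, -x ∈ K := by
  intro x hx
  have h1 : ∀ ε : ℝ, 0 < ε → (1 + ε)⁻¹ • (-x) ∈ K := by
    intro ε hε
    obtain ⟨L', hc, T, h1, h2⟩ := h ε hε
    obtain ⟨y, hy, hyx⟩ := h1 hx
    obtain ⟨z, hz, hzx⟩ := h2 ⟨-y, hc y hy, rfl⟩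
    have h3 : (0 : ℝ) < 1 + ε := by positivity
    have h4 : (1 + ε) • z = -x := by
      have h5 : (1 + ε) • z = T (-y) := hzx
      rw [h5, map_neg, ← hyx]
    rw [← h4, smul_smul, inv_mul_cancel₀ h3.ne', one_smul]
    exact hz
  have h2 : Tendsto (fun k : ℕ => (1 + 1 / ((k : ℝ) + 1))⁻¹ • (-x)) atTop (𝓝 (-x)) := by
    have h3 : Tendsto (fun k : ℕ => (1 + 1 / ((k : ℝ) + 1))⁻¹) atTop (𝓝 ((1 + 0)⁻¹)) := by
      refine Tendsto.inv₀ (tendsto_const_nhds.add tendsto_one_div_add_atTop_nhds_zero_nat) ?_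
      norm_num
    have h4 := h3.smul_const (-x)
    simpa using h4
  exact hK.1.isClosed.mem_of_tendsto h2
    (Eventually.of_forall fun k => h1 _ (by positivity))

end ATR_

open ATR_ in
theorem p_ATR : T_ATR := by
  intro hITN hNRS hAT1 hAT2 n hn
  have : NeZero n := ⟨by omega⟩
  obtain ⟨hI1, hI2⟩ := hITN n hn
  refine ⟨?_, ?_⟩
  · intro K hK
    constructor
    · intro hO m ε hm hε
      obtain ⟨K', hK', hit⟩ := hO m hm
      refine ⟨K', K, hK', hit, ContinuousLinearEquiv.refl ℝ (E n), ?_, ?_⟩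
      · intro x hx
        exact ⟨x, hx, rfl⟩
      · have hc : ∀ x ∈ K, -x ∈ K := ((oeo n K hn).1 hO).2.1
        rintro _ ⟨x, hx, rfl⟩
        exact subset_dil hK hc hε hx
    · intro h
      have hc : ∀ x ∈ K, -x ∈ K := by
        refine centred hK fun ε hε => ?_
        obtain ⟨L, L', -, hit, T, h1, h2⟩ := h 1 ε le_rfl hε
        exact ⟨L', (hI1 0 L L' hit).2.1, T, h1, h2⟩
      refine (oeo n K hn).2 ⟨hK, hc, hAT1 n (supportFn K) hn (p_SFN n K hK hc).1 ?_⟩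
      intro m ε hε
      obtain ⟨L, L', -, hit, T, h1, h2⟩ := h (m + 1) ε (by omega) hε
      obtain ⟨hL', hc', g, hg, hgL⟩ := hI1 m L L' hit
      refine ⟨g, hg, ?_⟩
      have h3 := (hNRS n K L' ε hK hc hL' hc' hε).1 ⟨T, h1, h2⟩
      rwa [show supportFn L' = P^[m] g from funext hgL] at h3
  · intro ε hε
    obtain ⟨m₀, hm₀⟩ := hAT2 n ε hn hε
    refine ⟨m₀ + 1, ?_⟩
    intro m hm L L' _ hit
    obtain ⟨m', rfl⟩ : ∃ m', m = m' + 1 := ⟨m - 1, by omega⟩
    obtain ⟨hL', hc', g, hg, hgL⟩ := hI1 m' L L' hit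
    obtain ⟨h, hC, hN⟩ := hm₀ m' (by omega) g hg
    obtain ⟨a, b, ha, hab⟩ := hC.1
    have hB : IsConvexBody (Bd h) := Bd_isConvexBody ha hab
    have hsf : supportFn (Bd h) = h := funext (supportFn_Bd ha hab)
    have hBc : ∀ x ∈ Bd h, -x ∈ Bd h := by
      intro x hx u
      have h1 := hx (-u)
      rw [inner_neg_right] at h1
      rw [inner_neg_left]
      have h2 : h (-u) = h u := by
        have h3 := hab.smul (-1) u
        simpa using h3
      rwa [h2] at h1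
    refine ⟨Bd h, (oeo n (Bd h) hn).2 ⟨hB, hBc, ?_⟩, ?_⟩
    · rw [hsf]
      exact hC
    · refine (hNRS n (Bd h) L' ε hB hBc hL' hc' hε).2 ?_
      rw [hsf, show supportFn L' = P^[m'] g from funext hgL]
      exact hN

end Pool.Agent.PBC
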