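import Pool.Agent.PBC.Targets2
import Pool.Agent.PBX.P_SFN
import Pool.Agent.PBX.P_PBC
import Pool.Agent.PBX.P_PBP
import Pool.Agent.PBX.P_OEO

/-!
# PBC: ITN, iterated projection bodies and the iterates of the operator `P` on norms
-/

open MeasureTheory Module Set Filter Topology
open scoped Pointwise

namespace Pool.Agent.PBC
open Pool.Agent.ProjBody Pool.Agent.PBX

namespace ITN_

variable {n : ℕ}

/-- an iterate of order at least one is a centred convex body whose support function is an iterate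
of a norm -/
theorem forward [NeZero n] (m : ℕ) (L L' : Set (E n))
    (h : IsIteratedProjectionBody (m + 1) L L') :
    IsConvexBody L' ∧ (∀ x ∈ L', -x ∈ L') ∧ ∃ g, IsN g ∧ ∀ u, supportFn L' u = (P^[m] g) u := by
  have hPBP : PBX.T_PBP := p_PBP p_SFN p_PBC
  obtain ⟨M, hM⟩ := OEO_.last m L L' h
  obtain ⟨M₁, h1, h2⟩ := OEO_.support_iter p_PBC hPBP m L L' h
  have hc : ∀ x ∈ M₁, -x ∈ M₁ := p_PBC n L M₁ h1
  refine ⟨hM.2.1, p_PBC n M L' hM, supportFn M₁, (p_SFN n M₁ h1.2.1 hc).1, fun u => ?_⟩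
  rw [h2]

/-- the bodies of the orbit of a norm are the iterated projection bodies -/
theorem backward [NeZero n] (m : ℕ) (g : E n → ℝ) (hg : IsN g) :
    IsConvexBody (Bd g) ∧ IsIteratedProjectionBody m (Bd g) (Bd (P^[m] g)) := by
  refine ⟨?_, OEO_.iterated hg m⟩
  obtain ⟨a, b, ha, h⟩ := hg
  exact Bd_isConvexBody ha h

end ITN_

theorem p_ITN : T_ITN := fun _ _ _ => ⟨ITN_.forward, ITN_.backward⟩

end Pool.Agent.PBC
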