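import Pool.Agent.PBC.Targets2
import Pool.Agent.PBX.P_SFN

/-!
# PBC: NRS, nearness for bodies and norms
-/

set_option autoImplicit false

open MeasureTheory Module Set Filter Topology
open scoped Pointwise

namespace Pool.Agent.PBC
open Pool.Agent.ProjBody Pool.Agent.PBX

namespace NRS_

theorem bd_subset {n : ℕ} {h h' : E n → ℝ} (hh : IsN h) :
    Bd h ⊆ Bd h' ↔ ∀ u, h u ≤ h' u := by
  constructor
  · intro hs u
    obtain ⟨a, b, ha, hN⟩ := hh
    obtain ⟨x, hx, hxu⟩ := exists_support ha hN u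
    rw [← hxu]
    exact hs hx u
  · exact Bd_mono

end NRS_

/-- NRS. -/
theorem p_NRS : T_NRS := by
  intro n _ K L ε hK hKs hL hLs hε
  obtain ⟨hN, hB⟩ := p_SFN n K hK hKs
  obtain ⟨hN', hB'⟩ := p_SFN n L hL hLs
  have hpos : (0 : ℝ) < 1 + ε := by positivity
  have hsc : (1 + ε) • K = Bd (fun u => (1 + ε) * supportFn K u) := by
    rw [Bd_scale hpos, hB]
  have himg : ∀ T : E n ≃L[ℝ] E n, adj T '' L = Bd (fun u => supportFn L (T u)) := by
    intro T
    rw [Bd_comp, hB']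
  have key : ∀ T : E n ≃L[ℝ] E n, (K ⊆ adj T '' L ∧ adj T '' L ⊆ (1 + ε) • K) ↔
      ∀ u, supportFn K u ≤ supportFn L (T u) ∧ supportFn L (T u) ≤ (1 + ε) * supportFn K u := by
    intro T
    have h1 : K ⊆ adj T '' L ↔ ∀ u, supportFn K u ≤ supportFn L (T u) := by
      rw [himg T]
      have := NRS_.bd_subset (h' := fun u => supportFn L (T u)) hN
      rwa [hB] at this
    have h2 : adj T '' L ⊆ (1 + ε) • K ↔
        ∀ u, supportFn L (T u) ≤ (1 + ε) * supportFn K u := by
      rw [himg T, hsc]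
      exact NRS_.bd_subset (hN'.comp T)
    rw [h1, h2]
    exact forall_and.symm
  constructor
  · rintro ⟨T, hT⟩
    refine ⟨adj T, (key (adj T)).1 ?_⟩
    rw [adj_adj]
    exact hT
  · rintro ⟨T, hT⟩
    exact ⟨adj T, (key T).2 hT⟩

end Pool.Agent.PBC
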