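import Pool.Agent.PBC.P_AT1
import Pool.Agent.PBC.P_AT2
import Pool.Agent.PBC.P_ITN
import Pool.Agent.PBC.P_NRS
import Pool.Agent.PBC.P_ATR
import Pool.Agent.PBC.P_ORB

/-!
# PBC: assembly of the second group, the class is the uniform attractor
-/

open scoped Pointwise

namespace Pool.Agent.PBC
open Pool.Agent.ProjBody Pool.Agent.PBX

theorem main3 (n : ℕ) (hn : 2 ≤ n) :
    (∀ K : Set (E n), IsConvexBody K → (OfEveryOrder K ↔ ∀ (m : ℕ) (ε : ℝ), 1 ≤ m → 0 < ε →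
      ∃ L L' : Set (E n), IsConvexBody L ∧ IsIteratedProjectionBody m L L' ∧
        ∃ T : E n ≃L[ℝ] E n, K ⊆ T '' L' ∧ T '' L' ⊆ (1 + ε) • K)) ∧
    ∀ ε : ℝ, 0 < ε → ∃ m₀ : ℕ, ∀ m, m₀ ≤ m → ∀ L L' : Set (E n), IsConvexBody L →
      IsIteratedProjectionBody m L L' → ∃ K : Set (E n), OfEveryOrder K ∧
        ∃ T : E n ≃L[ℝ] E n, K ⊆ T '' L' ∧ T '' L' ⊆ (1 + ε) • K :=
  p_ATR p_ITN p_NRS (p_AT1 p_ORB) (p_AT2 p_ORB) n hn

end Pool.Agent.PBC
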