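import Pool.Agent.PBX.Base

/-!
# PBC: continuum many smooth iterated projection bodies of every order at every distance in
`(1, √2)` (MP_05927b_gt): definitions

Everything is expressed by support functions `h : E n → ℝ` of centred convex bodies (norms, `IsN h`)
and the projection body operator `P` of `Pool.Agent.ProjBody`; `DF h` is the Banach-Mazur distance of
`h` to the Euclidean norm.
-/

open MeasureTheory Module Set Filter Topology
open scoped Pointwise

namespace Pool.Agent.PBC
open Pool.Agent.ProjBody Pool.Agent.PBX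

/-- symmetries of the cube: linear isometries mapping coordinate vectors to plus or minus
coordinate vectors -/
def CubeSym {n : ℕ} (g : E n ≃ₗᵢ[ℝ] E n) : Prop :=
  ∀ i : Fin n, ∃ j : Fin n, g (EuclideanSpace.single i 1) = EuclideanSpace.single j 1 ∨
    g (EuclideanSpace.single i 1) = -EuclideanSpace.single j 1

/-- invariant under the symmetries of the cube -/
def CInv {n : ℕ} (h : E n → ℝ) : Prop := ∀ g : E n ≃ₗᵢ[ℝ] E n, CubeSym g → ∀ u, h (g u) = h u

/-- invariant under all linear isometries which fix `v` -/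
def RInv {n : ℕ} (v : E n) (h : E n → ℝ) : Prop :=
  ∀ g : E n ≃ₗᵢ[ℝ] E n, g v = v → ∀ u, h (g u) = h u

/-- after a linear change of variables `h` is between a cube invariant norm and `s` times it -/
def NearC {n : ℕ} (h : E n → ℝ) (s : ℝ) : Prop :=
  ∃ T : E n ≃L[ℝ] E n, ∃ g, IsN g ∧ CInv g ∧ ∀ u, g u ≤ h (T u) ∧ h (T u) ≤ s * g u

/-- Banach-Mazur distance to the norms with the symmetries of the cube -/
noncomputable def DC {n : ℕ} (h : E n → ℝ) : ℝ := sInf {s | NearC h s}

/-- the two properties of `DF` and `DC` which are used -/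
def Fnl {n : ℕ} (D : (E n → ℝ) → ℝ) : Prop :=
  (∀ h, IsN h → 1 ≤ D h) ∧
  (∀ (h : E n → ℝ) (S : E n ≃L[ℝ] E n), D (fun u => h (S u)) = D h) ∧
  ∀ (h h' : E n → ℝ) (c C : ℝ), IsN h → 0 < c → (∀ u, c * h u ≤ h' u) → (∀ u, h' u ≤ C * h u) →
    D h' ≤ C / c * D h

/-- the first coordinate vector -/
noncomputable def e0 (m : ℕ) : E (m + 1) := EuclideanSpace.single 0 1

/-- the last `m` coordinates -/
def tl {m : ℕ} (u : E (m + 1)) : E m := WithLp.toLp 2 fun i => u i.succ

/-- two parameter family of norms: `s = 0` ball, `s = 1, t = 0` cylinder, `s = 1, t = 1` cube -/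
noncomputable def fam {m : ℕ} (s t : ℝ) (u : E (m + 1)) : ℝ :=
  (1 - s) * ‖u‖ + s * (|u 0| + ((1 - t) * ‖tl u‖ + t * l1 (tl u)))

/-- the unit square -/
def sq : Set (ℝ × ℝ) := Icc (0 : ℝ) 1 ×ˢ Icc (0 : ℝ) 1

/-- inertia form of the body with support function `h` -/
noncomputable def inr {n : ℕ} (h : E n → ℝ) (u : E n) : ℝ := ∫ x in Bd h, (inner ℝ x u : ℝ) ^ 2

end Pool.Agent.PBC
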