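import Pool.Agent.PBC.Targets2

/-!
# PBC: limits of iterates are in the class

`T_AT1`: if `h` is, up to linear maps, a limit of `m`-th iterates for every `m`, then `Cls h`.
-/

open MeasureTheory Module Set Filter Topology
open scoped Pointwise

namespace Pool.Agent.PBC
open Pool.Agent.ProjBody Pool.Agent.PBX

namespace AT1_

theorem iter_eq {n : ℕ} {M : ℕ → E n → ℝ} (hM : ∀ j, P (M (j + 1)) = M j) (m : ℕ) :
    P^[m] (M m) = M 0 := by
  induction m with
  | zero => rfl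
  | succ m ih => rw [Function.iterate_succ_apply, hM m, ih]

end AT1_

theorem p_AT1 : T_AT1 := by
  intro hORB n _ h hn hh hnear
  obtain ⟨a, b, ha, hab⟩ := hh
  have hk : ∀ k : ℕ, ∃ g : E n → ℝ, IsN g ∧ ∃ T : E n ≃L[ℝ] E n, ∀ u, h u ≤ (P^[k] g) (T u) ∧
      (P^[k] g) (T u) ≤ (1 + 1 / ((k : ℝ) + 1)) * h u := by
    intro k
    obtain ⟨g, hg, T, hT⟩ := hnear k (1 / ((k : ℝ) + 1)) (by positivity)
    exact ⟨g, hg, T, hT⟩
  choose g hg T hT using hk
  have hh0 : ∀ u, 0 ≤ h u := fun u => (mul_nonneg ha.le (norm_nonneg u)).trans (hab.lo u)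
  have hNm : ∀ k, Nm a (2 * b) (fun u => (P^[k] (g k)) (T k u)) := by
    intro k
    obtain ⟨a', b', _, hab'⟩ := (((hg k).Pit k).comp (T k))
    refine ⟨hab'.add, hab'.smul, fun u => (hab.lo u).trans (hT k u).1, fun u => ?_⟩
    refine (hT k u).2.trans ?_
    have h1 : (1 : ℝ) / ((k : ℝ) + 1) ≤ 1 := by
      rw [div_le_one (by positivity)]
      have : (0 : ℝ) ≤ k := Nat.cast_nonneg k
      linarith
    have h2 := hab.hi u
    nlinarith [hh0 u]
  obtain ⟨M, hM, hPM, hlim⟩ := hORB n hn g T a (2 * b) hg ha hNm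
  have hM0 : M 0 = h := by
    funext u
    have h1 : Tendsto (fun k : ℕ => (1 + 1 / ((k : ℝ) + 1)) * h u) atTop (𝓝 (h u)) := by
      have h2 : Tendsto (fun k : ℕ => (1 + 1 / ((k : ℝ) + 1)) * h u) atTop (𝓝 ((1 + 0) * h u)) :=
        (tendsto_const_nhds.add tendsto_one_div_add_atTop_nhds_zero_nat).mul_const _
      simpa using h2
    have h3 : Tendsto (fun k => (P^[k] (g k)) (T k u)) (hyperfilter ℕ : Filter ℕ) (𝓝 (h u)) :=
      tendsto_of_tendsto_of_tendsto_of_le_of_le tendsto_const_nhds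
        (h1.mono_left Nat.hyperfilter_le_atTop) (fun k => (hT k u).1) (fun k => (hT k u).2)
    exact tendsto_nhds_unique (hlim u) h3
  refine ⟨⟨a, b, ha, hab⟩, fun m => ⟨M m, hM m, 1, one_pos, fun u => ?_⟩⟩
  rw [AT1_.iter_eq hPM m, hM0, one_mul]

end Pool.Agent.PBC
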