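import Pool.Agent.PBC.Targets

/-!
# PBC-MIX: modified Poincare-Miranda on the square
-/

open MeasureTheory Module Set Filter Topology

namespace Pool.Agent.PBC

namespace MIX_

/-- the choice of the factor `L` -/
lemma exists_factor (a b : ℝ → ℝ) (ha : ContinuousOn a (Icc 0 1)) (hb : ContinuousOn b (Icc 0 1))
    (hb0 : ∀ s ∈ Icc (0 : ℝ) 1, 0 ≤ b s) (hab : ∀ s ∈ Icc (0 : ℝ) 1, b s = 0 → 0 < a s) :
    ∃ L : ℝ, 0 ≤ L ∧ ∀ s ∈ Icc (0 : ℝ) 1, 0 ≤ a s + L * b s := by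
  have hK : IsCompact {s | s ∈ Icc (0 : ℝ) 1 ∧ a s ≤ 0} := by
    have h1 : IsClosed {s | s ∈ Icc (0 : ℝ) 1 ∧ a s ≤ 0} := by
      have := ha.preimage_isClosed_of_isClosed isClosed_Icc (isClosed_Iic (a := (0 : ℝ)))
      exact this
    exact isCompact_Icc.of_isClosed_subset h1 (fun s hs => hs.1)
  rcases ({s | s ∈ Icc (0 : ℝ) 1 ∧ a s ≤ 0} : Set ℝ).eq_empty_or_nonempty with hE | hN
  · refine ⟨0, le_refl 0, fun s hs => ?_⟩
    by_contra hc
    have : s ∈ ({s | s ∈ Icc (0 : ℝ) 1 ∧ a s ≤ 0} : Set ℝ) := ⟨hs, by linarith⟩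
    rw [hE] at this
    exact this
  · obtain ⟨s0, hs0, hmin⟩ := hK.exists_isMinOn hN (hb.mono fun s hs => hs.1)
    obtain ⟨s1, hs1, hmin1⟩ := hK.exists_isMinOn hN (ha.mono fun s hs => hs.1)
    have hb1 : 0 < b s0 := by
      rcases (hb0 s0 hs0.1).lt_or_eq with h | h
      · exact h
      · exact absurd (hab s0 hs0.1 h.symm) (not_lt.2 hs0.2)
    have hA : 0 ≤ -a s1 := by linarith [hs1.2]
    refine ⟨-a s1 / b s0, div_nonneg hA hb1.le, fun s hs => ?_⟩
    by_cases hsa : a s ≤ 0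
    · have h1 : b s0 ≤ b s := hmin (⟨hs, hsa⟩ : s ∈ {s | s ∈ Icc (0 : ℝ) 1 ∧ a s ≤ 0})
      have h2 : a s1 ≤ a s := hmin1 (⟨hs, hsa⟩ : s ∈ {s | s ∈ Icc (0 : ℝ) 1 ∧ a s ≤ 0})
      have h3 : -a s1 / b s0 * b s0 ≤ -a s1 / b s0 * b s :=
        mul_le_mul_of_nonneg_left h1 (div_nonneg hA hb1.le)
      rw [div_mul_cancel₀ _ hb1.ne'] at h3
      linarith
    · have h3 : 0 ≤ -a s1 / b s0 * b s := mul_nonneg (div_nonneg hA hb1.le) (hb0 s hs)
      push Not at hsa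
      linarith

end MIX_

theorem p_MIX : T_MIX := by
  intro hMIR ρ χ r x hρ hχ h1 h2 h3
  have hc0 : ContinuousOn (fun s : ℝ => ((s, (0 : ℝ)) : ℝ × ℝ)) (Icc 0 1) :=
    (continuous_id.prodMk continuous_const).continuousOn
  have hm0 : MapsTo (fun s : ℝ => ((s, (0 : ℝ)) : ℝ × ℝ)) (Icc 0 1) sq := fun s hs =>
    ⟨hs, ⟨le_refl 0, zero_le_one⟩⟩
  obtain ⟨L, hL, hLs⟩ := MIX_.exists_factor (fun s => χ (s, 0) - x) (fun s => |ρ (s, 0) - r|)
    ((hχ.comp hc0 hm0).sub continuousOn_const)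
    (((hρ.comp hc0 hm0).sub continuousOn_const).abs)
    (fun s _ => abs_nonneg _)
    (fun s hs hs0 => by
      have h4 : ρ (s, 0) = r := by
        have := abs_eq_zero.1 hs0
        linarith
      have h5 := h3 s hs h4
      simpa using h5)
  obtain ⟨p, hp, hp1, hp2⟩ := hMIR (fun p => ρ p - r)
    (fun p => χ p - x + (1 - p.2) * (L * |ρ p - r|))
    (hρ.sub continuousOn_const)
    ((hχ.sub continuousOn_const).add
      ((continuousOn_const.sub continuous_snd.continuousOn).mul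
        (continuousOn_const.mul ((hρ.sub continuousOn_const).abs))))
    (fun t ht => ⟨by linarith [(h1 t ht).1], by linarith [(h1 t ht).2]⟩)
    (fun s hs => by
      refine ⟨?_, ?_⟩
      · have := hLs s hs
        simp only [sub_zero, one_mul]
        linarith
      · simp only [sub_self, zero_mul, add_zero]
        linarith [h2 s hs])
  have h6 : ρ p = r := by linarith
  refine ⟨p, hp, h6, ?_⟩
  rw [h6] at hp2
  simp at hp2
  linarith

end Pool.Agent.PBC
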