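import Pool.Agent.PBC.Targets2
import Pool.Agent.PBC.P_INQ

/-!
# PBC: cube symmetries and two complementary subspaces
-/

set_option autoImplicit false

open MeasureTheory Module Set Filter Topology
open Pool.Agent.ProjBody Pool.Agent.PBX

namespace Pool.Agent.PBC

namespace SPL_

open INQ_

theorem swp_apply {n : ℕ} (i j : Fin n) (u : E n) (k : Fin n) :
    swp i j u k = u (Equiv.swap i j k) := by
  unfold swp
  simp [LinearIsometryEquiv.piLpCongrLeft_apply]

/-- coordinate vector -/
noncomputable def ev {n : ℕ} (i : Fin n) : E n := EuclideanSpace.single i (1 : ℝ)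

theorem ev_apply {n : ℕ} (i j : Fin n) : (ev i : E n) j = if j = i then 1 else 0 := by
  unfold ev
  simp [Pi.single_apply]

theorem flip_eq {n : ℕ} (i : Fin n) (u : E n) : flip i u = u - (2 * u i) • ev i := by
  ext j
  rw [flip_apply, PiLp.sub_apply, PiLp.smul_apply, ev_apply, smul_eq_mul]
  by_cases h : j = i
  · subst h
    rw [if_pos rfl, if_pos rfl]
    ring
  · rw [if_neg h, if_neg h]
    ring

theorem flip_ne {n : ℕ} {i j : Fin n} (h : j ≠ i) (u : E n) : flip i u j = u j := by
  rw [flip_apply, if_neg h]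

theorem ev_ne {n : ℕ} (i : Fin n) : (ev i : E n) ≠ 0 := by
  intro h
  have h1 := congrArg (fun v : E n => v i) h
  simp only [ev_apply, if_true, PiLp.zero_apply] at h1
  exact one_ne_zero h1

theorem cube_trans {n : ℕ} {f g : E n ≃ₗᵢ[ℝ] E n} (hg : CubeSym g) (hf : CubeSym f) :
    CubeSym (g.trans f) := by
  intro i
  obtain ⟨j, hj⟩ := hg i
  obtain ⟨k, hk⟩ := hf j
  refine ⟨k, ?_⟩
  rw [LinearIsometryEquiv.trans_apply]
  rcases hj with hj | hj <;> rcases hk with hk | hk <;> rw [hj] <;>
    simp only [map_neg, hk, neg_neg, true_or, or_true]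

/-- the main step -/
theorem key {n : ℕ} (hn : 3 ≤ n) (V V' : Submodule ℝ (E n)) (O : Set (E n))
    (hV : V ⊓ V' = ⊥) (hO : ∀ z ∈ O, z ∈ V ∨ z ∈ V')
    (hf : ∀ z ∈ O, ∀ i, flip i z ∈ O) (hs : ∀ z ∈ O, ∀ i j, swp i j z ∈ O)
    (h2 : ∀ z ∈ O, ∀ i, ∃ j, j ≠ i ∧ z j ≠ 0) (z : E n) (hz : z ∈ O) (hzV : z ∈ V)
    (i : Fin n) (hi : z i ≠ 0) : ev i ∈ V := by
  have dis : ∀ x : E n, x ∈ V → x ∈ V' → x = 0 := by
    intro x h1 h2
    have h3 : x ∈ V ⊓ V' := ⟨h1, h2⟩
    rw [hV] at h3
    exact (Submodule.mem_bot ℝ).1 h3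
  have nz : ∀ z ∈ O, z ≠ 0 := by
    intro z hz h0
    obtain ⟨j, -, hj⟩ := h2 z hz i
    exact hj (by rw [h0]; rfl)
  -- a multiple of a coordinate vector
  have sm : ∀ (W : Submodule ℝ (E n)) (x : E n) (j : Fin n), x j ≠ 0 → x ∈ W → flip j x ∈ W →
      ev j ∈ W := by
    intro W x j hj h1 h3
    have h4 : x - flip j x ∈ W := W.sub_mem h1 h3
    rw [flip_eq, sub_sub_cancel] at h4
    have h5 : (2 * x j)⁻¹ • ((2 * x j) • ev j : E n) ∈ W := W.smul_mem _ h4
    rwa [smul_smul, inv_mul_cancel₀ (mul_ne_zero two_ne_zero hj), one_smul] at h5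
  have fl : ∀ (W : Submodule ℝ (E n)) (x : E n) (j : Fin n), ev j ∈ W → flip j x ∈ W → x ∈ W := by
    intro W x j h1 h3
    have h4 : flip j x + (2 * x j) • ev j ∈ W := W.add_mem h3 (W.smul_mem _ h1)
    rwa [flip_eq, sub_add_cancel] at h4
  have fl' : ∀ (W : Submodule ℝ (E n)) (x : E n) (j : Fin n), ev j ∈ W → x ∈ W →
      flip j x ∈ W := by
    intro W x j h1 h3
    rw [flip_eq]
    exact W.sub_mem h3 (W.smul_mem _ h1)
  rcases hO _ (hf z hz i) with hfi | hfi
  · exact sm V z i hi hzV hfi
  exfalso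
  obtain ⟨j, hji, hj⟩ := h2 z hz i
  have hO1 := hf z hz j
  have hO2 := hf _ hO1 i
  have hcomm : flip i (flip j z) = flip j (flip i z) := by
    ext k
    simp only [flip_apply]
    split_ifs <;> rfl
  rcases hO _ hO1 with h3 | h3
  · rcases hO _ hO2 with h4 | h4
    · have h5 : ev i ∈ V := sm V (flip j z) i (by rw [flip_ne hji.symm]; exact hi) h3 h4
      exact nz _ (hf z hz i) (dis _ (fl' V z i h5 hzV) hfi)
    · have h5 : ev j ∈ V := sm V z j hj hzV h3
      have h6 : ev j ∈ V' := sm V' (flip i z) j (by rw [flip_ne hji]; exact hj) hfi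
        (by rw [← hcomm]; exact h4)
      exact ev_ne j (dis _ h5 h6)
  · rcases hO _ hO2 with h4 | h4
    · -- only two coordinates are not zero
      have h5 : z + flip i (flip j z) ∈ V := V.add_mem hzV h4
      have h6 : flip i z + flip j z ∈ V' := V'.add_mem hfi h3
      have h7 : z + flip i (flip j z) = flip i z + flip j z := by
        ext k
        simp only [PiLp.add_apply, flip_apply]
        by_cases hki : k = i
        · subst hki
          rw [if_pos rfl, if_pos rfl, if_neg hji.symm]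
          ring
        · rw [if_neg hki, if_neg hki]
      rw [← h7] at h6
      have h8 := dis _ h5 h6
      have h9 : ∀ k, k ≠ i → k ≠ j → z k = 0 := by
        intro k hki hkj
        have h10 := congrArg (fun v : E n => v k) h8
        simp only [PiLp.add_apply, flip_apply, if_neg hki, if_neg hkj, PiLp.zero_apply] at h10
        linarith
      obtain ⟨k, hk⟩ : ∃ k : Fin n, k ∉ ({i, j} : Finset (Fin n)) := by
        by_contra hcon
        push Not at hcon
        have h10 : (Finset.univ : Finset (Fin n)) ⊆ {i, j} := fun k _ => hcon k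
        have h11 := Finset.card_le_card h10
        rw [Finset.card_univ, Fintype.card_fin] at h11
        have h12 := Finset.card_le_two (a := i) (b := j)
        omega
      have hki : k ≠ i := fun h => hk (by simp [h])
      have hkj : k ≠ j := fun h => hk (by simp [h])
      have hzk : z k = 0 := h9 k hki hkj
      have hO3 := hs z hz j k
      have hO4 := hf _ hO3 i
      have hsi : swp j k z i = z i := by
        rw [swp_apply, Equiv.swap_apply_of_ne_of_ne hji.symm hki.symm]
      have hsj : swp j k z j = 0 := by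
        rw [swp_apply, Equiv.swap_apply_left, hzk]
      have hsk : swp j k z k = z j := by
        rw [swp_apply, Equiv.swap_apply_right]
      have hsl : ∀ l, l ≠ j → l ≠ k → swp j k z l = z l := by
        intro l h1 h2
        rw [swp_apply, Equiv.swap_apply_of_ne_of_ne h1 h2]
      rcases hO _ hO3 with h10 | h10
      · rcases hO _ hO4 with h11 | h11
        · have h12 : ev i ∈ V := sm V _ i (by rw [hsi]; exact hi) h10 h11
          exact nz _ (hf z hz i) (dis _ (fl' V z i h12 hzV) hfi)
        · have h12 : z - swp j k z ∈ V := V.sub_mem hzV h10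
          have h13 : flip i z - flip i (swp j k z) ∈ V' := V'.sub_mem hfi h11
          have h14 : flip i z - flip i (swp j k z) = z - swp j k z := by
            ext l
            simp only [PiLp.sub_apply, flip_apply]
            by_cases hli : l = i
            · subst hli
              rw [if_pos rfl, if_pos rfl, hsi]
              ring
            · rw [if_neg hli, if_neg hli]
          rw [h14] at h13
          have h15 := congrArg (fun v : E n => v j) (dis _ h12 h13)
          simp only [PiLp.sub_apply, PiLp.zero_apply, hsj, sub_zero] at h15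
          exact hj h15
      · rcases hO _ hO4 with h11 | h11
        · have h12 : z + flip i (swp j k z) ∈ V := V.add_mem hzV h11
          have h13 : flip i z + swp j k z ∈ V' := V'.add_mem hfi h10
          have h14 : flip i z + swp j k z = z + flip i (swp j k z) := by
            ext l
            simp only [PiLp.add_apply, flip_apply]
            by_cases hli : l = i
            · subst hli
              rw [if_pos rfl, if_pos rfl, hsi]
              ring
            · rw [if_neg hli, if_neg hli]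
          rw [h14] at h13
          have h15 := congrArg (fun v : E n => v j) (dis _ h12 h13)
          simp only [PiLp.add_apply, PiLp.zero_apply, flip_ne hji, hsj, add_zero] at h15
          exact hj h15
        · have h12 : ev i ∈ V' := sm V' _ i (by rw [hsi]; exact hi) h10 h11
          exact nz _ hz (dis _ hzV (fl V' z i h12 hfi))
    · have h5 : ev i ∈ V' := sm V' (flip j z) i (by rw [flip_ne hji.symm]; exact hi) h3 h4
      exact nz _ hz (dis _ hzV (fl V' z i h5 hfi))

end SPL_

open INQ_ SPL_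

theorem p_SPL : T_SPL := by
  intro n V V' w hn hV hVt hVt' hw
  by_contra hcon
  push Not at hcon
  have hpos : 0 < n := by omega
  have hw2 : ∀ i : Fin n, ∃ j, j ≠ i ∧ w j ≠ 0 := by
    intro i
    by_contra h
    push Not at h
    refine hcon i (w i) ?_
    ext j
    by_cases hj : j = i
    · subst hj
      simp
    · rw [h j hj, PiLp.smul_apply]
      simp [hj]
  set O : Set (E n) := {z | (∃ g : E n ≃ₗᵢ[ℝ] E n, CubeSym g ∧ z = g w) ∧
    ∀ i, ∃ j, j ≠ i ∧ z j ≠ 0} with hOdef
  have hO : ∀ z ∈ O, z ∈ V ∨ z ∈ V' := by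
    rintro z ⟨⟨g, hg, rfl⟩, -⟩
    exact hw g hg
  have hf : ∀ z ∈ O, ∀ i, flip i z ∈ O := by
    rintro z ⟨⟨g, hg, rfl⟩, h2⟩ i
    refine ⟨⟨g.trans (flip i), cube_trans hg (flip_cube i), rfl⟩, fun k => ?_⟩
    obtain ⟨j, hj, hj'⟩ := h2 k
    refine ⟨j, hj, ?_⟩
    rw [flip_apply]
    split_ifs
    · exact neg_ne_zero.2 hj'
    · exact hj'
  have hs : ∀ z ∈ O, ∀ i j, swp i j z ∈ O := by
    rintro z ⟨⟨g, hg, rfl⟩, h2⟩ i j
    refine ⟨⟨g.trans (swp i j), cube_trans hg (swp_cube i j), rfl⟩, fun k => ?_⟩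
    obtain ⟨l, hl, hl'⟩ := h2 (Equiv.swap i j k)
    refine ⟨Equiv.swap i j l, fun h => hl ?_, ?_⟩
    · rw [← h, Equiv.swap_apply_self]
    · rw [swp_apply, Equiv.swap_apply_self]
      exact hl'
  have h2 : ∀ z ∈ O, ∀ i, ∃ j, j ≠ i ∧ z j ≠ 0 := fun z hz => hz.2
  have hwO : w ∈ O := ⟨⟨LinearIsometryEquiv.refl ℝ (E n), fun i => ⟨i, Or.inl rfl⟩, rfl⟩, hw2⟩
  have hV' : V' ⊓ V = ⊥ := by rw [inf_comm]; exact hV
  have hO' : ∀ z ∈ O, z ∈ V' ∨ z ∈ V := fun z hz => (hO z hz).symm
  have hpair : ∀ i j : Fin n, i ≠ j → ∃ z ∈ O, z i ≠ 0 ∧ z j ≠ 0 := by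
    intro i j hij
    obtain ⟨p, -, hp⟩ := hw2 i
    obtain ⟨q, hqp, hq⟩ := hw2 p
    have hz1 := hs w hwO i p
    have hq' : Equiv.swap i p q ≠ i := by
      intro h
      have h1 := congrArg (Equiv.swap i p) h
      rw [Equiv.swap_apply_self, Equiv.swap_apply_left] at h1
      exact hqp h1
    refine ⟨swp j (Equiv.swap i p q) (swp i p w), hs _ hz1 _ _, ?_, ?_⟩
    · rw [swp_apply, swp_apply, Equiv.swap_apply_of_ne_of_ne hij hq'.symm,
        Equiv.swap_apply_left]
      exact hp
    · rw [swp_apply, swp_apply, Equiv.swap_apply_left, Equiv.swap_apply_self]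
      exact hq
  have top : ∀ W : Submodule ℝ (E n), (∀ i, ev i ∈ W) → W = ⊤ := by
    intro W h
    rw [Submodule.eq_top_iff']
    intro x
    rw [expand x]
    exact W.sum_mem fun i _ => W.smul_mem _ (h i)
  have dis : ∀ i : Fin n, ev i ∈ V → ev i ∈ V' → False := by
    intro i h1 h3
    have h4 : ev i ∈ V ⊓ V' := ⟨h1, h3⟩
    rw [hV] at h4
    exact ev_ne i ((Submodule.mem_bot ℝ).1 h4)
  have same : ∀ i j : Fin n, i ≠ j → (ev i ∈ V ∧ ev j ∈ V) ∨ (ev i ∈ V' ∧ ev j ∈ V') := by
    intro i j hij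
    obtain ⟨z, hz, hzi, hzj⟩ := hpair i j hij
    rcases hO z hz with h | h
    · exact Or.inl ⟨key hn V V' O hV hO hf hs h2 z hz h i hzi,
        key hn V V' O hV hO hf hs h2 z hz h j hzj⟩
    · exact Or.inr ⟨key hn V' V O hV' hO' hf hs h2 z hz h i hzi,
        key hn V' V O hV' hO' hf hs h2 z hz h j hzj⟩
  let i0 : Fin n := ⟨0, hpos⟩
  let i1 : Fin n := ⟨1, by omega⟩
  have h01 : i0 ≠ i1 := by
    intro h
    have h1 := congrArg Fin.val h
    simp [i0, i1] at h1
  rcases same i0 i1 h01 with h | h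
  · refine hVt (top V fun i => ?_)
    by_cases hi : i0 = i
    · rw [← hi]; exact h.1
    · rcases same i0 i hi with h3 | h3
      · exact h3.2
      · exact (dis i0 h.1 h3.1).elim
  · refine hVt' (top V' fun i => ?_)
    by_cases hi : i0 = i
    · rw [← hi]; exact h.1
    · rcases same i0 i hi with h3 | h3
      · exact (dis i0 h3.1 h.1).elim
      · exact h3.2

end Pool.Agent.PBC
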