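import Pool.Agent.PBC.Defs

/-!
# PBC: targets

`T_XXX : Prop` is proved in the file `P_XXX.lean` (theorem `p_XXX`); any other target may be taken
as a hypothesis `(h : T_YYY)`. The docstring contains the complete proof. The theorems `t_...` of
`Pool.Agent.PBX.All` (import it if you need them) and everything in `Pool/Agent/ProjBody` may be used.
-/

open MeasureTheory Module Set Filter Topology
open scoped Pointwise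

namespace Pool.Agent.PBC
open Pool.Agent.ProjBody Pool.Agent.PBX

/-! ## Group A: the family of norms -/

/-- `‖u‖ ≤ |u 0| + ‖tl u‖`, `‖tl u‖ ≤ l1 (tl u)` (`norm_le_l1`), `|u 0| + l1 (tl u) = l1 u` (`Fin.sum_univ_succ`),
`l1 u ≤ √(m+1) ‖u‖` (`l1_le`): so `‖u‖ ≤ |u 0| + ((1-t) ‖tl u‖ + t l1 (tl u)) ≤ √(m+1) ‖u‖`. `tl` is linear. Triangle inequality and
homogeneity termwise (`nm_l1`). -/
def T_FAM : Prop := ∀ (m : ℕ) (s t : ℝ), s ∈ Icc (0 : ℝ) 1 → t ∈ Icc (0 : ℝ) 1 →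
  Nm (1 : ℝ) (Real.sqrt ((m + 1 : ℕ) : ℝ)) (fam s t : E (m + 1) → ℝ)

/-- With `A t = |u 0| + ((1-t) ‖tl u‖ + t l1 (tl u))`, `‖u‖ ≤ A t ≤ √(m+1) ‖u‖`:
`fam s' t' u - fam s t u = (s' - s) (A t' - ‖u‖) + s (t' - t) (l1 (tl u) - ‖tl u‖)`, so the absolute value is
`≤ √(m+1) (|s'-s| + |t'-t|) ‖u‖` and `‖u‖ ≤ fam s t u`. -/
def T_FCL : Prop := ∀ (m : ℕ) (s t s' t' : ℝ), s ∈ Icc (0 : ℝ) 1 → t ∈ Icc (0 : ℝ) 1 →
  s' ∈ Icc (0 : ℝ) 1 → t' ∈ Icc (0 : ℝ) 1 → ∀ u : E (m + 1),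
  |fam s' t' u - fam s t u| ≤ Real.sqrt ((m + 1 : ℕ) : ℝ) * (|s' - s| + |t' - t|) * fam s t u

/-- Sides of the square. `g (e0) = e0`: `(g u) 0 = ⟨g u, e0⟩ = ⟨u, e0⟩ = u 0` and `‖tl u‖^2 = ‖u‖^2 - (u 0)^2`. `CubeSym g`: for every `i`
there are `j = σ i` and a sign with `g e_i = ± e_j`; `σ` is injective (isometry), so bijective, and `|(g u) (σ i)| = |u i|`: `l1 (g u) = l1 u`.
`Add2` (`U = ℝ e0`): for `u = c e0`, `u' ⊥ e0`: `(u + u') 0 = c`, `tl (u + u') = tl u'`, `tl u = 0`, `u' 0 = 0`. -/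
def T_FSD : Prop := ∀ m : ℕ,
  (∀ (t : ℝ) (u : E (m + 1)), fam 0 t u = ‖u‖) ∧
  (∀ s : ℝ, RInv (e0 m) (fam s 0 : E (m + 1) → ℝ)) ∧
  (∀ s : ℝ, CInv (fam s 1 : E (m + 1) → ℝ)) ∧
  ∀ t : ℝ, Add2 (Submodule.span ℝ {e0 m}) (Submodule.span ℝ {e0 m})ᗮ (fam 1 t : E (m + 1) → ℝ)

/-- `fam 1 t u = |⟨u, e0⟩| + (1-t) ‖tl u‖ + t ∑ i, |⟨u, e_(i+1)⟩|`. Generating measures: `|⟨u, w⟩|` has `Measure.dirac w`; sums and nonnegative multiples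
of functions with generating measures have generating measures (`μ + ν`, `ENNReal.ofReal c • μ`). `‖tl u‖`: `PBX.t_BBB` on `E m` (`NeZero m`) gives `ρ`
generating `P ‖·‖ = kap m ‖·‖` (`P_norm`), scale it by `(kap m)⁻¹`, and map it by the isometric embedding `w ↦ toLp (Fin.cons 0 w)` of `E m` in `E (m+1)`:
`⟨u, toLp (Fin.cons 0 w)⟩ = ⟨tl u, w⟩`. -/
def T_GEN : Prop := ∀ (m : ℕ) (t : ℝ), 1 ≤ m → t ∈ Icc (0 : ℝ) 1 → ∃ ρ, Gen ρ (fam 1 t : E (m + 1) → ℝ)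

/-! ## Group B: iterates -/

/-- `P_comp`: `P (h ∘ g) u = dt (adj g) * P h ((adj g).symm u)` for the equivalence `g.toContinuousLinearEquiv`; `adj g` is `g.symm`, `dt = 1`. Or `sw_isom`
(Sw.lean) with `Bd h = g '' Bd h`. Induction on `k`. -/
def T_PIS : Prop := ∀ (n : ℕ) [NeZero n] (h : E n → ℝ) (g : E n ≃ₗᵢ[ℝ] E n), (∀ u, h (g u) = h u) →
  ∀ (k : ℕ) (u : E n), (P^[k] h) (g u) = (P^[k] h) u

/-- Induction on `k`: some `ρ'` generates `P^[k] h` (`PBX.t_ZZ`, `n = m + 1`) and `Add2 U Uᗮ (P^[k] h)` (`k` even) or `Add2 Uᗮ U (P^[k] h)` (`k` odd): `PBX.t_AFW`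
(`Uᗮᗮ = U`). -/
def T_SPI : Prop := ∀ (n : ℕ) [NeZero n] (ρ : Measure (E n)) (h : E n → ℝ) (U : Submodule ℝ (E n)),
  Gen ρ h → IsN h → U ≠ ⊥ → Uᗮ ≠ ⊥ → Add2 U Uᗮ h → ∀ k : ℕ, Split (P^[k] h)

/-- `‖u‖ ≤ h (T u) ≤ s ‖u‖` and `h` additive for `U`, `U'`: unit vectors `a, b` with `T a ∈ U`, `T b ∈ U'`; `h (T (a ± b)) = h (T a) + h (T b) ≥ 2`, so
`2 ≤ s ‖a ± b‖`, and `‖a + b‖^2 + ‖a - b‖^2 = 4`: `√2 ≤ s`. Then `le_csInf`. -/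
def T_SD2 : Prop := ∀ (n : ℕ) [NeZero n] (h : E n → ℝ), IsN h → Split h → Real.sqrt 2 ≤ DF h

/-- `one_le_DF`, `DF_comp`, `DF_le_mul` (Dist.lean). -/
def T_FDF : Prop := ∀ (n : ℕ) [NeZero n], Fnl (DF : (E n → ℝ) → ℝ)

/-- As in Dist.lean for `DF`: `NearC h s → 1 ≤ s` (test a nonzero vector, `g u > 0`); nonempty: `NearF` and `g = ‖·‖` (every linear isometry
preserves it), `IsN.near`; `NearC` is monotone in `s`. The third property of `Fnl`: replace `T` by `c⁻¹ • T`. If `CInv h` then `NearC h 1`. -/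
def T_FDC : Prop := ∀ (n : ℕ) [NeZero n], Fnl (DC : (E n → ℝ) → ℝ) ∧
  (∀ h : E n → ℝ, IsN h → CInv h → DC h = 1) ∧
  ∀ (h : E n → ℝ) (s : ℝ), IsN h → DC h < s → NearC h s

/-- As in `DF_path_continuous` (Chain.lean). At a point `p`, for `q → p` in `sq` and `δ = √(m+1) (|q.1-p.1| + |q.2-p.2|) → 0`: `(1-δ) fam p ≤ fam q ≤ (1+δ) fam p` (`h1`),
so by `Pit_bounds` and the third property of `Fnl`: `D q ≤ ((1+δ)/(1-δ))^N D p`; and with `fam p ≤ (1-δ)⁻¹ fam q`, `fam p ≥ (1+δ)⁻¹ fam q`: `D p ≤ ((1+δ)/(1-δ))^N D q`.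
Squeeze. -/
def T_CTS : Prop := T_FAM → T_FCL → ∀ (m : ℕ) (D : (E (m + 1) → ℝ) → ℝ), Fnl D → ∀ k : ℕ,
  ContinuousOn (fun p : ℝ × ℝ => D (P^[k] (fam p.1 p.2 : E (m + 1) → ℝ))) sq

/-- As at the end of `exists_orbit` (Chain.lean): `unif_close` gives `(1-δ) M ≤ f i ≤ (1+δ) M` eventually, the third property of `Fnl` in both directions gives
`D (f i) ≤ (1+δ)/(1-δ) D M` and `D M ≤ (1+δ)/(1-δ) D (f i)`; `Nm.lim` for `M`. -/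
def T_LMD : Prop := ∀ (n : ℕ) [NeZero n] (D : (E n → ℝ) → ℝ), Fnl D →
  ∀ (l : Filter ℕ) [l.NeBot] (f : ℕ → E n → ℝ) (M : E n → ℝ) (a b : ℝ), 0 < a →
    (∀ᶠ i in l, Nm a b (f i)) → (∀ u, Tendsto (fun i => f i u) l (𝓝 (M u))) →
    Tendsto (fun i => D (f i)) l (𝓝 (D M))

/-- Limits of orbits: the proof of `exists_orbit` (Chain.lean) with `f k` instead of `hp (t k)`: `exchange_iter` gives `S k` with
`(P^[k] (f k)) ∘ T k = P^[k] (f k ∘ S k)`, `A k j = P^[k - j] (f k ∘ S k)`, `preimage_bounds`, hyperfilter limits, `P_lim`. -/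
def T_ORB : Prop := ∀ (n : ℕ) [NeZero n], 2 ≤ n → ∀ (f : ℕ → E n → ℝ) (T : ℕ → E n ≃L[ℝ] E n) (a b : ℝ),
  (∀ k, IsN (f k)) → 0 < a → (∀ k, Nm a b (fun u => (P^[k] (f k)) (T k u))) →
  ∃ M : ℕ → E n → ℝ, (∀ j, IsN (M j)) ∧ (∀ j, P (M (j + 1)) = M j) ∧
    ∀ u, Tendsto (fun k => (P^[k] (f k)) (T k u)) (hyperfilter ℕ : Filter ℕ) (𝓝 (M 0 u))

/-! ## Group C: Poincare-Miranda on the square -/

/-- Brouwer (`Pool.Agent.Brouwer.fixed_point` in `Pool.Agent.Lib.Brouwer`, closed unit ball of a finite dimensional inner product space, e.g. `E 2`, after scaling by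
`2`): let `c : ℝ × ℝ → sq` be the clamp (continuous retraction), `G = (F₁, -F₂) ∘ c`; the continuous map `z ↦ c (z - G z)` has a fixed point `z ∈ sq`. If `G₁ z > 0` then
`z₁ = clamp (z₁ - G₁)` forces `z₁ = 0`, but `F₁ (0, ·) ≤ 0`; if `G₁ z < 0` then `z₁ = 1`, but `F₁ (1, ·) ≥ 0`. The same for `G₂ = -F₂`:
`G₂ > 0` forces `z₂ = 0`, where `F₂ ≥ 0`; `G₂ < 0` forces `z₂ = 1`, where `F₂ ≤ 0`. -/
def T_MIR : Prop := ∀ F₁ F₂ : ℝ × ℝ → ℝ, ContinuousOn F₁ sq → ContinuousOn F₂ sq →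
  (∀ t ∈ Icc (0 : ℝ) 1, F₁ (0, t) ≤ 0 ∧ 0 ≤ F₁ (1, t)) →
  (∀ s ∈ Icc (0 : ℝ) 1, 0 ≤ F₂ (s, 0) ∧ F₂ (s, 1) ≤ 0) → ∃ p ∈ sq, F₁ p = 0 ∧ F₂ p = 0

/-- `T_MIR` with `F₁ = ρ - r`, `F₂ p = χ p - x + (1 - p.2) L |ρ p - r|`. Choice of `L ≥ 0`: on the compact set `[0,1]` the continuous function `a s = χ (s,0) - x` is positive where
`b s = |ρ (s,0) - r|` vanishes; so `a + L b > 0` on `[0,1]` for large `L` (otherwise a sequence `s_L` with `a + L b ≤ 0`, a limit point `s` has `b s = 0` and `a s ≤ 0`; or: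
the compact set `{a ≤ 0}` has `b ≥ b₀ > 0` and `a ≥ -A`, take `L = A / b₀`). At a common zero `ρ p = r` and so `χ p = x`. -/
def T_MIX : Prop := T_MIR → ∀ (ρ χ : ℝ × ℝ → ℝ) (r x : ℝ), ContinuousOn ρ sq → ContinuousOn χ sq →
  (∀ t ∈ Icc (0 : ℝ) 1, ρ (0, t) ≤ r ∧ r ≤ ρ (1, t)) → (∀ s ∈ Icc (0 : ℝ) 1, χ (s, 1) ≤ x) →
  (∀ s ∈ Icc (0 : ℝ) 1, ρ (s, 0) = r → x < χ (s, 0)) → ∃ p ∈ sq, ρ p = r ∧ χ p = x

/-! ## Group D: inertia form, symmetric norms -/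

/-- `Bd (h ∘ T) = adj T '' Bd h` (`Bd_comp`), change of variables (`integral_image_eq_integral_abs_det_fderiv_smul` with the linear map `adj T`, constant determinant):
`∫_{adj T '' B} ⟨x, u⟩^2 = |det| ∫_B ⟨adj T y, u⟩^2 dy = |det| ∫_B ⟨y, T u⟩^2 dy` (`adj_inner`). -/
def T_INC : Prop := ∀ (n : ℕ) [NeZero n] (h : E n → ℝ) (T : E n ≃L[ℝ] E n), IsN h →
  ∃ c : ℝ, 0 < c ∧ ∀ u, inr (fun v => h (T v)) u = c * inr h (T u)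

/-- `B u v = ∫ x in Bd h, ⟨x,u⟩ ⟨x,v⟩` (continuous integrand, compact set `Bd_compact`); positive: `Bd h` contains a ball around `0`, and `⟨x,u⟩^2 > 0` on a
nonempty open subset of it (e.g. `setIntegral_pos_iff_support_of_nonneg_ae` or: if the integral is `0` the integrand vanishes almost everywhere on the ball, so everywhere). -/
def T_INB : Prop := ∀ (n : ℕ) [NeZero n] (h : E n → ℝ), IsN h →
  ∃ B : E n →ₗ[ℝ] E n →ₗ[ℝ] ℝ, (∀ u v, B u v = B v u) ∧ (∀ u, inr h u = B u u) ∧ ∀ u, u ≠ 0 → 0 < B u u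

/-- `g` preserves `Bd h` and the volume (`LinearIsometryEquiv.measurePreserving`, `MeasurePreserving.setIntegral_preimage_emb`), `⟨x, g u⟩ = ⟨g.symm x, u⟩`. -/
def T_INI : Prop := ∀ (n : ℕ) (h : E n → ℝ) (g : E n ≃ₗᵢ[ℝ] E n), (∀ u, h (g u) = h u) →
  ∀ u, inr h (g u) = inr h u

/-- `u = u 0 • e0 + u'`, `u' ⊥ e0`, `‖u'‖ = ‖tl u‖`. The isometry `x ↦ -x + 2 ⟨x,e0⟩ e0` (`(Submodule.span ℝ {e0}).reflection`) fixes `e0` and maps `u'` to `-u'`: with `T_INI`, `T_INB`: `B e0 u' = 0`. If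
`v, v' ⊥ e0` have the same norm, the reflection in `(v - v')ᗮ` fixes `e0` and exchanges them (`Submodule.reflection_sub` or similar): `inr h v = inr h v'`; so `inr h u' = β ‖u'‖^2` with `β = inr h e_1`, `e_1 = single 1 1`. -/
def T_INR : Prop := T_INB → T_INI → ∀ (m : ℕ) (h : E (m + 1) → ℝ), 1 ≤ m → IsN h → RInv (e0 m) h →
  ∃ α β : ℝ, 0 < α ∧ 0 < β ∧ ∀ u, inr h u = α * (u 0) ^ 2 + β * ‖tl u‖ ^ 2

/-- The reflections `e_i ↦ -e_i` (other coordinate vectors fixed) and the transpositions of coordinates are `CubeSym` (e.g. `LinearIsometryEquiv.piLpCongrLeft` for permutations,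
reflection in `(e_i)ᗮ`): `B e_i e_j = 0` for `i ≠ j`, `B e_i e_i = B e_j e_j =: γ`. -/
def T_INQ : Prop := T_INB → T_INI → ∀ (n : ℕ) [NeZero n] (h : E n → ℝ), IsN h → CInv h →
  ∃ γ : ℝ, 0 < γ ∧ ∀ u, inr h u = γ * ‖u‖ ^ 2

/-- Two axes. Let `c = ⟨v,w⟩`, `|c| < 1`; unit vectors `v' = (w - c v)/‖..‖`, `z ⊥ v, w` (`n ≥ 3`), `w = c v + d v'`, `d > 0`, `c^2 + d^2 = 1`. (1) For unit `u`, `h u` depends only on `⟨u,v⟩`: for unit `u, u'` with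
`⟨u,v⟩ = ⟨u',v⟩` the reflection in `(u-u')ᗮ` fixes `v` and maps `u` to `u'`. The same for `w`. (2) Let `φ t = h (t v + √(1-t^2) z)` for `|t| ≤ 1` (continuous; `h u = φ ⟨u,v⟩` for every unit `u`), even: `h (-u) = h u`. Let `A = {t ∈ [0,1] | φ = φ 1 on [t,1]}`, closed,
contains `1`, `t₀ = sInf A ∈ A`. Suppose `t₀ > 0`. Take `u = t₀ v + ε σ v'`, `σ = √(1-t₀^2)`, `ε = ±1` with `ε c ≤ 0`, and the curve `u(τ) = ⟨u,w⟩ w + cos τ • (u - ⟨u,w⟩ w) + sin τ • ‖u - ⟨u,w⟩ w‖ • z`, `0 ≤ τ ≤ π`, of unit vectors with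
`⟨u(τ),w⟩ = ⟨u,w⟩`, so `h (u(τ)) = h u = φ t₀ = φ 1`. `⟨u(τ),v⟩` runs continuously from `t₀` to `⟨2⟨u,w⟩w - u, v⟩ = 2 c (t₀ c + ε σ d) - t₀ = t₀ (2c^2-1) - 2 |c| d σ = t₀ - 2 d^2 t₀ - 2 |c| d σ < t₀`, so by the intermediate value
theorem `φ = φ 1` on `[max (0, that), t₀]`: contradiction to `t₀ = sInf A`. So `φ` is constant on `[0,1]` and, being even, on `[-1,1]`: `h u = φ 1` for unit `u`; homogeneity (`IsN`). -/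
def T_GEO : Prop := ∀ (n : ℕ) (h : E n → ℝ) (v w : E n), 3 ≤ n → IsN h → ‖v‖ = 1 → ‖w‖ = 1 → w ≠ v → w ≠ -v →
  RInv v h → RInv w h → ∃ c : ℝ, ∀ u, h u = c * ‖u‖

/-- If two coordinates of `a` are nonzero, flip the sign of one of them. If only `a i ≠ 0`, exchange the coordinates `i` and some `j ≠ i`. -/
def T_IRR : Prop := ∀ (n : ℕ) (a : E n), 2 ≤ n → a ≠ 0 → ∃ g : E n ≃ₗᵢ[ℝ] E n, CubeSym g ∧ g a ≠ a ∧ g a ≠ -a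

/-- Core. `g = h ∘ T`. `inr h u = α (u 0)^2 + β ‖tl u‖^2 = ‖N u‖^2` with the diagonal equivalence `N = (√α, √β, .., √β)` (`T_INR`); `inr g = γ ‖·‖^2` (`T_INQ`), `inr g u = c * inr h (T u)` (`T_INC`). So `S = √(c/γ) • N ∘ T` is a linear
isometry. `h' = h ∘ N⁻¹` is a norm, `RInv e0 h'` (isometries fixing `e0` commute with `N`: they preserve `u 0` and `(e0)ᗮ`). `h' (S u) = √(c/γ) g u`. Let `a = S⁻¹ e0`, `q` from `T_IRR` for `a`, `w = S (q a)`: unit, `≠ ± e0`. `h'` is invariant under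
`k = S q S⁻¹` (`CInv g`), `k e0 = w`. If the isometry `f` fixes `w` then `k⁻¹ f k` fixes `e0`: `h' (f u) = h' (k⁻¹ f u) = h' ((k⁻¹ f k) (k⁻¹ u)) = h' (k⁻¹ u) = h' u`: `RInv w h'`. `T_GEO`: `h' = c' ‖·‖`, `c' > 0`; `DF h = DF h' = 1` (`DF_comp`, `DF_norm`). -/
def T_COR : Prop := T_INC → T_INR → T_INQ → T_INB → T_INI → T_GEO → T_IRR →
  ∀ (m : ℕ) (h g : E (m + 1) → ℝ) (T : E (m + 1) ≃L[ℝ] E (m + 1)), 2 ≤ m → IsN h → RInv (e0 m) h →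
    IsN g → CInv g → (∀ u, h (T u) = g u) → DF h = 1

/-- `x = h e0 > 0`, `y = h v > 0` for all unit `v ⊥ e0` (reflection in `(v-v')ᗮ`). For `u = u 0 • e0 + u'`: `h u ≤ x |u 0| + y ‖u'‖`; `h u ≥ x |u 0|` and `h u ≥ y ‖u'‖` since `h (u 0 • e0 - u') = h u` (the isometry fixing `e0` and mapping `u'` to `-u'`) and `h` is even.
`T = √2 • diag (1/x, 1/y, .., 1/y)`: `h (T u) ≤ √2 (|u 0| + ‖u'‖) ≤ 2 ‖u‖`, `h (T u) ≥ √2 max (|u 0|, ‖u'‖) ≥ ‖u‖`. `T` commutes with the isometries fixing `e0`. -/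
def T_NRM : Prop := ∀ (m : ℕ) (h : E (m + 1) → ℝ), 1 ≤ m → IsN h → RInv (e0 m) h →
  ∃ T : E (m + 1) ≃L[ℝ] E (m + 1), (∀ g : E (m + 1) ≃ₗᵢ[ℝ] E (m + 1), g (e0 m) = e0 m → ∀ u, T (g u) = g (T u)) ∧
    ∀ u, ‖u‖ ≤ h (T u) ∧ h (T u) ≤ 2 * ‖u‖

/-- `x = g e_i` is the same for all `i`; `g u ≤ x l1 u ≤ x √n ‖u‖`; `g u ≥ x |u i|` (average of `u` and its image under the isometry which changes all signs but the `i`-th), so `g u ≥ x ‖u‖/√n`. `c = √n / x`. -/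
def T_NCB : Prop := ∀ (n : ℕ) [NeZero n] (g : E n → ℝ), IsN g → CInv g →
  ∃ c : ℝ, 0 < c ∧ ∀ u, ‖u‖ ≤ c * g u ∧ c * g u ≤ n * ‖u‖

/-- Compactness. If not: for every `k` there is `h_k` with `DF h_k = r`, `DC h_k < 1 + 1/(k+1)`, `RInv`. By `T_NRM` replace `h_k` by `h_k ∘ N_k` (still `RInv`; `DF`, `DC` unchanged): `Nm 1 2 h_k`. `NearC h_k (1 + 1/(k+1))` (`T_FDC`): `g_k ≤ h_k ∘ T_k ≤ (1 + 1/(k+1)) g_k`,
and by `T_NCB` (replace `g_k`, `T_k` by multiples) `‖u‖ ≤ g_k u ≤ n ‖u‖`, `n = m + 1`. So `‖T_k u‖ ≤ h_k (T_k u) ≤ 2 n ‖u‖`, `‖u‖ ≤ 2 ‖T_k u‖`. Along the hyperfilter: `h_k → h`, `g_k → g`, `T_k u → T u` pointwise (values in compact sets), `T` linear with `‖u‖ ≤ 2 ‖T u‖`, so an equivalence.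
`Nm 1 2 h`, `Nm 1 n g`, `RInv h`, `CInv g`; `|h_k (T_k u) - h_k (T u)| ≤ 2 ‖T_k u - T u‖ → 0` (`Nm.lip`), so `h (T u) = g u`. `T_LMD`: `DF h = r > 1`, but `T_COR`: `DF h = 1`. -/
def T_ETA : Prop := T_NRM → T_NCB → T_FDC → T_FDF → T_LMD →
  (∀ (m : ℕ) (h g : E (m + 1) → ℝ) (T : E (m + 1) ≃L[ℝ] E (m + 1)), 2 ≤ m → IsN h → RInv (e0 m) h →
    IsN g → CInv g → (∀ u, h (T u) = g u) → DF h = 1) →
  ∀ (m : ℕ) (r : ℝ), 2 ≤ m → 1 < r → ∃ η : ℝ, 0 < η ∧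
    ∀ h : E (m + 1) → ℝ, IsN h → RInv (e0 m) h → DF h = r → 1 + η ≤ DC h

/-! ## Group E: assembly -/

/-- `T_MIX` with `ρ p = DF (P^[k] (fam p))`, `χ p = DC (P^[k] (fam p))` (continuous: `T_CTS`), level `1 + x`, `0 < x < η`. `p.1 = 0`: `fam = ‖·‖`, `Pit_norm`, `DF_norm`: `ρ = 1`. `p.1 = 1`: `T_GEN`, `T_SPI` (`U = ℝ e0`), `T_SD2`: `ρ ≥ √2`.
`p.2 = 1`: `CInv` (`T_FSD`, `T_PIS`), `χ = 1`. `p.2 = 0`: `RInv` (`T_FSD`, `T_PIS`), `T_ETA`: if `ρ = r` then `χ ≥ 1 + η > 1 + x`. -/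
def T_LEV : Prop := T_FAM → T_FSD → T_GEN → T_PIS → T_SPI → T_SD2 → T_FDF → T_FDC →
  (∀ (m : ℕ) (D : (E (m + 1) → ℝ) → ℝ), Fnl D → ∀ k : ℕ,
    ContinuousOn (fun p : ℝ × ℝ => D (P^[k] (fam p.1 p.2 : E (m + 1) → ℝ))) sq) →
  (∀ (ρ χ : ℝ × ℝ → ℝ) (r x : ℝ), ContinuousOn ρ sq → ContinuousOn χ sq →
    (∀ t ∈ Icc (0 : ℝ) 1, ρ (0, t) ≤ r ∧ r ≤ ρ (1, t)) → (∀ s ∈ Icc (0 : ℝ) 1, χ (s, 1) ≤ x) →
    (∀ s ∈ Icc (0 : ℝ) 1, ρ (s, 0) = r → x < χ (s, 0)) → ∃ p ∈ sq, ρ p = r ∧ χ p = x) →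
  ∀ (m : ℕ) (r η x : ℝ), 2 ≤ m → 1 < r → r < Real.sqrt 2 → 0 < x → x < η →
    (∀ h : E (m + 1) → ℝ, IsN h → RInv (e0 m) h → DF h = r → 1 + η ≤ DC h) →
    ∀ k : ℕ, ∃ p ∈ sq, DF (P^[k] (fam p.1 p.2 : E (m + 1) → ℝ)) = r ∧
      DC (P^[k] (fam p.1 p.2 : E (m + 1) → ℝ)) = 1 + x

/-- `T_k` from `near_of_DF_lt` (`DF < r + 1`): `Nm 1 (r+1) (P^[k] (fam p_k) ∘ T_k)`; `T_ORB`, `T_LMD` for `DF`, `DC` (both are constant along the sequence by `Fnl`), uniqueness of limits. -/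
def T_LIO : Prop := T_FAM → T_FDF → T_FDC → T_LMD → T_ORB → ∀ (m : ℕ) (r x : ℝ), 2 ≤ m →
  (∀ k : ℕ, ∃ p ∈ sq, DF (P^[k] (fam p.1 p.2 : E (m + 1) → ℝ)) = r ∧
    DC (P^[k] (fam p.1 p.2 : E (m + 1) → ℝ)) = 1 + x) →
  ∃ M : ℕ → E (m + 1) → ℝ, (∀ j, IsN (M j)) ∧ (∀ j, P (M (j + 1)) = M j) ∧ DF (M 0) = r ∧ DC (M 0) = 1 + x

/-- Bodies. `Bd h = T '' Bd h' = Bd (h' ∘ adj T)` (`Bd_comp`, `adj_adj`), so `h = h' ∘ adj T` (`supportFn_Bd`), `Fnl`. For the second part: `OfEveryOrder (Bd (M 0))` as in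
Results/MP_05927b_gt/EveryDistance.lean (copy `isProjectionBody_of_norm`, `iterated_of_orbit`, `ofEveryOrder_of_orbit`, `ballSandwich_iff`, `distToBall_Bd`); smooth: `PBX.t_R2`, a direct sum has distance `≥ √2` (copy `sqrt_two_le_of_directSum`). -/
def T_BOD : Prop := T_FDC →
  (∀ (n : ℕ) [NeZero n] (h h' : E n → ℝ) (T : E n ≃L[ℝ] E n), IsN h → IsN h' → Bd h = T '' Bd h' → DC h = DC h') ∧
  ∀ (n : ℕ) (M : ℕ → E n → ℝ) (r : ℝ), 3 ≤ n → (∀ j, IsN (M j)) → (∀ j, P (M (j + 1)) = M j) → DF (M 0) = r →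
    r < Real.sqrt 2 → OfEveryOrder (Bd (M 0)) ∧ IsSmooth (Bd (M 0)) ∧ (∃ s, BallSandwich (Bd (M 0)) s) ∧
      distToBall (Bd (M 0)) = r

end Pool.Agent.PBC
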