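import Pool.Agent.PBC.Targets

/-!
# PBC: targets, second group

(1) smooth members with the symmetries of the cube at every distance in `(1, √n)`;
(2) the class is the uniform attractor of the projection body operator.
`T_XXX : Prop` is proved in the file `P_XXX.lean` (theorem `p_XXX`); any other target may be taken
as a hypothesis `(h : T_YYY)`. The docstring contains the complete proof. The theorems `t_...` of
`Pool.Agent.PBX.All` (import it if you need them), everything in `Pool/Agent/ProjBody` and the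
theorems `p_...` of `Pool/Agent/PBC/P_*.lean` may be used.
-/

open MeasureTheory Module Set Filter Topology
open scoped Pointwise

namespace Pool.Agent.PBC
open Pool.Agent.ProjBody Pool.Agent.PBX

/-! ## Group F: smooth members with the symmetries of the cube -/

/-- Pure linear algebra. Write `f_i` for the reflection which changes the sign of the `i`-th coordinate (`CubeSym`, in `P_INQ.lean`, `P_NCB.lean`). We may assume `w ≠ 0`; suppose that `w` has at least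
two nonzero coordinates. Let `O` be the orbit of `w` (all `g w`, `CubeSym g`; closed under `f_i` and exchanges of coordinates). `z ∈ O` is not zero, so it is in exactly one of `V`, `V'`.
(1) Let `z ∈ O` have three nonzero coordinates, `z ∈ V`. Then `f_i z ∈ V` for all `i` with `z i ≠ 0`: otherwise `f_i z ∈ V'`; choose `j ≠ i` with `z j ≠ 0`; `z - f_i z - f_j z + f_i f_j z = 0`. Compare the components in
`V` and `V'` (`V ⊓ V' = ⊥`): if `f_j z ∈ V`, `f_i f_j z ∈ V'`: `z = f_j z`, false; both in `V`: `f_i z = 0`, false; `f_j z ∈ V'`, `f_i f_j z ∈ V'`: `z = 0`, false; `f_j z ∈ V'`, `f_i f_j z ∈ V`: `z = - f_i f_j z`, false (third coordinate).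
(2) The same if `z` has exactly two nonzero coordinates `i`, `j`: suppose `z = a e_i + b e_j ∈ V`, `f_i z ∈ V'`. Let `k ≠ i, j`, `z' = a e_i + b e_k ∈ O`, `f_i z' ∈ O`. If `z' ∈ V`, `f_i z' ∈ V'`: `z - z' = b (e_j - e_k) ∈ V`, `f_i z - f_i z' = b (e_j - e_k) ∈ V'`: false.
If `z' ∈ V'`, `f_i z' ∈ V`: `z + f_i z' = b (e_j + e_k) ∈ V`, `f_i z + z' = b (e_j + e_k) ∈ V'`: false. If `z', f_i z'` are in the same space then `e_i` and `e_k` are in it; if it is `V` then `e_j ∈ V` (from `z`) and `f_i z ∈ V`, false; if it is `V'` then `e_j ∈ V'` (from `f_i z`), `z ∈ V'`, false.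
(3) So `z ∈ V` implies `e_i = (z - f_i z) / (2 z i) ∈ V` for all `i` with `z i ≠ 0`, the same for `V'`. For `i ≠ j` some `z ∈ O` has `z i ≠ 0`, `z j ≠ 0` (exchange coordinates), so `e_i`, `e_j` are in the same of the two spaces; so all `e_i` are in the same space, which is `⊤`: false. -/
def T_SPL : Prop := ∀ (n : ℕ) (V V' : Submodule ℝ (E n)) (w : E n), 3 ≤ n → V ⊓ V' = ⊥ → V ≠ ⊤ → V' ≠ ⊤ →
  (∀ g : E n ≃ₗᵢ[ℝ] E n, CubeSym g → g w ∈ V ∨ g w ∈ V') → ∃ (i : Fin n) (c : ℝ), w = c • EuclideanSpace.single i 1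

/-- Let `Add2 U U' h`, `IsCompl U U'`. For `CubeSym g` also `Add2 (g U) (g U') h` (`h (g a + g b) = h (a + b)`), so by `PBX.t_ADS` every `w` in the support of `ρ` is orthogonal to `g U` or to `g U'`; `⟨g a, w⟩ = ⟨a, g.symm w⟩`: `g.symm w ∈ Uᗮ ∨ g.symm w ∈ U'ᗮ`
(`g.symm` runs through all cube symmetries). `Uᗮ ⊓ U'ᗮ = ⊥`, `Uᗮ ≠ ⊤`, `U'ᗮ ≠ ⊤`. `T_SPL`: the support lies on the coordinate axes. So for almost all `w` (`PBX.t_SUP`) `|⟨u,w⟩| = ∑ i, |u i| |w i|`, `h u = ∑ i, |u i| h (e_i)`, and `h (e_i) = h (e_j)` (exchange of coordinates): `h = h (e_0) l1`. -/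
def T_SPC : Prop := T_SPL → ∀ (n : ℕ) [NeZero n] (ρ : Measure (E n)) (h : E n → ℝ), 3 ≤ n → Gen ρ h → IsN h → CInv h →
  Split h → ∃ c : ℝ, 0 < c ∧ h = fun u => c * l1 u

/-- Orbit with the symmetries of the cube. `exists_path_point` (Chain.lean) gives `t k` with `DF (P^[k] (hp (t k))) = r`; `hp t` is `CInv` (norm and `l1`), so `P^[k] (hp (t k))` is (`T_PIS`). `T_NCB`: `c k > 0` with `‖u‖ ≤ c k * (P^[k] ..) u ≤ n ‖u‖`; `T k u = c k • u` (an equivalence):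
`Nm 1 n` of `(P^[k] ..) ∘ T k` (homogeneity). `T_ORB` gives `M` and the pointwise convergence to `M 0`; `CInv` passes to the limit (`T k` commutes with `g`); `DF (M 0) = r` by `T_LMD` for `DF` and `tendsto_nhds_unique` (`DF` of `(P^[k] ..) ∘ T k` is `r`: `DF_comp`). See `P_LIO.lean`. -/
def T_CVO : Prop := T_PIS → T_NCB → T_ORB → T_LMD → T_FDF → ∀ (n : ℕ) [NeZero n] (r : ℝ), 2 ≤ n → 1 ≤ r → r ≤ Real.sqrt n →
  ∃ M : ℕ → E n → ℝ, (∀ j, IsN (M j)) ∧ (∀ j, P (M (j + 1)) = M j) ∧ DF (M 0) = r ∧ CInv (M 0)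

/-- `M` from `T_CVO`, `K = Bd (M 0)`. Member, distance, not an ellipsoid: as in `result` of Results/MP_05927b_gt/EveryDistance.lean (copy). Symmetry: `g '' Bd h = Bd h` since `⟨g x, u⟩ = ⟨x, g.symm u⟩ ≤ h (g.symm u) = h u`. Let `r < √n`: `Cls (M 0)` (`M 0 = P^[m] (M m)`), so `Split` or `Strict` (`PBX.t_MNA`); `M 0 = P (M 1)` has a
generating measure (`PBX.t_BBB`), so if `Split` then `T_SPC`: `M 0 = c l1`, `DF = √n` (`DF_l1`): false. So `Strict (M 0)`: smooth (`PBX.t_SMO`). Not a direct sum: if `Bd h` (`h = M 0` strict) is `A + B`, `A ⊆ V`, `B ⊆ W` complementary, take `u ∈ Wᗮ`, `u' ∈ Vᗮ` not zero (`V, W ≠ ⊥`, complementary, so `≠ ⊤`), with `exists_support` points `x = a + b` for `u`, `x' = a' + b'` for `u'`;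
`a + b' ∈ Bd h`, `⟨a + b', u⟩ = ⟨a, u⟩ = ⟨x, u⟩ = h u`, `⟨a + b', u'⟩ = ⟨b', u'⟩ = ⟨x', u'⟩ = h u'`: so `h (u + u') ≥ h u + h u'`, so `u' = c u` by `Strict`, `u ∈ Vᗮ ⊓ Wᗮ = ⊥`: false. -/
def T_SMC : Prop := T_SPC → T_SPL →
  (∀ (n : ℕ) [NeZero n] (r : ℝ), 2 ≤ n → 1 ≤ r → r ≤ Real.sqrt n →
    ∃ M : ℕ → E n → ℝ, (∀ j, IsN (M j)) ∧ (∀ j, P (M (j + 1)) = M j) ∧ DF (M 0) = r ∧ CInv (M 0)) →
  ∀ (n : ℕ) (r : ℝ), 3 ≤ n → 1 ≤ r → r ≤ Real.sqrt n → ∃ K : Set (E n), OfEveryOrder K ∧ (∃ s, BallSandwich K s) ∧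
    distToBall K = r ∧ (∀ g : E n ≃ₗᵢ[ℝ] E n, CubeSym g → g '' K = K) ∧ (1 < r → ¬ IsEllipsoid K) ∧
    (r < Real.sqrt n → IsSmooth K ∧ ¬ IsDirectSum K)

/-! ## Group G: the class is the uniform attractor -/

/-- `f` is, after a linear change of variables, between `h` and `(1 + ε) h` -/
def NearM {n : ℕ} (h f : E n → ℝ) (ε : ℝ) : Prop := ∃ T : E n ≃L[ℝ] E n, ∀ u, h u ≤ f (T u) ∧ f (T u) ≤ (1 + ε) * h u

/-- For `k` let `g k`, `T k` be given by the hypothesis for `m = k`, `ε = 1/(k+1)`. `T_ORB` with `f = g` (`Nm a (2 b)` if `Nm a b h`): `M` with `P (M (j+1)) = M j` and `(P^[k] (g k)) (T k u) → M 0 u` along the hyperfilter. It also tends to `h u` (squeeze). So `h = M 0 = P^[m] (M m)`: `Cls h`. -/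
def T_AT1 : Prop := T_ORB → ∀ (n : ℕ) [NeZero n] (h : E n → ℝ), 2 ≤ n → IsN h →
  (∀ (m : ℕ) (ε : ℝ), 0 < ε → ∃ g, IsN g ∧ NearM h (P^[m] g) ε) → Cls h

/-- If not: for every `k` there are `m k ≥ k` and `g k` such that `P^[m k] (g k)` is not near any `h` with `Cls h`. `f k = P^[m k - k] (g k)`, so `P^[k] (f k) = P^[m k] (g k)`. `near_auerbach`: `T k` with `Nm 1 n` of `(P^[k] (f k)) ∘ T k`. `T_ORB`: `M`; `M 0 = P^[m] (M m)`: `Cls (M 0)`. `Nm 1 n (M 0)` (`Nm.lim`), `unif_close`: for `δ > 0` some `k` has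
`(1-δ) M 0 ≤ (P^[k] (f k)) ∘ T k ≤ (1+δ) M 0`; `h = (1-δ) M 0` is in `Cls` (multiple) and `(1+δ)/(1-δ) ≤ 1 + ε` for small `δ`: contradiction. -/
def T_AT2 : Prop := T_ORB → ∀ (n : ℕ) [NeZero n] (ε : ℝ), 2 ≤ n → 0 < ε → ∃ m₀ : ℕ, ∀ m, m₀ ≤ m → ∀ g : E n → ℝ, IsN g →
  ∃ h, Cls h ∧ NearM h (P^[m] g) ε

/-- `→`: induction on `m` (`PBX.t_PBC`, `PBX.t_SFN`, `PBX.t_PBP`): `m = 0`: `g = supportFn L'`. `←`: `Bd (P^[m] g)` is the `m`-th iterate of `Bd g` (`isProjectionBody_of_norm` in Results/MP_05927b_gt/EveryDistance.lean, copy), by induction on `m`. -/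
def T_ITN : Prop := ∀ (n : ℕ) [NeZero n], 2 ≤ n →
  (∀ (m : ℕ) (L L' : Set (E n)), IsIteratedProjectionBody (m + 1) L L' →
    IsConvexBody L' ∧ (∀ x ∈ L', -x ∈ L') ∧ ∃ g, IsN g ∧ ∀ u, supportFn L' u = (P^[m] g) u) ∧
  ∀ (m : ℕ) (g : E n → ℝ), IsN g → IsConvexBody (Bd g) ∧ IsIteratedProjectionBody m (Bd g) (Bd (P^[m] g))

/-- `K = Bd (supportFn K)`, `L = Bd (supportFn L)` (`PBX.t_SFN`), `T '' Bd f = Bd (f ∘ adj T)` (`Bd_comp`, `adj_adj`), `(1+ε) • Bd h = Bd ((1+ε) h)` (`Bd_scale`), `Bd h ⊆ Bd h' ↔ h ≤ h'` (`Bd_mono`, `exists_support`). -/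
def T_NRS : Prop := ∀ (n : ℕ) [NeZero n] (K L : Set (E n)) (ε : ℝ), IsConvexBody K → (∀ x ∈ K, -x ∈ K) →
  IsConvexBody L → (∀ x ∈ L, -x ∈ L) → 0 < ε →
  ((∃ T : E n ≃L[ℝ] E n, K ⊆ T '' L ∧ T '' L ⊆ (1 + ε) • K) ↔ NearM (supportFn K) (supportFn L) ε)

/-- (1) `→`: `PBX.t_OEO` is not needed: `K` itself is an `m`-th iterate, `T = 1`, `K ⊆ (1+ε) • K` since `0 ∈ K`. `←`: `K` is centred: for `x ∈ K` and every `ε`, with `m = 1`: `x ∈ T '' L'`, `-x ∈ T '' L' ⊆ (1+ε) • K` (`L'` centred: `PBX.t_PBC`), `K` closed. `T_ITN`, `T_NRS`: for every `m`, `ε` (use the hypothesis for `m + 1`) `NearM (supportFn K) (P^[m] g) ε`;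
`T_AT1`: `Cls (supportFn K)`; `PBX.t_OEO`. (2) `m₀ + 1` with `m₀` of `T_AT2`: `supportFn L' = P^[m] g`; `K = Bd h`, `supportFn K = h` (`supportFn_Bd`), `Bd (supportFn K) = K`, `PBX.t_OEO`, `T_NRS`. -/
def T_ATR : Prop := T_ITN → T_NRS →
  (∀ (n : ℕ) [NeZero n] (h : E n → ℝ), 2 ≤ n → IsN h →
    (∀ (m : ℕ) (ε : ℝ), 0 < ε → ∃ g, IsN g ∧ NearM h (P^[m] g) ε) → Cls h) →
  (∀ (n : ℕ) [NeZero n] (ε : ℝ), 2 ≤ n → 0 < ε → ∃ m₀ : ℕ, ∀ m, m₀ ≤ m → ∀ g : E n → ℝ, IsN g →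
    ∃ h, Cls h ∧ NearM h (P^[m] g) ε) →
  ∀ n : ℕ, 2 ≤ n →
    (∀ K : Set (E n), IsConvexBody K → (OfEveryOrder K ↔ ∀ (m : ℕ) (ε : ℝ), 1 ≤ m → 0 < ε →
      ∃ L L' : Set (E n), IsConvexBody L ∧ IsIteratedProjectionBody m L L' ∧
        ∃ T : E n ≃L[ℝ] E n, K ⊆ T '' L' ∧ T '' L' ⊆ (1 + ε) • K)) ∧
    ∀ ε : ℝ, 0 < ε → ∃ m₀ : ℕ, ∀ m, m₀ ≤ m → ∀ L L' : Set (E n), IsConvexBody L →
      IsIteratedProjectionBody m L L' → ∃ K : Set (E n), OfEveryOrder K ∧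
        ∃ T : E n ≃L[ℝ] E n, K ⊆ T '' L' ∧ T '' L' ⊆ (1 + ε) • K

end Pool.Agent.PBC
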