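import Pool.Agent.PBC.Targets

/-!
# PBC: wiring of the targets
-/

open MeasureTheory Module Set Filter Topology
open scoped Pointwise

namespace Pool.Agent.PBC
open Pool.Agent.ProjBody Pool.Agent.PBX

theorem wire (hFAM : T_FAM) (hFCL : T_FCL) (hFSD : T_FSD) (hGEN : T_GEN) (hPIS : T_PIS)
    (hSPI : T_SPI) (hSD2 : T_SD2) (hFDF : T_FDF) (hFDC : T_FDC) (hCTS : T_CTS) (hLMD : T_LMD)
    (hORB : T_ORB) (hMIR : T_MIR) (hMIX : T_MIX) (hINC : T_INC) (hINB : T_INB) (hINI : T_INI)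
    (hINR : T_INR) (hINQ : T_INQ) (hGEO : T_GEO) (hIRR : T_IRR) (hCOR : T_COR) (hNRM : T_NRM)
    (hNCB : T_NCB) (hETA : T_ETA) (hLEV : T_LEV) (hLIO : T_LIO) (hBOD : T_BOD)
    (n : ℕ) (hn : 3 ≤ n) (r : ℝ) (h1 : 1 < r) (h2 : r < Real.sqrt 2) :
    ∃ K : ℝ → Set (E n), (∀ c, OfEveryOrder (K c) ∧ IsSmooth (K c) ∧
      (∃ s, BallSandwich (K c) s) ∧ distToBall (K c) = r) ∧
      ∀ c d, c ≠ d → ¬ ∃ T : E n ≃L[ℝ] E n, K c = T '' K d := by
  obtain ⟨m, rfl⟩ : ∃ m, n = m + 1 := ⟨n - 1, by omega⟩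
  have hm : 2 ≤ m := by omega
  have hcor := hCOR hINC hINR hINQ hINB hINI hGEO hIRR
  obtain ⟨η, hη, hηD⟩ := hETA hNRM hNCB hFDC hFDF hLMD hcor m r hm h1
  have hlev : ∀ x : ℝ, 0 < x → x < η → ∃ M : ℕ → E (m + 1) → ℝ, (∀ j, IsN (M j)) ∧
      (∀ j, P (M (j + 1)) = M j) ∧ DF (M 0) = r ∧ DC (M 0) = 1 + x := by
    intro x hx0 hxη
    exact hLIO hFAM hFDF hFDC hLMD hORB m r x hm
      (hLEV hFAM hFSD hGEN hPIS hSPI hSD2 hFDF hFDC (hCTS hFAM hFCL) (hMIX hMIR) m r η x hm h1 h2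
        hx0 hxη hηD)
  have hx0 : ∀ c : ℝ, 0 < η / (1 + Real.exp c) := fun c => by positivity
  have hx1 : ∀ c : ℝ, η / (1 + Real.exp c) < η := fun c => by
    have := Real.exp_pos c
    rw [div_lt_iff₀ (by positivity)]
    nlinarith
  choose M hMN hMP hMr hMx using fun c : ℝ => hlev (η / (1 + Real.exp c)) (hx0 c) (hx1 c)
  obtain ⟨hB1, hB2⟩ := hBOD hFDC
  refine ⟨fun c => Bd (M c 0), fun c => hB2 (m + 1) (M c) r hn (hMN c) (hMP c) (hMr c) h2, ?_⟩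
  rintro c d hcd ⟨T, hT⟩
  have := hB1 (m + 1) (M c 0) (M d 0) T (hMN c 0) (hMN d 0) hT
  rw [hMx, hMx] at this
  have e1 : η / (1 + Real.exp c) = η / (1 + Real.exp d) := by linarith
  have hc := Real.exp_pos c
  have hd := Real.exp_pos d
  rw [div_eq_div_iff (by positivity) (by positivity)] at e1
  have e2 : Real.exp c = Real.exp d := by
    have := mul_left_cancel₀ hη.ne' e1
    linarith
  exact hcd (Real.exp_injective e2)

end Pool.Agent.PBC
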